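import Pool.Agent.H13.FG.Defs

/-!
# Invariant algebras of sets with invariant finitely additive measures
-/

set_option autoImplicit false

open Classical

namespace Pool.Agent.H13.FG

open Pool.Agent.H13.BD

/-- `𝓑` is an algebra of sets which is invariant under the permutations `T j`, and each nonempty member has positive
measure for some invariant finitely additive nonnegative measure. -/
structure Alg {J Y : Type} (T : J → Equiv.Perm Y) (𝓑 : Set (Set Y)) : Prop where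
  empty : ∅ ∈ 𝓑
  compl : ∀ A ∈ 𝓑, Aᶜ ∈ 𝓑
  union : ∀ A ∈ 𝓑, ∀ B ∈ 𝓑, A ∪ B ∈ 𝓑
  pre : ∀ (j : J), ∀ A ∈ 𝓑, T j ⁻¹' A ∈ 𝓑
  pre' : ∀ (j : J), ∀ A ∈ 𝓑, (T j).symm ⁻¹' A ∈ 𝓑
  meas : ∀ A ∈ 𝓑, A.Nonempty → ∃ m : Set Y → ℝ, (∀ B ∈ 𝓑, 0 ≤ m B) ∧
    (∀ B ∈ 𝓑, ∀ C ∈ 𝓑, Disjoint B C → m (B ∪ C) = m B + m C) ∧
    (∀ (j : J), ∀ B ∈ 𝓑, m (T j ⁻¹' B) = m B) ∧ 0 < m A

namespace Alg

variable {J Y : Type} {T : J → Equiv.Perm Y} {𝓑 : Set (Set Y)} (h : Alg T 𝓑)

include h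

theorem univ : Set.univ ∈ 𝓑 := by
  have h1 := h.compl _ h.empty
  rwa [Set.compl_empty] at h1

theorem inter (A B : Set Y) (hA : A ∈ 𝓑) (hB : B ∈ 𝓑) : A ∩ B ∈ 𝓑 := by
  have h1 := h.compl _ (h.union _ (h.compl _ hA) _ (h.compl _ hB))
  rwa [Set.compl_union, compl_compl, compl_compl] at h1

theorem diff (A B : Set Y) (hA : A ∈ 𝓑) (hB : B ∈ 𝓑) : A \ B ∈ 𝓑 := by
  rw [Set.sdiff_eq]
  exact h.inter _ _ hA (h.compl _ hB)

theorem biUnion {I : Type} (s : Set I) (hs : s.Finite) (F : I → Set Y)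
    (hF : ∀ i ∈ s, F i ∈ 𝓑) : (⋃ i ∈ s, F i) ∈ 𝓑 := by
  induction s, hs using Set.Finite.induction_on with
  | empty => simpa using h.empty
  | @insert a s _ _ ih =>
    rw [Set.biUnion_insert]
    exact h.union _ (hF a (Set.mem_insert a s)) _
      (ih fun i hi => hF i (Set.mem_insert_of_mem a hi))

theorem iUnion {I : Type} [Finite I] (F : I → Set Y) (hF : ∀ i, F i ∈ 𝓑) : (⋃ i, F i) ∈ 𝓑 := by
  have h1 := h.biUnion Set.univ Set.finite_univ F fun i _ => hF i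
  rwa [Set.biUnion_univ] at h1

theorem iInter {I : Type} [Finite I] (F : I → Set Y) (hF : ∀ i, F i ∈ 𝓑) : (⋂ i, F i) ∈ 𝓑 := by
  have h1 := h.compl _ (h.iUnion (fun i => (F i)ᶜ) fun i => h.compl _ (hF i))
  rwa [Set.compl_iUnion, Set.iInter_congr fun i => compl_compl (F i)] at h1

/-- sets of colours -/
theorem preset {V : Type} [Finite V] (c : Y → V) (hc : ∀ v, c ⁻¹' {v} ∈ 𝓑) (A : Set V) :
    c ⁻¹' A ∈ 𝓑 := by
  have h1 := h.biUnion A (Set.toFinite A) (fun v => c ⁻¹' {v}) fun v _ => hc v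
  have h2 : (⋃ v ∈ A, c ⁻¹' {v}) = c ⁻¹' A := by
    ext y
    simp
  rwa [h2] at h1

/-- if `c` has a finite set of values and the fibres are in `𝓑` then all preimages are in `𝓑` -/
theorem preset' {V : Type} (c : Y → V) (hf : (Set.range c).Finite) (hc : ∀ v, c ⁻¹' {v} ∈ 𝓑)
    (A : Set V) : c ⁻¹' A ∈ 𝓑 := by
  have h1 := h.biUnion (A ∩ Set.range c) (hf.subset Set.inter_subset_right)
    (fun v => c ⁻¹' {v}) fun v _ => hc v
  have h2 : (⋃ v ∈ A ∩ Set.range c, c ⁻¹' {v}) = c ⁻¹' A := by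
    ext y
    simp
  rwa [h2] at h1

end Alg

/-- the index set of the colimit: finite families of members of `𝓑` -/
abbrev Ix {Y : Type} (𝓑 : Set (Set Y)) : Type := {i : Finset (Set Y) // ∀ A ∈ i, A ∈ 𝓑}

/-- the fibres of the colouring by the members of a finite family are in `𝓑` -/
theorem alg_cl {J Y : Type} {T : J → Equiv.Perm Y} {𝓑 : Set (Set Y)} (h : Alg T 𝓑) (i : Ix 𝓑)
    (v : i.1 → Prop) : cl i.1 ⁻¹' {v} ∈ 𝓑 := by
  have h1 : cl i.1 ⁻¹' {v} = ⋂ D : i.1, if v D then D.1 else (D.1)ᶜ := by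
    ext y
    simp only [Set.mem_preimage, Set.mem_singleton_iff, Set.mem_iInter]
    constructor
    · rintro rfl D
      by_cases hD : y ∈ D.1
      · rw [if_pos (show cl i.1 y D from hD)]
        exact hD
      · rw [if_neg (show ¬ cl i.1 y D from hD)]
        exact hD
    · intro h2
      funext D
      have h3 := h2 D
      by_cases hD : v D
      · rw [if_pos hD] at h3
        exact propext ⟨fun _ => hD, fun _ => h3⟩
      · rw [if_neg hD] at h3
        exact propext ⟨fun h4 => absurd h4 h3, fun h4 => absurd h4 hD⟩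
  rw [h1]
  refine h.iInter _ fun D => ?_
  by_cases hD : v D
  · rw [if_pos hD]
    exact i.2 D.1 D.2
  · rw [if_neg hD]
    exact h.compl _ (i.2 D.1 D.2)

end Pool.Agent.H13.FG
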