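import Pool.Agent.H13.FG.Defs

/-!
# High slots
-/

set_option autoImplicit false

open Classical

namespace Pool.Agent.H13.FG

open Pool.Agent.H13.BD

variable {J V : Type}

/-- the statement of `flx` -/
def FlxP (p : PP J V) : Prop := ∃ (M : ℕ) (k : Lt J V → ℤ), ∀ (S : Sys J V) (y : S.Z) (n : ℕ),
    M ≤ n → ∃ n' : ℕ, (n' : ℤ) = n + k (S.lt y) ∧ S.Ph p (y, n) = (y, n')

theorem flx_bd [Finite J] [Finite V] (k : Lt J V → ℤ) : ∃ K : ℕ, ∀ l, |k l| ≤ K := by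
  have h1 : (Set.range fun x : Lt J V => (k x).natAbs).Finite := Set.finite_range _
  obtain ⟨K, hK⟩ := h1.bddAbove
  refine ⟨K, fun l => ?_⟩
  have h2 : (k l).natAbs ≤ K := hK ⟨l, rfl⟩
  rw [Int.abs_eq_natAbs]
  exact_mod_cast h2

theorem flx_one : FlxP (1 : PP J V) := by
  refine ⟨0, fun _ => 0, fun S y n _ => ⟨n, ?_, ?_⟩⟩
  · rw [add_zero]
  · rw [map_one, Equiv.Perm.one_apply]

theorem flx_mul [Finite J] [Finite V] (p q : PP J V) (hp : FlxP p) (hq : FlxP q) :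
    FlxP (p * q) := by
  obtain ⟨M, k, h1⟩ := hp
  obtain ⟨M', k', h2⟩ := hq
  obtain ⟨K, hK⟩ := flx_bd k'
  refine ⟨M' + M + K, fun l => k l + k' l, fun S y n hn => ?_⟩
  obtain ⟨n', h3, h4⟩ := h2 S y n (by omega)
  have h5 := abs_le.1 (hK (S.lt y))
  obtain ⟨n'', h6, h7⟩ := h1 S y n' (by omega)
  refine ⟨n'', ?_, ?_⟩
  · rw [h6, h3]
    ring
  · rw [map_mul, Equiv.Perm.mul_apply, h4, h7]

theorem flx_inv [Finite J] [Finite V] (p : PP J V) (hp : FlxP p) : FlxP p⁻¹ := by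
  obtain ⟨M, k, h1⟩ := hp
  obtain ⟨K, hK⟩ := flx_bd k
  refine ⟨M + K, fun l => -k l, fun S y n hn => ?_⟩
  have h5 := abs_le.1 (hK (S.lt y))
  obtain ⟨m, hm⟩ : ∃ m : ℕ, (m : ℤ) = n - k (S.lt y) :=
    ⟨((n : ℤ) - k (S.lt y)).toNat, Int.toNat_of_nonneg (by omega)⟩
  refine ⟨m, ?_, ?_⟩
  · rw [hm]
    ring
  · obtain ⟨n', h3, h4⟩ := h1 S y m (by omega)
    have h6 : n' = n := by omega
    rw [h6] at h4
    rw [map_inv, Equiv.Perm.inv_eq_iff_eq, h4]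

theorem flx_inl [Finite J] [Finite V] (e : Lt J V → Fin1) :
    FlxP (FreeGroup.of (Sum.inl e) : PP J V) := by
  choose M hM using fun l => (e l).2
  have h1 : (Set.range fun x : Lt J V => M x).Finite := Set.finite_range _
  obtain ⟨K, hK⟩ := h1.bddAbove
  refine ⟨K, fun _ => 0, fun S y n hn => ⟨n, by rw [add_zero], ?_⟩⟩
  have h2 : M (S.lt y) ≤ K := hK ⟨S.lt y, rfl⟩
  have h3 := hM (S.lt y) n (h2.trans hn)
  unfold Sys.Ph
  rw [FreeGroup.lift_apply_of, Sum.elim_inl, Sys.bF_apply]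
  exact Prod.ext rfl h3

theorem flx_inr (p : J × Set V) : FlxP (FreeGroup.of (Sum.inr p) : PP J V) := by
  obtain ⟨j, A⟩ := p
  refine ⟨1, fun l => (ii (l.1 ∈ A) : ℤ) - ii (l.2 j ∈ A), fun S y n hn => ?_⟩
  have h0 : ¬ (S.T j y ∈ S.c ⁻¹' A ∧ n = 0) := fun h => by omega
  refine ⟨n - ii (S.T j y ∈ S.c ⁻¹' A) + ii (y ∈ S.c ⁻¹' A), ?_, ?_⟩
  · have h2 : ii (S.T j y ∈ S.c ⁻¹' A) = ii (S.c (S.T j y) ∈ A) := rfl
    have h3 : ii (y ∈ S.c ⁻¹' A) = ii (S.c y ∈ A) := rfl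
    have h4 : ii (S.c (S.T j y) ∈ A) ≤ 1 := by
      unfold ii
      split_ifs <;> omega
    rw [h2, h3]
    show ((n - ii (S.c (S.T j y) ∈ A) + ii (S.c y ∈ A) : ℕ) : ℤ) =
      n + ((ii (S.c y ∈ A) : ℤ) - ii (S.c (S.T j y) ∈ A))
    omega
  · unfold Sys.Ph
    rw [FreeGroup.lift_apply_of, Sum.elim_inr]
    unfold Sys.bT
    rw [tau_apply, if_neg h0]

/-- High slots are shifted by a constant which depends only on the local type. -/
theorem flx [Finite J] [Finite V] (p : PP J V) : ∃ (M : ℕ) (k : Lt J V → ℤ),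
    ∀ (S : Sys J V) (y : S.Z) (n : ℕ),
      M ≤ n → ∃ n' : ℕ, (n' : ℤ) = n + k (S.lt y) ∧ S.Ph p (y, n) = (y, n') := by
  show FlxP p
  induction p using FreeGroup.induction_on with
  | C1 => exact flx_one
  | of x =>
    rcases x with e | A
    · exact flx_inl e
    · exact flx_inr A
  | inv_of x hx => exact flx_inv _ hx
  | mul p q hp hq => exact flx_mul p q hp hq

/-- `flx`: `k l = 0` for all local types of `S`, hence of `R`. -/
theorem FH_of_ty [Finite J] [Finite V] (S R : Sys J V) (hE : ∀ l, R.Ty l → S.Ty l) (p : PP J V)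
    (h : S.Ph p ∈ FH S.Z) : R.Ph p ∈ FH R.Z := by
  obtain ⟨M, k, h1⟩ := flx p
  obtain ⟨M', h2⟩ := h
  have hk : ∀ l, S.Ty l → k l = 0 := by
    rintro l ⟨z, rfl⟩
    obtain ⟨n', h3, h4⟩ := h1 S z (max M M') (le_max_left _ _)
    have h5 := h2 z (max M M') (le_max_right _ _)
    rw [h5] at h4
    have h6 := congrArg Prod.snd h4
    dsimp only at h6
    omega
  refine ⟨M, fun y n hn => ?_⟩
  obtain ⟨n', h3, h4⟩ := h1 R y n hn
  rw [hk _ (hE _ ⟨y, rfl⟩), add_zero] at h3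
  rw [h4]
  have h5 : n' = n := by exact_mod_cast h3
  rw [h5]

end Pool.Agent.H13.FG
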