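import Pool.Agent.H13.FG.Alg
import Pool.Agent.H13.FG.Flx

/-!
# Locality
-/

set_option autoImplicit false

open Classical

namespace Pool.Agent.H13.FG

open Pool.Agent.H13.BD

variable {J V V' : Type}

theorem loc_Ph_inl (S : Sys J V) (e : Lt J V → Fin1) :
    S.Ph (FreeGroup.of (Sum.inl e)) = S.bF (fun l => (e l : Equiv.Perm ℕ)) := by
  unfold Sys.Ph
  rw [FreeGroup.lift_apply_of]
  rfl

theorem loc_Ph_inr (S : Sys J V) (p : J × Set V) :
    S.Ph (FreeGroup.of (Sum.inr p)) = S.bT p.1 p.2 := by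
  unfold Sys.Ph
  rw [FreeGroup.lift_apply_of]
  rfl

theorem loc_ev_inl [Finite V] (S : Sys J V) (e : Lt J V → Fin1) :
    S.ev (FreeGroup.of (Sum.inl e)) = S.F (fun l => (e l : Equiv.Perm ℕ)) := by
  unfold Sys.ev
  rw [FreeGroup.lift_apply_of]
  rfl

theorem loc_ev_inr [Finite V] (S : Sys J V) (p : J × Set V) :
    S.ev (FreeGroup.of (Sum.inr p)) = S.t p.1 p.2 := by
  unfold Sys.ev
  rw [FreeGroup.lift_apply_of]
  rfl

/-- refinement of the colours does not change the permutation -/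
theorem Ph_rf (π : V' → V) (S : Sys J V') (p : PP J V) : S.Ph (rf π p) = (S.push π).Ph p := by
  induction p using FreeGroup.induction_on with
  | C1 =>
    rw [map_one, map_one, map_one]
    rfl
  | of x =>
    rcases x with e | A
    · rw [loc_Ph_inl]
      unfold rf
      rw [FreeGroup.map.of]
      exact loc_Ph_inl S _
    · rw [loc_Ph_inr]
      unfold rf
      rw [FreeGroup.map.of]
      exact loc_Ph_inr S _
  | inv_of x hx =>
    rw [map_inv, map_inv, map_inv, hx]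
    rfl
  | mul p q hp hq =>
    rw [map_mul, map_mul, map_mul, hp, hq]
    rfl

/-- the right part of `ev` -/
theorem ev_right [Finite V] (S : Sys J V) (p : PP J V) : (S.ev p).right = S.Ph p := by
  induction p using FreeGroup.induction_on with
  | C1 =>
    rw [map_one, map_one]
    rfl
  | of x =>
    rcases x with e | A
    · rw [loc_Ph_inl, loc_ev_inl]
      rfl
    · rw [loc_Ph_inr, loc_ev_inr]
      rfl
  | inv_of x hx =>
    rw [map_inv, map_inv, SemidirectProduct.inv_right, hx]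
  | mul p q hp hq =>
    rw [map_mul, map_mul, SemidirectProduct.mul_right, hp, hq]

/-- `Ph` for `ysys` with the plain type -/
noncomputable def loc_ph {Ω : Type} (c : Ω × FreeGroup J → V) :
    PP J V →* Equiv.Perm ((Ω × FreeGroup J) × ℕ) := (ysys c).Ph

/-- the local type with the plain type -/
def loc_ty {Ω : Type} (c : Ω × FreeGroup J → V) (y : Ω × FreeGroup J) : Lt J V :=
  (c y, fun j => c (fsh Ω J j y))

/-- the way in which a slot is moved depends on the local type only -/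
def LocG {Ω : Type} (c : Ω × FreeGroup J → V) (p : PP J V) (s : ℕ) : Prop :=
  ∃ G : Lt J V → FreeGroup J × ℕ, ∀ y : Ω × FreeGroup J,
      loc_ph c p (y, s) = ((y.1, (G (loc_ty c y)).1 * y.2), (G (loc_ty c y)).2)

theorem loc_one_pair {Ω : Type} (y : Ω × FreeGroup J) (s : ℕ) :
    (y, s) = ((y.1, (1 : FreeGroup J) * y.2), s) := by
  rw [one_mul]

theorem loc_gen {Ω : Type} (c : Ω × FreeGroup J → V) (x : Gn J V) (s : ℕ) :
    LocG c (FreeGroup.of x) s := by
  rcases x with e | ⟨j, A⟩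
  · refine ⟨fun l => (1, (e l : Equiv.Perm ℕ) s), fun y => ?_⟩
    have h0 : loc_ph c (FreeGroup.of (Sum.inl e)) (y, s) =
        (y, (e (loc_ty c y) : Equiv.Perm ℕ) s) :=
      DFunLike.congr_fun (loc_Ph_inl (ysys c) e) (y, s)
    rw [h0]
    exact loc_one_pair y _
  · refine ⟨fun l => if l.2 j ∈ A ∧ s = 0 then (FreeGroup.of j, 0)
      else (1, s - ii (l.2 j ∈ A) + ii (l.1 ∈ A)), fun y => ?_⟩
    have h0 : loc_ph c (FreeGroup.of (Sum.inr (j, A))) (y, s) =
        tau (fsh Ω J j) (c ⁻¹' A) (y, s) :=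
      DFunLike.congr_fun (loc_Ph_inr (ysys c) (j, A)) (y, s)
    rw [h0, tau_apply]
    by_cases h : fsh Ω J j y ∈ c ⁻¹' A ∧ s = 0
    · have h' : (loc_ty c y).2 j ∈ A ∧ s = 0 := h
      simp only [if_pos h, if_pos h']
      rfl
    · have h' : ¬ ((loc_ty c y).2 j ∈ A ∧ s = 0) := h
      simp only [if_neg h, if_neg h']
      exact loc_one_pair y _

theorem loc_geninv {Ω : Type} (c : Ω × FreeGroup J → V) (x : Gn J V) (s : ℕ) :
    LocG c (FreeGroup.of x)⁻¹ s := by
  rcases x with e | ⟨j, A⟩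
  · refine ⟨fun l => (1, ((e l : Equiv.Perm ℕ)⁻¹) s), fun y => ?_⟩
    have h0 : loc_ph c (FreeGroup.of (Sum.inl e))⁻¹ (y, s) =
        (y, ((e (loc_ty c y) : Equiv.Perm ℕ)⁻¹) s) := by
      have h1 : (ysys c).Ph (FreeGroup.of (Sum.inl e))⁻¹ =
          (ysys c).bF (fun l => ((e l : Equiv.Perm ℕ))⁻¹) := by
        rw [map_inv, loc_Ph_inl, ← map_inv]
        rfl
      exact DFunLike.congr_fun h1 (y, s)
    rw [h0]
    exact loc_one_pair y _
  · refine ⟨fun l => if l.1 ∈ A ∧ s = 0 then ((FreeGroup.of j)⁻¹, 0)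
      else (1, s - ii (l.1 ∈ A) + ii (l.2 j ∈ A)), fun y => ?_⟩
    have h0 : loc_ph c (FreeGroup.of (Sum.inr (j, A)))⁻¹ (y, s) =
        (tau (fsh Ω J j) (c ⁻¹' A))⁻¹ (y, s) := by
      have h1 : (ysys c).Ph (FreeGroup.of (Sum.inr (j, A)))⁻¹ = ((ysys c).bT j A)⁻¹ := by
        rw [map_inv, loc_Ph_inr]
      exact DFunLike.congr_fun h1 (y, s)
    rw [h0, tau_inv_apply]
    by_cases h : y ∈ c ⁻¹' A ∧ s = 0
    · have h' : (loc_ty c y).1 ∈ A ∧ s = 0 := h
      simp only [if_pos h, if_pos h']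
      rfl
    · have h' : ¬ ((loc_ty c y).1 ∈ A ∧ s = 0) := h
      simp only [if_neg h, if_neg h']
      exact loc_one_pair y _

theorem loc_one {Ω : Type} (c : Ω × FreeGroup J → V) (s : ℕ) : LocG c (1 : PP J V) s := by
  refine ⟨fun _ => (1, s), fun y => ?_⟩
  rw [map_one, Equiv.Perm.one_apply]
  exact loc_one_pair y s

theorem loc_fin_of [Finite J] [Finite V] {Ω : Type} (c : Ω × FreeGroup J → V) (p : PP J V) (s : ℕ)
    (h : LocG c p s) :
    ∃ F : Finset (FreeGroup J × ℕ), ∀ y, ∃ x ∈ F,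
      loc_ph c p (y, s) = ((y.1, x.1 * y.2), x.2) := by
  obtain ⟨G, hG⟩ := h
  refine ⟨(Set.finite_range G).toFinset, fun y => ⟨G (loc_ty c y), ?_, hG y⟩⟩
  rw [Set.Finite.mem_toFinset]
  exact ⟨_, rfl⟩

theorem loc_fin' [Finite J] [Finite V] {Ω : Type} (c : Ω × FreeGroup J → V) (p : PP J V) (s : ℕ) :
    ∃ F : Finset (FreeGroup J × ℕ), ∀ y, ∃ x ∈ F,
      loc_ph c p (y, s) = ((y.1, x.1 * y.2), x.2) := by
  induction p using FreeGroup.induction_on generalizing s with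
  | C1 => exact loc_fin_of c _ s (loc_one c s)
  | of x => exact loc_fin_of c _ s (loc_gen c x s)
  | inv_of x _ => exact loc_fin_of c _ s (loc_geninv c x s)
  | mul p q hp hq =>
    obtain ⟨F, hF⟩ := hq s
    choose F' hF' using hp
    refine ⟨F.biUnion fun x => (F' x.2).image fun x' => (x'.1 * x.1, x'.2), fun y => ?_⟩
    obtain ⟨x, hx, hxy⟩ := hF y
    obtain ⟨x', hx', hxy'⟩ := hF' x.2 (y.1, x.1 * y.2)
    refine ⟨(x'.1 * x.1, x'.2), ?_, ?_⟩
    · rw [Finset.mem_biUnion]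
      exact ⟨x, hx, Finset.mem_image_of_mem _ hx'⟩
    · rw [map_mul, Equiv.Perm.mul_apply, hxy, hxy', mul_assoc]

/-- Each slot number is moved only by finitely many elements of the free group, to finitely many slot numbers. -/
theorem loc_fin [Finite J] [Finite V] {Ω : Type} (c : Ω × FreeGroup J → V) (p : PP J V) (s : ℕ) :
    ∃ F : Finset (FreeGroup J × ℕ), ∀ y, ∃ x ∈ F,
      (ysys c).Ph p (y, s) = ((y.1, x.1 * y.2), x.2) :=
  loc_fin' c p s

/-- The algebra is invariant under left multiplication. -/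
theorem loc_pre {Ω : Type} {𝓑 : Set (Set (Ω × FreeGroup J))} (h : Alg (fsh Ω J) 𝓑)
    (k : FreeGroup J) (A : Set (Ω × FreeGroup J)) (hA : A ∈ 𝓑) :
    (fun y : Ω × FreeGroup J => (y.1, k * y.2)) ⁻¹' A ∈ 𝓑 := by
  induction k using FreeGroup.induction_on generalizing A with
  | C1 =>
    have h1 : (fun y : Ω × FreeGroup J => (y.1, 1 * y.2)) ⁻¹' A = A := by
      ext y
      rw [Set.mem_preimage, one_mul]
    rw [h1]
    exact hA
  | of j => exact h.pre j A hA
  | inv_of j _ => exact h.pre' j A hA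
  | mul p q hp hq =>
    have h1 : (fun y : Ω × FreeGroup J => (y.1, p * q * y.2)) ⁻¹' A =
        (fun y : Ω × FreeGroup J => (y.1, q * y.2)) ⁻¹'
          ((fun y : Ω × FreeGroup J => (y.1, p * y.2)) ⁻¹' A) := by
      ext y
      rw [Set.mem_preimage, Set.mem_preimage, Set.mem_preimage, mul_assoc]
    rw [h1]
    exact hq _ (hp A hA)

theorem loc_lt [Finite J] {Ω : Type} {𝓑 : Set (Set (Ω × FreeGroup J))}
    (h : Alg (fsh Ω J) 𝓑) (c : Ω × FreeGroup J → V) (hc : ∀ v, c ⁻¹' {v} ∈ 𝓑) (l : Lt J V) :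
    loc_ty c ⁻¹' {l} ∈ 𝓑 := by
  have h1 : loc_ty c ⁻¹' {l} =
      c ⁻¹' {l.1} ∩ ⋂ j : J, (fsh Ω J j) ⁻¹' (c ⁻¹' {l.2 j}) := by
    ext y
    rw [Set.mem_inter_iff, Set.mem_iInter]
    constructor
    · intro h2
      have h3 : loc_ty c y = l := h2
      exact ⟨congrArg Prod.fst h3, fun j => congrFun (congrArg Prod.snd h3) j⟩
    · rintro ⟨h2, h3⟩
      exact Prod.ext h2 (funext h3)
  rw [h1]
  exact h.inter _ _ (hc _) (h.iInter _ fun j => h.pre j _ (hc _))

theorem loc_alg_of [Finite J] [Finite V] {Ω : Type} {𝓑 : Set (Set (Ω × FreeGroup J))}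
    (h : Alg (fsh Ω J) 𝓑) (c : Ω × FreeGroup J → V) (hc : ∀ v, c ⁻¹' {v} ∈ 𝓑) (p : PP J V)
    (s : ℕ) (x : FreeGroup J × ℕ) (hG : LocG c p s) :
    {y | loc_ph c p (y, s) = ((y.1, x.1 * y.2), x.2)} ∈ 𝓑 := by
  obtain ⟨G, hG⟩ := hG
  have h1 : {y | loc_ph c p (y, s) = ((y.1, x.1 * y.2), x.2)} =
      loc_ty c ⁻¹' {l | G l = x} := by
    ext y
    constructor
    · intro h2
      have h2' : loc_ph c p (y, s) = ((y.1, x.1 * y.2), x.2) := h2
      rw [hG y] at h2'
      have h3 := Prod.mk.inj h2'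
      have h4 : (G (loc_ty c y)).1 * y.2 = x.1 * y.2 := (Prod.mk.inj h3.1).2
      have h5 : (G (loc_ty c y)).2 = x.2 := h3.2
      exact Prod.ext (mul_right_cancel h4) h5
    · intro h2
      have h2' : G (loc_ty c y) = x := h2
      change loc_ph c p (y, s) = ((y.1, x.1 * y.2), x.2)
      rw [hG y, h2']
  rw [h1]
  exact h.preset _ (loc_lt h c hc) _

theorem loc_alg' [Finite J] [Finite V] {Ω : Type} {𝓑 : Set (Set (Ω × FreeGroup J))}
    (h : Alg (fsh Ω J) 𝓑) (c : Ω × FreeGroup J → V) (hc : ∀ v, c ⁻¹' {v} ∈ 𝓑) (p : PP J V) :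
    ∀ (s : ℕ) (x : FreeGroup J × ℕ),
      {y | loc_ph c p (y, s) = ((y.1, x.1 * y.2), x.2)} ∈ 𝓑 := by
  induction p using FreeGroup.induction_on with
  | C1 =>
    intro s x
    exact loc_alg_of h c hc 1 s x (loc_one c s)
  | of z =>
    intro s x
    exact loc_alg_of h c hc _ s x (loc_gen c z s)
  | inv_of z _ =>
    intro s x
    exact loc_alg_of h c hc _ s x (loc_geninv c z s)
  | mul p q hp hq =>
    intro s x
    obtain ⟨F, hF⟩ := loc_fin' c q s
    have h1 : {y | loc_ph c (p * q) (y, s) = ((y.1, x.1 * y.2), x.2)} =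
        ⋃ z ∈ (F : Set (FreeGroup J × ℕ)),
          ({y | loc_ph c q (y, s) = ((y.1, z.1 * y.2), z.2)} ∩
            (fun y : Ω × FreeGroup J => (y.1, z.1 * y.2)) ⁻¹'
              {y | loc_ph c p (y, z.2) = ((y.1, (x.1 * z.1⁻¹) * y.2), x.2)}) := by
      ext y
      rw [Set.mem_iUnion₂]
      constructor
      · intro h2
        obtain ⟨z, hz, hzy⟩ := hF y
        have h2' : loc_ph c (p * q) (y, s) = ((y.1, x.1 * y.2), x.2) := h2
        rw [map_mul, Equiv.Perm.mul_apply, hzy] at h2'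
        refine ⟨z, Finset.mem_coe.2 hz, hzy, ?_⟩
        change loc_ph c p ((y.1, z.1 * y.2), z.2) = ((y.1, (x.1 * z.1⁻¹) * (z.1 * y.2)), x.2)
        rw [h2', mul_assoc, inv_mul_cancel_left]
      · rintro ⟨z, -, h2, h3⟩
        have h2' : loc_ph c q (y, s) = ((y.1, z.1 * y.2), z.2) := h2
        have h3' : loc_ph c p ((y.1, z.1 * y.2), z.2) =
          ((y.1, (x.1 * z.1⁻¹) * (z.1 * y.2)), x.2) := h3
        rw [mul_assoc, inv_mul_cancel_left] at h3'
        change loc_ph c (p * q) (y, s) = ((y.1, x.1 * y.2), x.2)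
        rw [map_mul, Equiv.Perm.mul_apply, h2', h3']
    rw [h1]
    exact h.biUnion _ F.finite_toSet _ fun z _ => h.inter _ _ (hq s z)
      (loc_pre h z.1 _ (hp z.2 (x.1 * z.1⁻¹, x.2)))

/-- The set of the `y` for which the slot `(y, s)` is moved in a given way is in the algebra. -/
theorem loc_alg [Finite J] [Finite V] {Ω : Type} {𝓑 : Set (Set (Ω × FreeGroup J))}
    (h : Alg (fsh Ω J) 𝓑) (c : Ω × FreeGroup J → V) (hc : ∀ v, c ⁻¹' {v} ∈ 𝓑) (p : PP J V) :
    ∀ (s : ℕ) (x : FreeGroup J × ℕ),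
      {y | (ysys c).Ph p (y, s) = ((y.1, x.1 * y.2), x.2)} ∈ 𝓑 :=
  loc_alg' h c hc p

end Pool.Agent.H13.FG
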