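import Pool.Agent.H13.FG.Tau
import Pool.Agent.H13.BD.Dfl

/-!
# Deflation
-/

set_option autoImplicit false

open Classical

namespace Pool.Agent.H13.FG

open Pool.Agent.H13.BD

/-- a family of block permutations which fix `0` for the local types in `r` is shifted by `r` -/
theorem Dfl_sh {J V : Type} (r : Lt J V → Prop) (a : Bl J V) (h : ∀ l, r l → a l 0 = 0) :
    ∃ e : Bl J V, sh r e = a := by
  have h1 : ∀ l, ∃ ρ : Equiv.Perm ℕ, (if r l then up ρ else ρ) = a l := by
    intro l
    by_cases hr : r l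
    · obtain ⟨ρ, hρ⟩ := Dfl_up (a l) (h l hr)
      exact ⟨ρ, by rw [if_pos hr, hρ]⟩
    · exact ⟨a l, if_neg hr⟩
  choose e he using h1
  exact ⟨e, funext fun l => he l⟩

/-- the image of a family depends only on the local types -/
theorem Dfl_congr {J V : Type} {E : Lt J V → Prop} {G : Type} [Group G] {f : Bl J V →* G}
    {t : J → V → G} (h : IsModel E f t) {a b : Bl J V} (hab : ∀ l, E l → a l = b l) :
    f a = f b := by
  have h1 : f (a * b⁻¹) = 1 := by
    refine h.rela _ fun l hl => ?_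
    rw [Pi.mul_apply, Pi.inv_apply, hab l hl, mul_inv_cancel]
  rw [map_mul, map_inv, mul_inv_eq_one] at h1
  exact h1

/-- the first factor in `step` -/
theorem Dfl_fac {J V : Type} (r : Lt J V → Prop) (P : Lt J V → Prop) (a : Bl J V)
    (ha : ∀ l, P l → r l → a l 0 ≠ 0) :
    ∃ b : Bl J V, ∀ l, P l → ((sh r b)⁻¹ * a) l 0 = ii (r l) := by
  refine ⟨fun l => if r l then Equiv.swap 0 (a l 0 - 1) else Equiv.swap 0 (a l 0), ?_⟩
  intro l hP
  by_cases hr : r l
  · have h1 := ha l hP hr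
    have h2 : a l 0 - 1 + 1 = a l 0 := Nat.succ_pred_eq_of_ne_zero h1
    rw [Pi.mul_apply, Pi.inv_apply, sh_pos hr, if_pos hr, ii_pos hr,
      Equiv.Perm.mul_apply, Equiv.Perm.inv_eq_iff_eq]
    show a l 0 = up (Equiv.swap 0 (a l 0 - 1)) (0 + 1)
    rw [up_succ, Equiv.swap_apply_left, h2]
  · rw [Pi.mul_apply, Pi.inv_apply, sh_neg hr, if_neg hr, ii_neg hr,
      Equiv.Perm.mul_apply, Equiv.Perm.inv_eq_iff_eq, Equiv.swap_apply_left]

namespace Sys

variable {J V : Type} (S : Sys J V)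

/-- the shifted words fix the slots `(z, 0)` for the `z` with local type in `r`: induction on `w`; `sh r e` fixes the
slot `0` for local types in `r` and `tw_fix` (and its inverse) -/
theorem svl_fix (r : Lt J V → Prop) (w : Wd J V) (z : S.Z) (hz : S.On r z) :
    svl S.bF S.bt r w (z, 0) = (z, 0) := by
  have key : ∀ (k : J) (d : V) (ε : Bool),
      (sg (tw S.bF r k {d} (S.bt k d)) ε : Equiv.Perm (S.Z × ℕ)) (z, 0) = (z, 0) := by
    intro k d ε
    have h1 : (tw S.bF r k {d} (S.bt k d) : Equiv.Perm (S.Z × ℕ)) (z, 0) = (z, 0) :=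
      tw_fix (S.T k) {y | S.On r y} (S.c ⁻¹' {d}) z hz
    cases ε with
    | true => exact h1
    | false =>
      rw [sg_false, Equiv.Perm.inv_eq_iff_eq]
      exact h1.symm
  induction w with
  | nil => rfl
  | cons x w ih =>
    have hz' : r (S.lt z) := hz
    rw [svl_cons, Equiv.Perm.mul_apply, ih, Equiv.Perm.mul_apply, key, S.bF_apply]
    show (z, sh r x.1 (S.lt z) 0) = (z, 0)
    rw [sh_pos hz', up_zero]

/-- One letter: if `a` moves the slot `0` of the `z` with the colour `d` (`ε = true`) or with `T k z` of the colour `d`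
(`ε = false`) with local type in `r`, then `f a * (t k d)^±` can be deflated. See `BD/Dfl.lean`. -/
theorem step {G : Type} [Group G] (f : Bl J V →* G) (t : J → V → G) {E : Lt J V → Prop}
    (h : IsModel E f t) (r : Lt J V → Prop) (a : Bl J V) (k : J) (d : V) (ε : Bool)
    (ha : ∀ l, E l → r l → (if ε then l.1 else l.2 k) = d → a l 0 ≠ 0) :
    ∃ b a' : Bl J V, f a * sg (t k d) ε = f (sh r b) * sg (tw f r k {d} (t k d)) ε * f a' := by
  -- the hypothesis may be assumed for all local types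
  obtain ⟨a1, ha1, ha1'⟩ : ∃ a1 : Bl J V, f a1 = f a ∧
      ∀ l, (if ε then l.1 else l.2 k) = d → r l → a1 l 0 ≠ 0 := by
    refine ⟨fun l => if E l then a l else Equiv.swap 0 1, ?_, ?_⟩
    · refine Dfl_congr h fun l hl => ?_
      exact if_pos hl
    · intro l hd hr
      by_cases hE : E l
      · show (if E l then a l else Equiv.swap 0 1) 0 ≠ 0
        rw [if_pos hE]
        exact ha l hE hr hd
      · show (if E l then a l else Equiv.swap 0 1) 0 ≠ 0
        rw [if_neg hE, Equiv.swap_apply_left]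
        exact one_ne_zero
  obtain ⟨b, hb⟩ := Dfl_fac r (fun l => (if ε then l.1 else l.2 k) = d) a1 ha1'
  have hfa : f a = f (sh r b) * f ((sh r b)⁻¹ * a1) := by
    rw [← ha1, ← map_mul, mul_inv_cancel_left]
  cases ε with
  | true =>
    obtain ⟨e, he⟩ := Dfl_sh (out {d}) ((sw (fun l => l.1 ∈ ({d} : Set V) ∧ r l))⁻¹ *
      ((sh r b)⁻¹ * a1)) (by
        intro l hv
        have hv' : l.1 = d := hv
        have h1 := hb l hv'
        rw [Pi.mul_apply, Pi.inv_apply, Equiv.Perm.mul_apply,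
          Equiv.Perm.inv_eq_iff_eq, h1]
        by_cases hr : r l
        · rw [ii_pos hr, sw_pos ⟨hv, hr⟩, Equiv.swap_apply_left]
        · rw [ii_neg hr, sw_neg (fun h2 => hr h2.2)]
          rfl)
    have h2 : (sh r b)⁻¹ * a1 = sw (fun l => l.1 ∈ ({d} : Set V) ∧ r l) * sh (out {d}) e := by
      rw [he, mul_inv_cancel_left]
    refine ⟨b, (sw (fun l => l.2 k ∈ ({d} : Set V) ∧ r l))⁻¹ * sh (inn k {d}) e, ?_⟩
    have h3 := h.relb k d e
    rw [hfa, h2, sg_true, sg_true, tw, map_mul, map_mul, map_inv]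
    calc f (sh r b) * (f (sw fun l => l.1 ∈ ({d} : Set V) ∧ r l) * f (sh (out {d}) e)) * t k d
        = f (sh r b) * f (sw fun l => l.1 ∈ ({d} : Set V) ∧ r l) *
          (f (sh (out {d}) e) * t k d) := by group
      _ = f (sh r b) * f (sw fun l => l.1 ∈ ({d} : Set V) ∧ r l) *
          (t k d * f (sh (inn k {d}) e)) := by rw [h3]
      _ = _ := by group
  | false =>
    obtain ⟨e, he⟩ := Dfl_sh (inn k {d}) (sw (fun l => l.2 k ∈ ({d} : Set V) ∧ r l) *
      ((sh r b)⁻¹ * a1)) (by
        intro l hv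
        have hv' : l.2 k = d := hv
        have h1 := hb l hv'
        rw [Pi.mul_apply, Equiv.Perm.mul_apply, h1]
        by_cases hr : r l
        · rw [ii_pos hr, sw_pos ⟨hv, hr⟩, Equiv.swap_apply_right]
        · rw [ii_neg hr, sw_neg (fun h2 => hr h2.2)]
          rfl)
    have h2 : (sh r b)⁻¹ * a1 = (sw (fun l => l.2 k ∈ ({d} : Set V) ∧ r l))⁻¹ *
        sh (inn k {d}) e := by
      rw [he, inv_mul_cancel_left]
    refine ⟨b, sw (fun l => l.1 ∈ ({d} : Set V) ∧ r l) * sh (out {d}) e, ?_⟩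
    have h3 : f (sh (inn k {d}) e) * (t k d)⁻¹ = (t k d)⁻¹ * f (sh (out {d}) e) := by
      rw [mul_inv_eq_iff_eq_mul, mul_assoc, ← h.relb k d e, inv_mul_cancel_left]
    rw [hfa, h2, sg_false, sg_false, tw, map_mul, map_mul, map_inv]
    calc f (sh r b) * ((f (sw fun l => l.2 k ∈ ({d} : Set V) ∧ r l))⁻¹ *
          f (sh (inn k {d}) e)) * (t k d)⁻¹
        = f (sh r b) * (f (sw fun l => l.2 k ∈ ({d} : Set V) ∧ r l))⁻¹ *
          (f (sh (inn k {d}) e) * (t k d)⁻¹) := by group
      _ = f (sh r b) * (f (sw fun l => l.2 k ∈ ({d} : Set V) ∧ r l))⁻¹ *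
          ((t k d)⁻¹ * f (sh (out {d}) e)) := by rw [h3]
      _ = _ := by group

/-- **Deflation.** See `BD/Dfl.lean`. -/
theorem dfl {G : Type} [Group G] (f : Bl J V →* G) (t : J → V → G) (h : IsModel S.Ty f t)
    (ev : G →* Equiv.Perm (S.Z × ℕ)) (hf : ∀ e, ev (f e) = S.bF e)
    (ht : ∀ j c, ev (t j c) = S.bt j c)
    (r : Lt J V → Prop) (w : Wd J V) (a : Bl J V) (hav : S.Avoid r a w) :
    ∃ (w' : Wd J V) (a' : Bl J V), w'.length = w.length ∧
      f a * vl f t w = svl f t r w' * f a' := by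
  induction w generalizing a with
  | nil => exact ⟨[], a, rfl, by rw [vl_nil, svl_nil, mul_one, one_mul]⟩
  | cons x w ih =>
    obtain ⟨e, ⟨k, d⟩, ε⟩ := x
    obtain ⟨b, a₁, h1⟩ := step f t h r (a * e) k d ε (by
      intro l hE hr hd h0
      obtain ⟨z, rfl⟩ := hE
      have hon : S.On r z := hr
      cases ε with
      | true =>
        have hd' : S.c z = d := hd
        have h2 := hav [] (e, (k, d), true) w rfl z z hd' hon
        apply h2
        show (S.bF a * vl S.bF S.bt [] * S.bF e) (z, 0) = (z, 0)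
        rw [vl_nil, mul_one, ← map_mul, S.bF_apply]
        show (z, (a * e) (S.lt z) 0) = (z, 0)
        rw [h0]
      | false =>
        have hd' : S.c (S.T k z) = d := hd
        have h2 := hav [] (e, (k, d), false) w rfl (S.T k z) z hd' hon
        apply h2
        show (S.bF a * vl S.bF S.bt [] * S.bF e) ((S.T k).symm (S.T k z), 0) = (z, 0)
        rw [vl_nil, mul_one, ← map_mul, Equiv.symm_apply_apply, S.bF_apply]
        show (z, (a * e) (S.lt z) 0) = (z, 0)
        rw [h0])
    -- the same identity for the permutations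
    have h2 : S.bF a * (S.bF e * sg (S.bt k d) ε) =
        svl S.bF S.bt r [(b, (k, d), ε)] * S.bF a₁ := by
      have h3l : ev (f (a * e) * sg (t k d) ε) = S.bF a * (S.bF e * sg (S.bt k d) ε) := by
        rw [map_mul ev, hf, map_sg, ht, map_mul, mul_assoc]
      have h3r : ev (f (sh r b) * sg (tw f r k {d} (t k d)) ε * f a₁) =
          svl S.bF S.bt r [(b, (k, d), ε)] * S.bF a₁ := by
        rw [map_mul ev, map_mul ev, hf, hf, map_sg, tw, map_mul ev, map_mul ev, hf, hf, ht,
          svl_cons, svl_nil, mul_one]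
        rfl
      rw [← h3l, ← h3r, h1]
    obtain ⟨w₁, a', hlen, h4⟩ := ih a₁ (by
      intro p x' q hw b' z' hb' hz' h5
      have h6 := hav ((e, (k, d), ε) :: p) x' q (by rw [hw]; rfl) b' z' hb' hz'
      apply h6
      have h7 : S.bF a * vl S.bF S.bt ((e, (k, d), ε) :: p) * S.bF x'.1 =
          svl S.bF S.bt r [(b, (k, d), ε)] * (S.bF a₁ * vl S.bF S.bt p * S.bF x'.1) := by
        rw [vl_cons]
        calc S.bF a * (S.bF e * sg (S.bt k d) ε * vl S.bF S.bt p) * S.bF x'.1
            = (S.bF a * (S.bF e * sg (S.bt k d) ε)) * vl S.bF S.bt p * S.bF x'.1 := by group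
          _ = (svl S.bF S.bt r [(b, (k, d), ε)] * S.bF a₁) * vl S.bF S.bt p * S.bF x'.1 := by
            rw [h2]
          _ = _ := by group
      rw [h7, Equiv.Perm.mul_apply, h5]
      exact svl_fix S r _ z' hz')
    refine ⟨(b, (k, d), ε) :: w₁, a', ?_, ?_⟩
    · rw [List.length_cons, List.length_cons, hlen]
    · rw [vl_cons, svl_cons]
      show f a * (f e * sg (t k d) ε * vl f t w) =
        f (sh r b) * sg (tw f r k {d} (t k d)) ε * svl f t r w₁ * f a'
      calc f a * (f e * sg (t k d) ε * vl f t w) = (f (a * e) * sg (t k d) ε) * vl f t w := by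
            rw [map_mul]
            group
        _ = f (sh r b) * sg (tw f r k {d} (t k d)) ε * (f a₁ * vl f t w) := by
            rw [h1]
            group
        _ = f (sh r b) * sg (tw f r k {d} (t k d)) ε * (svl f t r w₁ * f a') := by rw [h4]
        _ = _ := by group

/-- If moreover the tokens `(z, 0)` return to their slots then `a'` can be taken to be shifted. See `BD/Dfl.lean`. -/
theorem dfl' {G : Type} [Group G] (f : Bl J V →* G) (t : J → V → G) (h : IsModel S.Ty f t)
    (ev : G →* Equiv.Perm (S.Z × ℕ)) (hf : ∀ e, ev (f e) = S.bF e)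
    (ht : ∀ j c, ev (t j c) = S.bt j c)
    (r : Lt J V → Prop) (w : Wd J V) (a a2 : Bl J V) (hav : S.Avoid r a w)
    (hfix : ∀ z, S.On r z → (S.bF a * vl S.bF S.bt w * S.bF a2) (z, 0) = (z, 0)) :
    ∃ (w' : Wd J V) (a₀ : Bl J V), w'.length = w.length ∧
      f a * vl f t w * f a2 = svl f t r w' * f (sh r a₀) := by
  obtain ⟨w', a', hlen, h1⟩ := dfl S f t h ev hf ht r w a hav
  have h2 : ∀ z, S.On r z → (a' * a2) (S.lt z) 0 = 0 := by
    intro z hz
    have h3 := hfix z hz
    have h4 : S.bF a * vl S.bF S.bt w = svl S.bF S.bt r w' * S.bF a' := by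
      have h5 := congrArg ev h1
      rw [map_mul, map_mul, hf, hf, map_vl f t ev S.bF S.bt hf ht,
        map_svl f t ev S.bF S.bt hf ht] at h5
      exact h5
    rw [h4, mul_assoc, ← map_mul, Equiv.Perm.mul_apply] at h3
    have h5 : (S.bF (a' * a2)) (z, 0) = (z, 0) :=
      (svl S.bF S.bt r w').injective (h3.trans (svl_fix S r w' z hz).symm)
    rw [S.bF_apply] at h5
    exact congrArg Prod.snd h5
  obtain ⟨a₀, ha₀⟩ := Dfl_sh r
    (fun l => if r l ∧ (a' * a2) l 0 ≠ 0 then 1 else (a' * a2) l) (by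
      intro l hr
      by_cases h3 : (a' * a2) l 0 = 0
      · show (if r l ∧ (a' * a2) l 0 ≠ 0 then 1 else (a' * a2) l) 0 = 0
        rw [if_neg (fun h4 => h4.2 h3)]
        exact h3
      · show (if r l ∧ (a' * a2) l 0 ≠ 0 then 1 else (a' * a2) l) 0 = 0
        rw [if_pos ⟨hr, h3⟩]
        rfl)
  refine ⟨w', a₀, hlen, ?_⟩
  rw [h1, mul_assoc, ← map_mul]
  congr 1
  refine Dfl_congr h fun l hE => ?_
  rw [ha₀]
  obtain ⟨z, rfl⟩ := hE
  show (a' * a2) (S.lt z) =
    if r (S.lt z) ∧ (a' * a2) (S.lt z) 0 ≠ 0 then 1 else (a' * a2) (S.lt z)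
  rw [if_neg]
  rintro ⟨h3, h4⟩
  exact h4 (h2 z h3)

end Sys

end Pool.Agent.H13.FG
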