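import Pool.Agent.H13.FG.Rel
import Pool.Agent.H13.FG.ML

/-!
# The relations of a system depend only on its local types
-/

set_option autoImplicit false

open Classical

namespace Pool.Agent.H13.FG

open Pool.Agent.H13.TFG Pool.Agent.H13.BD

/-- the homomorphism of the block permutations -/
def mlpF {J V V' : Type} (π : V' → V) (S : Sys J V) (R : Sys J V') :
    Bl J V →* GG J S.Z × GG J R.Z :=
  (S.F).prod (R.F.comp (Sys.blc π))

/-- the token moves -/
noncomputable def mlpT {J V V' : Type} [Finite V] [Finite V'] (π : V' → V) (S : Sys J V)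
    (R : Sys J V') (j : J) (c : V) : GG J S.Z × GG J R.Z := (S.t j {c}, R.t j (π ⁻¹' {c}))

theorem mlp_model {J V V' : Type} [Finite V] [Finite V'] (π : V' → V) (S : Sys J V)
    (R : Sys J V') (hE : ∀ l, (R.push π).Ty l → S.Ty l) :
    IsModel S.Ty (mlpF π S R) (mlpT π S R) := by
  have hm := Sys.model_push R π
  refine ⟨fun e he => ?_, fun j c e => ?_, fun j k c d => ?_, fun j c hc => ?_⟩
  · exact Prod.ext (S.rel_a e he) (hm.rela e fun l hl => he l (hE l hl))
  · exact Prod.ext (S.rel_b j {c} e) (hm.relb j c e)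
  · exact Prod.ext (S.rel_c j k {c} {d}) (hm.relc j k c d)
  · exact Prod.ext (S.rel_d j {c} fun b hb => hc (S.lt b) ⟨b, rfl⟩ hb)
      (hm.reld j c fun l hl => hc l (hE l hl))

/-- the subgroup generated by the generators -/
def mlpG {J V V' : Type} [Finite V] [Finite V'] (π : V' → V) (S : Sys J V)
    (R : Sys J V') : Subgroup (GG J S.Z × GG J R.Z) :=
  Subgroup.closure (Set.range (mlpF π S R) ∪ Set.range fun p : J × V => mlpT π S R p.1 p.2)

theorem mlp_inr {J V V' : Type} [Finite V] [Finite V'] (π : V' → V) (S : Sys J V) (R : Sys J V')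
    (j : J) (A : Set V) : ((S.t j A, R.t j (π ⁻¹' A)) : GG J S.Z × GG J R.Z) ∈ mlpG π S R := by
  induction A, Set.toFinite A using Set.Finite.induction_on with
  | empty =>
    have h1 : ((S.t j ∅, R.t j (π ⁻¹' ∅)) : GG J S.Z × GG J R.Z) = 1 := by
      rw [Set.preimage_empty, S.t_empty, R.t_empty]
      rfl
    rw [h1]
    exact Subgroup.one_mem _
  | @insert c A hc _ ih =>
    have h1 : insert c A = A ∪ {c} := by
      rw [Set.union_singleton]
    have h2 : Disjoint A {c} := Set.disjoint_singleton_right.2 hc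
    have h3 : Disjoint (π ⁻¹' A) (π ⁻¹' {c}) := h2.preimage π
    have h4 : ((S.t j (insert c A), R.t j (π ⁻¹' (insert c A))) : GG J S.Z × GG J R.Z) =
        mlpT π S R j c * mlpF π S R (sw fun l => l.1 ∈ A ∧ l.2 j ∈ ({c} : Set V)) *
          (S.t j A, R.t j (π ⁻¹' A)) := by
      rw [h1, Set.preimage_union, S.rel_u j A {c} h2, R.rel_u j (π ⁻¹' A) (π ⁻¹' {c}) h3]
      rfl
    rw [h4]
    refine Subgroup.mul_mem _ (Subgroup.mul_mem _ ?_ ?_) ih
    · exact Subgroup.subset_closure (Or.inr ⟨(j, c), rfl⟩)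
    · exact Subgroup.subset_closure (Or.inl ⟨_, rfl⟩)

theorem mlp_ev_inl {J V : Type} [Finite V] (S : Sys J V) (e : Lt J V → Fin1) :
    S.ev (FreeGroup.of (Sum.inl e)) = S.F (fun l => (e l : Equiv.Perm ℕ)) := by
  unfold Sys.ev
  rw [FreeGroup.lift_apply_of, Sum.elim_inl]

theorem mlp_ev_inr {J V : Type} [Finite V] (S : Sys J V) (p : J × Set V) :
    S.ev (FreeGroup.of (Sum.inr p)) = S.t p.1 p.2 := by
  unfold Sys.ev
  rw [FreeGroup.lift_apply_of, Sum.elim_inr]

theorem mlp_rf_inl {J V V' : Type} (π : V' → V) (e : Lt J V → Fin1) :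
    rf π (FreeGroup.of (Sum.inl e)) = FreeGroup.of (Sum.inl fun l => e (ltm π l)) := by
  unfold rf
  rw [FreeGroup.map.of, Sum.map_inl]

theorem mlp_rf_inr {J V V' : Type} (π : V' → V) (p : J × Set V) :
    rf π (FreeGroup.of (Sum.inr p)) = FreeGroup.of (Sum.inr (p.1, π ⁻¹' p.2)) := by
  unfold rf
  rw [FreeGroup.map.of, Sum.map_inr]

/-- the homomorphism given by both systems -/
noncomputable def mlpH {J V V' : Type} [Finite V] [Finite V'] (π : V' → V) (S : Sys J V)
    (R : Sys J V') : PP J V →* GG J S.Z × GG J R.Z := (S.ev).prod (R.ev.comp (rf π))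

theorem mlp_mem {J V V' : Type} [Finite V] [Finite V'] (π : V' → V) (S : Sys J V) (R : Sys J V')
    (p : PP J V) : mlpH π S R p ∈ mlpG π S R := by
  induction p using FreeGroup.induction_on with
  | C1 =>
    rw [map_one]
    exact Subgroup.one_mem _
  | of x =>
    rcases x with e | ⟨j, A⟩
    · refine Subgroup.subset_closure (Or.inl ⟨fun l => (e l : Equiv.Perm ℕ), ?_⟩)
      refine Prod.ext (mlp_ev_inl S e).symm ?_
      have h1 : R.ev (rf π (FreeGroup.of (Sum.inl e))) =
          R.F (fun l => (e (ltm π l) : Equiv.Perm ℕ)) := by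
        rw [mlp_rf_inl, mlp_ev_inl]
      exact h1.symm
    · have h1 := mlp_inr π S R j A
      have h2 : mlpH π S R (FreeGroup.of (Sum.inr (j, A))) =
          ((S.t j A, R.t j (π ⁻¹' A)) : GG J S.Z × GG J R.Z) := by
        refine Prod.ext (mlp_ev_inr S (j, A)) ?_
        have h3 : R.ev (rf π (FreeGroup.of (Sum.inr (j, A)))) = R.t j (π ⁻¹' A) := by
          rw [mlp_rf_inr, mlp_ev_inr]
        exact h3
      rw [h2]
      exact h1
  | inv_of x hx =>
    rw [map_inv]
    exact Subgroup.inv_mem _ hx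
  | mul p q hp hq =>
    rw [map_mul]
    exact Subgroup.mul_mem _ hp hq

/-- An element of the free group which is trivial in `GG J S.Z` is trivial in `GG J R.Z`, also for finer colours, if
the local types of `R` are local types of `S`. -/
theorem mlp {J V V' : Type} [Finite V] [Finite V'] (π : V' → V) (S : Sys J V) (R : Sys J V')
    (hE : ∀ l, (R.push π).Ty l → S.Ty l) (p : PP J V) (hp : S.ev p = 1) :
    R.ev (rf π p) = 1 := by
  have h1 := ml S (mlpF π S R) (mlpT π S R) (mlp_model π S R hE) (MonoidHom.fst _ _)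
    (fun _ => rfl) (fun j c => by
      show (⟨LA j S.c (S.st 1) {c}, S.bT j {c}⟩ : GG J S.Z) = _
      rw [LA_single]) _ (mlp_mem π S R p) hp
  exact congrArg Prod.snd h1

end Pool.Agent.H13.FG
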