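import Pool.Agent.H13.FG.Mod
import Pool.Agent.H13.FG.MLp
import Pool.Agent.H13.FG.Loc
import Pool.Agent.H13.BD.Cls
import Pool.Agent.H13.TFG.Closure
import Pool.Agent.H13.TFG.RaagLF

/-!
# The approximations are in the class
-/

set_option autoImplicit false

open Classical

namespace Pool.Agent.H13.FG

open Pool.Agent.H98.FJ Pool.Agent.H13.TFG Pool.Agent.H13.BD

/-- the elements which fix the high slots -/
noncomputable def P0 {J Ω V : Type} (c : Ω × FreeGroup J → V) : Subgroup (PP J V) :=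
  (FH (Ω × FreeGroup J)).comap (ysys c).Ph

/-- The elements of `GG J Y`, `Y` finite, with right part in `FH Y`. -/
theorem gg_mem {C : (G : Type) → [Group G] → Prop} (hC : RaagClass C) (J Y : Type) [Finite J]
    [Finite Y] :
    C ((FH Y).comap (SemidirectProduct.rightHom : GG J Y →* Equiv.Perm (Y × ℕ))) := by
  have hadj : ∀ (a : FH Y) (S S' : Lab J Y), (tg J Y).Adj S S' →
      (tg J Y).Adj (a • S) (a • S') :=
    fun a S S' h => tg_smul J Y (a : Equiv.Perm (Y × ℕ)) S S' h
  have h1 : C (RAAG (tg J Y) ⋊[raagAct (tg J Y) (FH Y) hadj] (FH Y)) := by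
    refine sd_mem hC (tg J Y) (FH Y) hadj ?_
    intro s
    obtain ⟨K, hK, hs, -⟩ := fh_lf (Y := Y) (s.image Subtype.val) (by
      intro q hq
      obtain ⟨x, -, rfl⟩ := Finset.mem_image.1 hq
      exact x.2)
    refine ⟨K.comap (FH Y).subtype, ?_, ?_⟩
    · exact Finite.of_injective (fun x : K.comap (FH Y).subtype => (⟨x.1.1, x.2⟩ : K))
        (fun x y hxy => by
          have h0 : x.1.1 = y.1.1 := congrArg (fun z : K => (z : Equiv.Perm (Y × ℕ))) hxy
          exact Subtype.ext (Subtype.ext h0))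
    · intro x hx
      exact hs (Finset.mem_coe.2 (Finset.mem_image_of_mem Subtype.val (Finset.mem_coe.1 hx)))
  let φ : (FH Y).comap (SemidirectProduct.rightHom : GG J Y →* Equiv.Perm (Y × ℕ)) →*
      RAAG (tg J Y) ⋊[raagAct (tg J Y) (FH Y) hadj] (FH Y) :=
    { toFun := fun w => ⟨w.1.left, ⟨w.1.right, w.2⟩⟩
      map_one' := rfl
      map_mul' := fun v w => rfl }
  refine hC.of_injective φ ?_ h1
  intro v w hvw
  have h2 : v.1.left = w.1.left :=
    congrArg (fun z : RAAG (tg J Y) ⋊[raagAct (tg J Y) (FH Y) hadj] (FH Y) => z.left) hvw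
  have h3 : v.1.right = w.1.right := congrArg
    (fun z : RAAG (tg J Y) ⋊[raagAct (tg J Y) (FH Y) hadj] (FH Y) =>
      (z.right : Equiv.Perm (Y × ℕ))) hvw
  exact Subtype.ext (SemidirectProduct.ext h2 h3)

section

variable {J Ω V : Type} [Finite J] [Finite V] {𝓑 : Set (Set (Ω × FreeGroup J))}
  (hB : Alg (fsh Ω J) 𝓑) (c : Ω × FreeGroup J → V) (hc : ∀ v, c ⁻¹' {v} ∈ 𝓑)

/-- a finite system with the same local types -/
noncomputable def mdl : Sys J V := (mod_exists (ysys c) hB hc).choose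

theorem mdl_finite : Finite (mdl hB c hc).Z := (mod_exists (ysys c) hB hc).choose_spec.1

theorem mdl_ty (l : Lt J V) : (mdl hB c hc).Ty l ↔ (ysys c).Ty l :=
  (mod_exists (ysys c) hB hc).choose_spec.2 l

/-- the evaluation in the finite system -/
noncomputable def jj : P0 c →* GG J (mdl hB c hc).Z := (mdl hB c hc).ev.comp (P0 c).subtype

/-- the kernel -/
noncomputable def N0 : Subgroup (P0 c) := (jj hB c hc).ker

noncomputable instance : (N0 hB c hc).Normal :=
  (inferInstance : (jj hB c hc).ker.Normal)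

theorem mem_N0 (x : P0 c) : x ∈ N0 hB c hc ↔ (mdl hB c hc).ev x.1 = 1 := Iff.rfl

theorem apx {C : (G : Type) → [Group G] → Prop} (hC : RaagClass C) : C (P0 c ⧸ N0 hB c hc) := by
  have hfin : Finite (mdl hB c hc).Z := mdl_finite hB c hc
  refine hC.iso (jj hB c hc).range (P0 c ⧸ N0 hB c hc)
    (QuotientGroup.quotientKerEquivRange (jj hB c hc)).symm ?_
  have h1 : (jj hB c hc).range ≤ (FH (mdl hB c hc).Z).comap
      (SemidirectProduct.rightHom : GG J (mdl hB c hc).Z →* Equiv.Perm ((mdl hB c hc).Z × ℕ)) := by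
    rintro _ ⟨p, rfl⟩
    change ((mdl hB c hc).ev p.1).right ∈ FH (mdl hB c hc).Z
    rw [ev_right]
    exact FH_of_ty (ysys c) (mdl hB c hc) (fun l h => (mdl_ty hB c hc l).1 h) p.1 p.2
  exact hC.of_injective (Subgroup.inclusion h1) (Subgroup.inclusion_injective h1)
    (gg_mem hC J (mdl hB c hc).Z)

end

end Pool.Agent.H13.FG
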