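import Pool.Agent.H13.TFG.Closure

/-!
# Directed colimits of quotients
-/

set_option autoImplicit false

namespace Pool.Agent.H13.FG

open Pool.Agent.H98.FJ Pool.Agent.H13.TFG

/-- `hC.colim` for the groups `P i ⧸ N i` -/
theorem col {C : (G : Type) → [Group G] → Prop} (hC : RaagClass C) {ι : Type} [Preorder ι]
    [IsDirectedOrder ι] [Nonempty ι] (P : ι → Type) [∀ i, Group (P i)]
    (r : ∀ i j, i ≤ j → P i →* P j) (r_id : ∀ i (h : i ≤ i) x, r i i h x = x)
    (r_comp : ∀ i j k (hij : i ≤ j) (hjk : j ≤ k) (hik : i ≤ k) x,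
      r j k hjk (r i j hij x) = r i k hik x)
    (Q : Type) [Group Q] (Φ : ∀ i, P i →* Q) (compat : ∀ i j h x, Φ j (r i j h x) = Φ i x)
    (N : ∀ i, Subgroup (P i)) [∀ i, (N i).Normal] (hN : ∀ i x, x ∈ N i → Φ i x = 1)
    (hr : ∀ i j h x, x ∈ N i → r i j h x ∈ N j) (surj : ∀ q : Q, ∃ i x, Φ i x = q)
    (die : ∀ i x, Φ i x = 1 → ∃ j h, r i j h x ∈ N j) (hG : ∀ i, C (P i ⧸ N i)) : C Q := by
  refine hC.colim ι (fun i => P i ⧸ N i)
    (fun i j h => QuotientGroup.map (N i) (N j) (r i j h) (fun x hx => hr i j h x hx)) Q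
    (fun i => QuotientGroup.lift (N i) (Φ i) (fun x hx => hN i x hx)) ?_ hG
  refine
    { nonempty := inferInstance
      directed := fun i j => exists_ge_ge i j
      map_id := ?_
      map_comp := ?_
      compat := ?_
      surj := ?_
      ker := ?_ }
  · intro i h x
    induction x using QuotientGroup.induction_on with
    | H x =>
      change ((r i i h x : P i) : P i ⧸ N i) = (x : P i ⧸ N i)
      rw [r_id]
  · intro i j k hij hjk hik x
    induction x using QuotientGroup.induction_on with
    | H x =>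
      change ((r j k hjk (r i j hij x) : P k) : P k ⧸ N k) = ((r i k hik x : P k) : P k ⧸ N k)
      rw [r_comp]
  · intro i j h x
    induction x using QuotientGroup.induction_on with
    | H x => exact compat i j h x
  · intro q
    obtain ⟨i, x, hx⟩ := surj q
    exact ⟨i, (x : P i ⧸ N i), hx⟩
  · intro i x
    induction x using QuotientGroup.induction_on with
    | H x =>
      intro hx
      obtain ⟨j, h, hj⟩ := die i x hx
      exact ⟨j, h, (QuotientGroup.eq_one_iff (r i j h x)).2 hj⟩

end Pool.Agent.H13.FG
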