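import Pool.Agent.H67.FG.Pro
import Pool.Agent.H3.Ac.Snd

/-!
# FG, module COH: decided values are the values at one common matching
-/

set_option autoImplicit false

namespace Pool.Agent.H13.FG

open Finset Pool.Agent.H3.Ac Pool.Agent.H3.Frg Pool.Agent.H67.FG

variable {W V : Type} [Fintype V] [DecidableEq V]

/-- a decided value at `π` is the value at every larger matching where the value is defined -/
theorem dec_val {w r : ℕ} {f : Finset (Sym2 V) → Option Bool} (hf : Val w r f) {π N : Finset (Sym2 V)}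
    (hN : IsM N) (hπ : π ⊆ N) {b : Bool} (h : dec w f π = some b) (hne : f N ≠ none) : f N = some b := by
  obtain ⟨c, hc⟩ := Option.ne_none_iff_exists'.1 hne
  obtain ⟨t, ht1, ht2, ht3⟩ := hf.wit N hN c hc
  have hcmp : Cmp t π := isM_sub hN (Finset.union_subset ht1 hπ)
  have htM : IsM t := isM_sub hN ht1
  rw [hc]
  congr 1
  unfold dec at h
  split_ifs at h with h1 h2
  · have hb : b = true := by simpa using h.symm
    subst hb
    by_contra hne'
    have : c = false := by simpa using hne'
    subst this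
    exact h1 t htM ht2 ht3 hcmp
  · have hb : b = false := by simpa using h.symm
    subst hb
    by_contra hne'
    have : c = true := by simpa using hne'
    subst this
    exact h2 t htM ht2 ht3 hcmp

/-- union of small parts -/
theorem exists_union {α : Type} [DecidableEq α] {w m : ℕ} {val : α → Finset (Sym2 V) → Option Bool}
    {M : Finset (Sym2 V)} {b : α → Bool} (l : List α)
    (h : ∀ A ∈ l, ∃ π : Finset (Sym2 V), π ⊆ M ∧ π.card ≤ m ∧ dec w (val A) π = some (b A)) :
    ∃ U : Finset (Sym2 V), U ⊆ M ∧ U.card ≤ l.length * m ∧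
      ∀ A ∈ l, ∃ π : Finset (Sym2 V), π ⊆ U ∧ dec w (val A) π = some (b A) := by
  induction l with
  | nil => exact ⟨∅, by simp, by simp, by simp⟩
  | cons A l ih =>
    obtain ⟨U, h1, h2, h3⟩ := ih fun B hB => h B (List.mem_cons_of_mem _ hB)
    obtain ⟨π, g1, g2, g3⟩ := h A List.mem_cons_self
    refine ⟨π ∪ U, Finset.union_subset g1 h1, ?_, ?_⟩
    · refine (Finset.card_union_le _ _).trans ?_
      rw [List.length_cons, Nat.add_mul]
      omega
    · intro B hB
      rcases List.mem_cons.1 hB with rfl | hB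
      · exact ⟨π, Finset.subset_union_left, g3⟩
      · obtain ⟨π', k1, k2⟩ := h3 B hB
        exact ⟨π', k1.trans Finset.subset_union_right, k2⟩

/-- decide the values of a list -/
theorem exists_dec {w r : ℕ} {val : Fm W → Finset (Sym2 V) → Option Bool} {S : Set (Fm W)}
    (hval : ∀ A ∈ S, Val w r (val A)) (l : List (Fm W)) (hS : ∀ A ∈ l, A ∈ S) {M : Finset (Sym2 V)}
    (hM : IsM M) (hc : 2 * (M.card + l.length * w) + r ≤ Fintype.card V) :
    ∃ N, IsM N ∧ M ⊆ N ∧ ∀ A ∈ l, val A N ≠ none := by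
  induction l generalizing M with
  | nil => exact ⟨M, hM, le_rfl, by simp⟩
  | cons A l ih =>
    rw [List.length_cons, Nat.add_mul] at hc
    obtain ⟨M', h1, h2, h3, h4⟩ := (hval A (hS A List.mem_cons_self)).tot M hM (by omega)
    obtain ⟨N, g1, g2, g3⟩ := ih (fun B hB => hS B (List.mem_cons_of_mem _ hB)) h1 (by omega)
    refine ⟨N, g1, h2.trans g2, fun B hB => ?_⟩
    rcases List.mem_cons.1 hB with rfl | hB
    · obtain ⟨c, hc'⟩ := Option.ne_none_iff_exists'.1 h4
      have := (hval B (hS B List.mem_cons_self)).mono M' N g1 g2 c hc'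
      rw [this]
      simp
    · exact g3 B hB

open scoped Classical in
/-- decided values of at most three formulas are the values at one matching -/
theorem common {w : ℕ} {val : Fm W → Finset (Sym2 V) → Option Bool} {S : Set (Fm W)}
    (hval : ∀ A ∈ S, Val w (8 * w) (val A)) (hL : 100 * (w + 1) ^ 2 ≤ Fintype.card V) (l : List (Fm W))
    (hl : l.length ≤ 3) (hS : ∀ A ∈ l, A ∈ S) {M : Finset (Sym2 V)} (hM : IsM M) (b : Fm W → Bool)
    (h : ∀ A ∈ l, run w (val A) M (w + 1) ∅ = some (b A)) : ∃ N, IsM N ∧ ∀ A ∈ l, val A N = some (b A) := by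
  obtain ⟨U, h1, h2, h3⟩ := exists_union (w := w) (m := (w + 1) * (2 * w)) (val := val) (M := M) (b := b) l
    (fun A hA => by
      obtain ⟨π, -, g2, g3, g4⟩ := run_spec hM (w + 1) ∅ (Finset.empty_subset _) (b A) (h A hA)
      exact ⟨π, g2, by simpa using g3, g4⟩)
  have hcard : U.card ≤ 3 * ((w + 1) * (2 * w)) := h2.trans (Nat.mul_le_mul_right _ hl)
  have hlw : l.length * w ≤ 3 * w := Nat.mul_le_mul_right _ hl
  obtain ⟨N, g1, g2, g3⟩ := exists_dec hval l hS (isM_sub hM h1) (by nlinarith)
  refine ⟨N, g1, fun A hA => ?_⟩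
  obtain ⟨π, k1, k2⟩ := h3 A hA
  exact dec_val (hval A (hS A hA)) g1 (k1.trans g2) k2 (g3 A hA)

end Pool.Agent.H13.FG
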