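import Pool.Agent.H13.BD.Words

/-!
# Systems with several permutations

`Z` is a set with permutations `T j`, `j : J`, and a colouring `c : Z → V`. Every `z : Z` carries the slots `0, 1, 2, …`
for tokens; `(z, i) : Z × ℕ` is a slot. `tau (T j) B` moves the token of the first slot of `z` to the first slot of
`T j z` if `T j z ∈ B`. `bp e` permutes the slots of `z` by `e z`. The local type of `z` is the colour of `z` and the
colours of all `T j z`. A label is a partial function from `J × Z` to the tokens; two labels are adjacent if they have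
no common tokens. `GG J Z` is the semidirect product of the right-angled Artin group on the labels and the permutations
of the tokens.
-/

set_option autoImplicit false

open Classical

namespace Pool.Agent.H13.FG

open Pool.Agent.H13.TFG Pool.Agent.H13.BD

/-! ## labels -/

/-- labels: partial functions from `J × Y` to the tokens. `Equiv.Perm (Y × ℕ)` acts on the labels by
`(h • S) b = h • S b` (Mathlib's pointwise instances). -/
abbrev Lab (J Y : Type) : Type := J × Y → Option (Y × ℕ)

/-- the two labels have no common tokens -/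
def Disj {J Y : Type} (S S' : Lab J Y) : Prop := ∀ b b' t, S b = some t → S' b' ≠ some t

theorem Disj.symm {J Y : Type} {S S' : Lab J Y} (h : Disj S S') : Disj S' S :=
  fun b b' t h1 h2 => h b' b t h2 h1

theorem Disj.smul {J Y : Type} {S S' : Lab J Y} (h : Disj S S') (g : Equiv.Perm (Y × ℕ)) :
    Disj (g • S) (g • S') := by
  intro b b' t h1 h2
  rw [Pi.smul_apply] at h1 h2
  cases hS : S b with
  | none => rw [hS] at h1; exact absurd h1 (by simp)
  | some u =>
    cases hS' : S' b' with
    | none => rw [hS'] at h2; exact absurd h2 (by simp)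
    | some u' =>
      rw [hS, Option.smul_some] at h1
      rw [hS', Option.smul_some] at h2
      have h3 : g • u = g • u' := Option.some.inj (h1.trans h2.symm)
      have h4 : u = u' := smul_left_cancel g h3
      exact h b b' u hS (by rw [hS', h4])

/-- the graph of the labels: labels without common tokens are adjacent -/
def tg (J Y : Type) : SimpleGraph (Lab J Y) where
  Adj S S' := S ≠ S' ∧ Disj S S'
  symm := ⟨fun _ _ h => ⟨h.1.symm, h.2.symm⟩⟩
  loopless := ⟨fun _ h => h.1 rfl⟩

theorem tg_smul (J Y : Type) (g : Equiv.Perm (Y × ℕ)) (S S' : Lab J Y) (h : (tg J Y).Adj S S') :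
    (tg J Y).Adj (g • S) (g • S') :=
  ⟨fun h1 => h.1 (smul_left_cancel g h1), h.2.smul g⟩

/-- the right-angled Artin group on the labels, extended by the permutations of the tokens -/
abbrev GG (J Y : Type) : Type :=
  RAAG (tg J Y) ⋊[raagAct (tg J Y) (Equiv.Perm (Y × ℕ)) (tg_smul J Y)] Equiv.Perm (Y × ℕ)

/-- the generator of a label; `1` for the empty label -/
noncomputable def g1 {J Y : Type} (S : Lab J Y) : RAAG (tg J Y) :=
  if ∀ b, S b = none then 1 else gen (tg J Y) S

theorem g1_comm {J Y : Type} {S S' : Lab J Y} (h : Disj S S') : g1 S * g1 S' = g1 S' * g1 S := by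
  unfold g1
  by_cases h1 : ∀ b, S b = none
  · rw [if_pos h1, one_mul, mul_one]
  · by_cases h2 : ∀ b, S' b = none
    · rw [if_pos h2, one_mul, mul_one]
    · rw [if_neg h1, if_neg h2]
      refine gen_comm ⟨?_, h⟩
      rintro rfl
      apply h1
      intro b
      cases hb : S b with
      | none => rfl
      | some t => exact absurd hb (h b b t hb)

theorem g1_act {J Y : Type} (g : Equiv.Perm (Y × ℕ)) (S : Lab J Y) :
    raagAct (tg J Y) (Equiv.Perm (Y × ℕ)) (tg_smul J Y) g (g1 S) = g1 (g • S) := by
  unfold g1
  have h : (∀ b, (g • S) b = none) ↔ ∀ b, S b = none := by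
    refine forall_congr' fun b => ?_
    rw [Pi.smul_apply]
    cases S b <;> simp
  by_cases h1 : ∀ b, S b = none
  · rw [if_pos h1, if_pos (h.2 h1), map_one]
  · rw [if_neg h1, if_neg (fun h2 => h1 (h.1 h2)), raagAct_gen]

/-- the label of the moves by `T j` to the elements of `B`, for the assignment `φ` of tokens -/
noncomputable def lb {J Y : Type} (j : J) (B : Set Y) (φ : Y → Y × ℕ) : Lab J Y :=
  fun b => if b.1 = j ∧ b.2 ∈ B then some (φ b.2) else none

theorem lb_eq_some {J Y : Type} {j : J} {B : Set Y} {φ : Y → Y × ℕ} {b : J × Y} {t : Y × ℕ} :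
    lb j B φ b = some t ↔ (b.1 = j ∧ b.2 ∈ B) ∧ φ b.2 = t := by
  unfold lb
  by_cases h : b.1 = j ∧ b.2 ∈ B <;> simp [h]

theorem smul_lb {J Y : Type} (g : Equiv.Perm (Y × ℕ)) (j : J) (B : Set Y) (φ : Y → Y × ℕ) :
    g • lb j B φ = lb j B (fun b => g (φ b)) := by
  funext b
  rw [Pi.smul_apply]
  unfold lb
  by_cases h : b.1 = j ∧ b.2 ∈ B
  · rw [if_pos h, if_pos h]
    rfl
  · rw [if_neg h, if_neg h]
    rfl

theorem lb_pw {J Y V : Type} (j : J) (c : Y → V) (φ : Y ↪ Y × ℕ) (s : Finset V) :
    (s : Set V).Pairwise (Function.onFun Commute fun k => g1 (lb j (c ⁻¹' {k}) φ)) := by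
  intro k _ k' _ hk
  refine g1_comm ?_
  intro b b' t h1 h2
  obtain ⟨hb, h3⟩ := lb_eq_some.1 h1
  obtain ⟨hb', h4⟩ := lb_eq_some.1 h2
  have h5 : b.2 = b'.2 := φ.injective (h3.trans h4.symm)
  apply hk
  rw [← (hb.2 : c b.2 = k), ← (hb'.2 : c b'.2 = k'), h5]

/-- The product of the generators of the labels of the colours in `A`, for `T j`, the colouring `c` and the injective
assignment `φ` of tokens. -/
noncomputable def LA {J Y V : Type} [Finite V] (j : J) (c : Y → V) (φ : Y ↪ Y × ℕ) (A : Set V) :
    RAAG (tg J Y) :=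
  (Set.toFinite A).toFinset.noncommProd (fun k => g1 (lb j (c ⁻¹' {k}) φ)) (lb_pw j c φ _)

/-! ## local types -/

/-- local types: the colour of `z` and the colours of `T j z` -/
abbrev Lt (J V : Type) : Type := V × (J → V)

/-- block permutations which depend on the local type -/
abbrev Bl (J V : Type) : Type := Lt J V → Equiv.Perm ℕ

/-- shift the block permutations of the local types in `r` -/
noncomputable def sh {J V : Type} (r : Lt J V → Prop) : Bl J V →* Bl J V where
  toFun e := fun l => if r l then up (e l) else e l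
  map_one' := by
    funext l
    by_cases h : r l <;> simp [h]
  map_mul' e e' := by
    funext l
    by_cases h : r l <;> simp [h]

theorem sh_pos {J V : Type} {r : Lt J V → Prop} {l : Lt J V} (h : r l) (e : Bl J V) :
    sh r e l = up (e l) := if_pos h

theorem sh_neg {J V : Type} {r : Lt J V → Prop} {l : Lt J V} (h : ¬ r l) (e : Bl J V) :
    sh r e l = e l := if_neg h

/-- local types of the elements which are mapped by `T j` into `A` -/
def inn {J V : Type} (j : J) (A : Set V) : Lt J V → Prop := fun l => l.2 j ∈ A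

/-- local types of the elements of `A` -/
def out {J V : Type} (A : Set V) : Lt J V → Prop := fun l => l.1 ∈ A

/-- swap the first two slots for the local types with `r` -/
noncomputable def sw {J V : Type} (r : Lt J V → Prop) : Bl J V :=
  fun l => if r l then Equiv.swap 0 1 else 1

theorem sw_pos {J V : Type} {r : Lt J V → Prop} {l : Lt J V} (h : r l) :
    sw r l = Equiv.swap 0 1 := if_pos h

theorem sw_neg {J V : Type} {r : Lt J V → Prop} {l : Lt J V} (h : ¬ r l) : sw r l = 1 := if_neg h

/-- the letter `t` of `T k` and the colours in `B`, twisted by `r` -/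
noncomputable def tw {J V G : Type} [Group G] (f : Bl J V →* G) (r : Lt J V → Prop) (k : J)
    (B : Set V) (t : G) : G :=
  f (sw (fun l => l.1 ∈ B ∧ r l)) * t * f (sw (fun l => l.2 k ∈ B ∧ r l))

/-- The relations between block permutations and token moves to one colour. -/
structure IsModel {J V : Type} (E : Lt J V → Prop) {G : Type} [Group G] (f : Bl J V →* G)
    (t : J → V → G) : Prop where
  rela : ∀ e : Bl J V, (∀ l, E l → e l = 1) → f e = 1
  relb : ∀ (j : J) (c : V) (e : Bl J V),
    t j c * f (sh (inn j {c}) e) = f (sh (out {c}) e) * t j c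
  relc : ∀ (j k : J) (c d : V),
    t j c * tw f (inn j {c}) k {d} (t k d) = tw f (out {c}) k {d} (t k d) * t j c
  reld : ∀ (j : J) (c : V), (∀ l, E l → l.1 ≠ c) → t j c = 1

/-- A system: a set with permutations and a colouring. -/
structure Sys (J V : Type) where
  Z : Type
  T : J → Equiv.Perm Z
  c : Z → V

namespace Sys

variable {J V V' : Type} (S : Sys J V)

/-- the local type of an element -/
def lt (z : S.Z) : Lt J V := (S.c z, fun j => S.c (S.T j z))

/-- the local types of the system -/
def Ty (l : Lt J V) : Prop := ∃ z, S.lt z = l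

/-- block permutations as permutations of the slots -/
def bF : Bl J V →* Equiv.Perm (S.Z × ℕ) :=
  bp.comp
    { toFun := fun e z => e (S.lt z)
      map_one' := rfl
      map_mul' := fun _ _ => rfl }

theorem bF_apply (e : Bl J V) (t : S.Z × ℕ) : S.bF e t = (t.1, e (S.lt t.1) t.2) := rfl

/-- token moves by `T j` to the colours in `A` -/
noncomputable def bT (j : J) (A : Set V) : Equiv.Perm (S.Z × ℕ) := tau (S.T j) (S.c ⁻¹' A)

/-- the token in the slot `(b, 0)` for the state `g` -/
def st (g : Equiv.Perm (S.Z × ℕ)) : S.Z ↪ S.Z × ℕ :=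
  ⟨fun b => g (b, 0), fun _ _ h => congrArg Prod.fst (g.injective h)⟩

@[simp] theorem st_apply (g : Equiv.Perm (S.Z × ℕ)) (b : S.Z) : S.st g b = g (b, 0) := rfl

/-- block permutations in `GG` -/
def F : Bl J V →* GG J S.Z := SemidirectProduct.inr.comp S.bF

/-- token moves in `GG` -/
noncomputable def t [Finite V] (j : J) (A : Set V) : GG J S.Z := ⟨LA j S.c (S.st 1) A, S.bT j A⟩

/-- change of the colours -/
def push (π : V → V') : Sys J V' where
  Z := S.Z
  T := S.T
  c := fun z => π (S.c z)

end Sys

/-! ## the free groups -/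

/-- generators: finitary block permutations and sets of colours -/
abbrev Gn (J V : Type) : Type := (Lt J V → Fin1) ⊕ (J × Set V)

/-- the free group -/
abbrev PP (J V : Type) : Type := FreeGroup (Gn J V)

/-- refinement of the local types -/
def ltm {J V V' : Type} (π : V' → V) (l : Lt J V') : Lt J V := (π l.1, fun j => π (l.2 j))

/-- refinement of the colours -/
def rf {J V V' : Type} (π : V' → V) : PP J V →* PP J V' :=
  FreeGroup.map (Sum.map (fun e l => e (ltm π l)) (fun p => (p.1, π ⁻¹' p.2)))

namespace Sys

variable {J V V' : Type} (S : Sys J V)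

/-- the permutation of the slots given by an element of the free group -/
noncomputable def Ph : PP J V →* Equiv.Perm (S.Z × ℕ) :=
  FreeGroup.lift (Sum.elim (fun e => S.bF (fun l => (e l : Equiv.Perm ℕ))) (fun p => S.bT p.1 p.2))

/-- the element of `GG` given by an element of the free group -/
noncomputable def ev [Finite V] : PP J V →* GG J S.Z :=
  FreeGroup.lift (Sum.elim (fun e => S.F (fun l => (e l : Equiv.Perm ℕ))) (fun p => S.t p.1 p.2))

end Sys

/-! ## words -/

/-- words `e₁ t₁^± e₂ t₂^± …` -/
abbrev Wd (J V : Type) : Type := List (Bl J V × (J × V) × Bool)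

section words

variable {J V G G' : Type} [Group G] [Group G'] (f : Bl J V →* G) (t : J → V → G)

/-- the value of a word -/
def vl (w : Wd J V) : G := (w.map fun x => f x.1 * sg (t x.2.1.1 x.2.1.2) x.2.2).prod

/-- the value of the shifted word -/
noncomputable def svl (r : Lt J V → Prop) (w : Wd J V) : G :=
  (w.map fun x => f (sh r x.1) *
    sg (tw f r x.2.1.1 {x.2.1.2} (t x.2.1.1 x.2.1.2)) x.2.2).prod

@[simp] theorem vl_nil : vl f t [] = 1 := rfl

@[simp] theorem vl_cons (x : Bl J V × (J × V) × Bool) (w : Wd J V) :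
    vl f t (x :: w) = f x.1 * sg (t x.2.1.1 x.2.1.2) x.2.2 * vl f t w := by
  simp [vl]

@[simp] theorem vl_append (w w' : Wd J V) : vl f t (w ++ w') = vl f t w * vl f t w' := by
  simp [vl]

@[simp] theorem svl_nil (r : Lt J V → Prop) : svl f t r [] = 1 := rfl

@[simp] theorem svl_cons (r : Lt J V → Prop) (x : Bl J V × (J × V) × Bool) (w : Wd J V) :
    svl f t r (x :: w) =
      f (sh r x.1) * sg (tw f r x.2.1.1 {x.2.1.2} (t x.2.1.1 x.2.1.2)) x.2.2 * svl f t r w := by
  simp [svl]

@[simp] theorem svl_append (r : Lt J V → Prop) (w w' : Wd J V) :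
    svl f t r (w ++ w') = svl f t r w * svl f t r w' := by
  simp [svl]

theorem map_vl (ev : G →* G') (f' : Bl J V →* G') (t' : J → V → G') (hf : ∀ e, ev (f e) = f' e)
    (ht : ∀ j c, ev (t j c) = t' j c) (w : Wd J V) : ev (vl f t w) = vl f' t' w := by
  induction w with
  | nil => simp
  | cons x w ih => rw [vl_cons, vl_cons, map_mul, map_mul, ih, hf, map_sg, ht]

theorem map_svl (ev : G →* G') (f' : Bl J V →* G') (t' : J → V → G') (hf : ∀ e, ev (f e) = f' e)
    (ht : ∀ j c, ev (t j c) = t' j c) (r : Lt J V → Prop) (w : Wd J V) :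
    ev (svl f t r w) = svl f' t' r w := by
  induction w with
  | nil => simp
  | cons x w ih =>
    rw [svl_cons, svl_cons, map_mul, map_mul, ih, hf, map_sg, tw, tw, map_mul, map_mul, hf, hf, ht]

end words

namespace Sys

variable {J V V' : Type} (S : Sys J V)

/-- the token move to one colour -/
noncomputable def bt (j : J) (c : V) : Equiv.Perm (S.Z × ℕ) := S.bT j {c}

/-- the local type of `z` is in `r` -/
def On (r : Lt J V → Prop) (z : S.Z) : Prop := r (S.lt z)

/-- The tokens `(z, 0)` for the `z` with local type in `r` are not moved to another element, when the word `w` is read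
after `a`. -/
def Avoid (r : Lt J V → Prop) (a : Bl J V) (w : Wd J V) : Prop :=
  ∀ (p : Wd J V) (x : Bl J V × (J × V) × Bool) (q : Wd J V), w = p ++ x :: q →
    ∀ b z : S.Z, S.c b = x.2.1.2 → S.On r z →
      (S.bF a * vl S.bF S.bt p * S.bF x.1)
        (if x.2.2 then (b, 0) else ((S.T x.2.1.1).symm b, 0)) ≠ (z, 0)

end Sys

/-! ## the free actions -/

/-- left multiplication by the generators -/
def fsh (Ω J : Type) (j : J) : Equiv.Perm (Ω × FreeGroup J) where
  toFun y := (y.1, FreeGroup.of j * y.2)
  invFun y := (y.1, (FreeGroup.of j)⁻¹ * y.2)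
  left_inv y := by simp
  right_inv y := by simp

@[simp] theorem fsh_apply {Ω J : Type} (j : J) (y : Ω × FreeGroup J) :
    fsh Ω J j y = (y.1, FreeGroup.of j * y.2) := rfl

@[simp] theorem fsh_symm_apply {Ω J : Type} (j : J) (y : Ω × FreeGroup J) :
    (fsh Ω J j).symm y = (y.1, (FreeGroup.of j)⁻¹ * y.2) := rfl

/-- the system `Ω × FreeGroup J` with the colouring `c` -/
def ysys {Ω J V : Type} (c : Ω × FreeGroup J → V) : Sys J V := ⟨Ω × FreeGroup J, fsh Ω J, c⟩

end Pool.Agent.H13.FG
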