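import Pool.Agent.H13.FG.Dye3

/-!
# Elements which die in the group of permutations of the slots die for a fine colouring
-/

set_option autoImplicit false

open Classical

namespace Pool.Agent.H13.FG

open Pool.Agent.H13.TFG Pool.Agent.H13.BD

/-- finitely many displacements, and high tokens are not moved -/
theorem dye_disp {J Ω V : Type} [Finite J] [Finite V] (c : Ω × FreeGroup J → V) (p : PP J V) :
    ∃ (R : Set (FreeGroup J)) (M : ℕ), R.Finite ∧ ∀ (y : Ω × FreeGroup J) (s : ℕ), ∃ k ∈ R,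
      (phy c p (y, s)).1 = (y.1, k * y.2) ∧ (M ≤ s → k = 1) := by
  obtain ⟨M, k, hk⟩ := flx p
  choose F hF using loc_fin c p
  refine ⟨insert 1 (⋃ s ∈ Finset.range M, ((F s).image Prod.fst : Set (FreeGroup J))), M, ?_, ?_⟩
  · refine Set.Finite.insert 1 ?_
    exact (Finset.range M).finite_toSet.biUnion fun s _ => Finset.finite_toSet _
  · intro y s
    by_cases hs : M ≤ s
    · obtain ⟨n', -, h1⟩ := hk (ysys c) y s hs
      refine ⟨1, Set.mem_insert _ _, ?_, fun _ => rfl⟩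
      have h2 : phy c p (y, s) = (y, n') := h1
      rw [h2, one_mul]
    · obtain ⟨x, hx, h1⟩ := hF s y
      refine ⟨x.1, Set.mem_insert_of_mem _ ?_, ?_, fun h => absurd h hs⟩
      · refine Set.mem_iUnion₂.2 ⟨s, Finset.mem_range.2 (not_le.1 hs), ?_⟩
        exact Finset.mem_coe.2 (Finset.mem_image_of_mem _ hx)
      · have h2 : phy c p (y, s) = ((y.1, x.1 * y.2), x.2) := h1
        rw [h2]

/-- bounded displacement, uniformly for the prefixes of a word -/
theorem dye_bound {J Ω V : Type} [Finite J] [Finite V] (c : Ω × FreeGroup J → V)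
    (L : List (Gn J V × Bool)) :
    ∃ (R : Set (FreeGroup J)) (M : ℕ), R.Finite ∧ ∀ L1 L2, L = L1 ++ L2 →
      ∀ (y : Ω × FreeGroup J) (s : ℕ), ∃ k ∈ R,
        ((phy c (FreeGroup.mk L1))⁻¹ (y, s)).1 = (y.1, k * y.2) ∧ (M ≤ s → k = 1) := by
  have h := fun L1 : List (Gn J V × Bool) => dye_disp c (FreeGroup.mk L1)⁻¹
  choose Rf Mf hfin hRM using h
  refine ⟨⋃ k ∈ Finset.range (L.length + 1), Rf (L.take k),
    ∑ k ∈ Finset.range (L.length + 1), Mf (L.take k),
    (Finset.range (L.length + 1)).finite_toSet.biUnion fun k _ => hfin _, ?_⟩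
  intro L1 L2 hL y s
  have h1 : L1 = L.take L1.length := by rw [hL, List.take_left']; rfl
  have h2 : L1.length ∈ Finset.range (L.length + 1) := by
    rw [Finset.mem_range, hL, List.length_append]
    omega
  have h5 : Mf L1 ≤ ∑ k ∈ Finset.range (L.length + 1), Mf (L.take k) := by
    have h4 := Finset.single_le_sum (f := fun k => Mf (L.take k)) (fun _ _ => Nat.zero_le _) h2
    rw [← h1] at h4
    exact h4
  obtain ⟨k, hk1, hk2, hk3⟩ := hRM L1 y s
  refine ⟨k, ?_, ?_, fun hs => hk3 (h5.trans hs)⟩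
  · refine Set.mem_iUnion₂.2 ⟨L1.length, h2, ?_⟩
    rw [← h1]
    exact hk1
  · rw [map_inv] at hk2
    exact hk2

theorem dye {J Ω V : Type} [Finite J] [Finite V] {𝓑 : Set (Set (Ω × FreeGroup J))}
    (hB : Alg (fsh Ω J) 𝓑) (c : Ω × FreeGroup J → V) (hc : ∀ v, c ⁻¹' {v} ∈ 𝓑) (p : PP J V)
    (hp : (ysys c).Ph p = 1) :
    ∃ (Q : Type) (_ : Finite Q) (q : Ω × FreeGroup J → Q), (∀ κ, q ⁻¹' {κ} ∈ 𝓑) ∧
      ∀ (V' : Type) [Finite V'] (c' : Ω × FreeGroup J → V') (π : V' → V),
        (∀ y, π (c' y) = c y) → (∀ y y', c' y = c' y' → q y = q y') →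
        (ysys c').ev (rf π p) = 1 := by
  obtain ⟨L, rfl⟩ := Quot.exists_rep p
  obtain ⟨R, M, hR, h1R, hRM⟩ : ∃ (R : Set (FreeGroup J)) (M : ℕ), R.Finite ∧ 1 ∈ R ∧
      ∀ L1 L2, L = L1 ++ L2 → ∀ (y : Ω × FreeGroup J) (s : ℕ), ∃ k ∈ R,
        ((phy c (FreeGroup.mk L1))⁻¹ (y, s)).1 = (y.1, k * y.2) ∧ (M ≤ s → k = 1) := by
    obtain ⟨R, M, hR, hRM⟩ := dye_bound c L
    refine ⟨insert 1 R, M, hR.insert 1, Set.mem_insert _ _, fun L1 L2 hL y s => ?_⟩
    obtain ⟨k, hk, h1⟩ := hRM L1 L2 hL y s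
    exact ⟨k, Set.mem_insert_of_mem _ hk, h1⟩
  have hRf : Finite R := hR.to_subtype
  have hpre : ∀ k : Fin (L.length + 1), L = L.take k ++ L.drop k := fun k =>
    (List.take_append_drop _ _).symm
  choose dis hdis1 hdis2 hdis3 using fun (k : Fin (L.length + 1)) => hRM _ _ (hpre k)
  let q0 : Ω × FreeGroup J → (Fin (L.length + 1) → Fin M → R) := fun y k s =>
    ⟨dis k y s, hdis1 k y s⟩
  let q1 : Ω × FreeGroup J → Set.range q0 := fun y => ⟨q0 y, y, rfl⟩
  have hq1 : Function.Surjective q1 := by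
    rintro ⟨_, y, rfl⟩
    exact ⟨y, rfl⟩
  -- the fibres of `q0` are in the algebra
  have hm0 : ∀ (k : Fin (L.length + 1)) (s : ℕ) (r : FreeGroup J), {y | dis k y s = r} ∈ 𝓑 := by
    intro k s r
    obtain ⟨F, hF⟩ := loc_fin c (FreeGroup.mk (L.take k))⁻¹ s
    have h1 : {y | dis k y s = r} = ⋃ x ∈ {x : FreeGroup J × ℕ | x ∈ F ∧ x.1 = r},
        {y | (ysys c).Ph (FreeGroup.mk (L.take k))⁻¹ (y, s) = ((y.1, x.1 * y.2), x.2)} := by
      ext y
      have h2 := hdis2 k y s
      rw [← map_inv] at h2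
      constructor
      · intro h3
        obtain ⟨x, hx, h4⟩ := hF y
        have h5 : phy c (FreeGroup.mk (L.take k))⁻¹ (y, s) = ((y.1, x.1 * y.2), x.2) := h4
        rw [h5] at h2
        have h6 := (Prod.mk.inj h2).2
        have h7 := mul_right_cancel h6
        exact Set.mem_iUnion₂.2 ⟨x, ⟨hx, h7.trans h3⟩, h4⟩
      · intro h3
        obtain ⟨x, ⟨-, h3⟩, h4⟩ := Set.mem_iUnion₂.1 h3
        have h5 : phy c (FreeGroup.mk (L.take k))⁻¹ (y, s) = ((y.1, x.1 * y.2), x.2) := h4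
        rw [h5] at h2
        have h6 := (Prod.mk.inj h2).2
        have h7 := mul_right_cancel h6
        exact h7.symm.trans h3
    rw [h1]
    refine hB.biUnion _ (F.finite_toSet.subset fun x hx => hx.1) _ fun x _ => ?_
    exact loc_alg hB c hc _ s x
  have hm1 : ∀ κ : Fin (L.length + 1) → Fin M → R, q0 ⁻¹' {κ} ∈ 𝓑 := by
    intro κ
    have h1 : q0 ⁻¹' {κ} = ⋂ k : Fin (L.length + 1), ⋂ s : Fin M,
        {y | dis k y s = (κ k s : FreeGroup J)} := by
      ext y
      simp only [Set.mem_preimage, Set.mem_singleton_iff, Set.mem_iInter, Set.mem_setOf_eq]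
      constructor
      · rintro rfl k s
        rfl
      · intro h2
        funext k s
        exact Subtype.ext (h2 k s)
    rw [h1]
    exact hB.iInter _ fun k => hB.iInter _ fun s => hm0 k s _
  refine ⟨R → Set.range q0, inferInstance,
    fun y m => q1 (y.1, (m : FreeGroup J)⁻¹ * y.2), ?_, ?_⟩
  · intro κ
    have h1 : (fun y (m : R) => q1 (y.1, (m : FreeGroup J)⁻¹ * y.2)) ⁻¹' {κ} =
        ⋂ m : R, (fun y : Ω × FreeGroup J => (y.1, (m : FreeGroup J)⁻¹ * y.2)) ⁻¹'
          (q0 ⁻¹' {(κ m).1}) := by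
      ext y
      simp only [Set.mem_preimage, Set.mem_singleton_iff, Set.mem_iInter]
      constructor
      · intro h2 m
        rw [← h2]
      · intro h2
        funext m
        exact Subtype.ext (h2 m)
    rw [h1]
    exact hB.iInter _ fun m => loc_pre hB _ _ (hm1 _)
  intro V' _ c' π hπ hq'
  obtain rfl : c = fun y => π (c' y) := funext fun y => (hπ y).symm
  have hr : ∀ m ∈ R, ∀ y y' : Ω × FreeGroup J, c' y = c' y' →
      q1 (y.1, m⁻¹ * y.2) = q1 (y'.1, m⁻¹ * y'.2) := by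
    intro m hm y y' h
    exact congrFun (hq' y y' h) ⟨m, hm⟩
  have hL : ∀ L1 L2, L = L1 ++ L2 →
      ∃ e, Tm q1 M R (phy (fun y => π (c' y)) (FreeGroup.mk L1)) e := by
    intro L1 L2 hL
    have h1 : L1 = L.take L1.length := by rw [hL, List.take_left']; rfl
    have h2 : L1.length < L.length + 1 := by
      rw [hL, List.length_append]
      omega
    let k : Fin (L.length + 1) := ⟨L1.length, h2⟩
    have hk : L.take k = L1 := h1.symm
    refine ⟨fun κ s => if h : s < M then ((κ.1 k ⟨s, h⟩ : R) : FreeGroup J) else 1,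
      ?_, ?_, ?_⟩
    · intro y s
      have h3 := hdis2 k y s
      rw [hk] at h3
      by_cases hs : s < M
      · rw [dif_pos hs]
        exact h3
      · rw [dif_neg hs, h3, hdis3 k y s (not_lt.1 hs)]
    · intro κ s
      by_cases hs : s < M
      · rw [dif_pos hs]
        exact (κ.1 k ⟨s, hs⟩).2
      · rw [dif_neg hs]
        exact h1R
    · intro κ s hs
      rw [dif_neg (not_lt.2 hs)]
  obtain ⟨e, he⟩ := hL L [] (List.append_nil L).symm
  have h1 := dye_left hq1 hr π L hL L [] (List.append_nil L).symm e he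
  have h2 : phy (fun y => π (c' y)) (FreeGroup.mk L) = 1 := hp
  have h3 : ∀ κ s, e κ s = 1 := by
    intro κ s
    obtain ⟨y, rfl⟩ := hq1 κ
    have h3 := he.loc y s
    rw [h2] at h3
    have h4 : y = (y.1, e (q1 y) s * y.2) := h3
    have h5 : y.2 = e (q1 y) s * y.2 := congrArg Prod.snd h4
    exact mul_eq_right.1 h5.symm
  rw [th_one h3, inv_one] at h1
  have h4 := evy_right c' π (FreeGroup.mk L)
  rw [h2] at h4
  exact SemidirectProduct.ext h1 h4

end Pool.Agent.H13.FG
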