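import Pool.Agent.H13.FG.LAx
import Pool.Agent.H13.BD.Dye1

/-!
# Potentials
-/

set_option autoImplicit false

open Classical

namespace Pool.Agent.H13.FG

open Pool.Agent.H13.TFG Pool.Agent.H13.BD

/-- the path from `1` to `m` in the tree -/
theorem exists_pot (J : Type) : ∃ pot : FreeGroup J → FreeGroup (J × FreeGroup J), pot 1 = 1 ∧
    ∀ j m, pot m = FreeGroup.of (j, m) * pot ((FreeGroup.of j)⁻¹ * m) := by
  let P : J → Equiv.Perm (FreeGroup J × FreeGroup (J × FreeGroup J)) := fun j =>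
    { toFun := fun x => (FreeGroup.of j * x.1, FreeGroup.of (j, FreeGroup.of j * x.1) * x.2)
      invFun := fun x => ((FreeGroup.of j)⁻¹ * x.1, (FreeGroup.of (j, x.1))⁻¹ * x.2)
      left_inv := fun x => by simp
      right_inv := fun x => by simp }
  let Θ : FreeGroup J →* Equiv.Perm (FreeGroup J × FreeGroup (J × FreeGroup J)) :=
    FreeGroup.lift P
  have h1 : ∀ h x, (Θ h x).1 = h * x.1 := by
    intro h
    induction h using FreeGroup.induction_on with
    | C1 => intro x; rw [map_one, one_mul]; rfl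
    | of j =>
      intro x
      have h2 : Θ (FreeGroup.of j) = P j := FreeGroup.lift_apply_of
      exact congrArg (fun p => (p x).1) h2
    | inv_of j _ =>
      intro x
      have h2 : Θ (FreeGroup.of j)⁻¹ = (P j)⁻¹ := by
        rw [map_inv]
        exact congrArg _ FreeGroup.lift_apply_of
      exact congrArg (fun p => (p x).1) h2
    | mul g h hg hh =>
      intro x
      rw [map_mul, Equiv.Perm.mul_apply, hg, hh, mul_assoc]
  refine ⟨fun h => (Θ h (1, 1)).2, ?_, ?_⟩
  · show (Θ 1 (1, 1)).2 = 1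
    rw [map_one]
    rfl
  · intro j m
    show (Θ m (1, 1)).2 = FreeGroup.of (j, m) * (Θ ((FreeGroup.of j)⁻¹ * m) (1, 1)).2
    have h2 : Θ (FreeGroup.of j) = P j := FreeGroup.lift_apply_of
    have h3 : m = FreeGroup.of j * ((FreeGroup.of j)⁻¹ * m) := by rw [mul_inv_cancel_left]
    have h4 : Θ m (1, 1) = P j (Θ ((FreeGroup.of j)⁻¹ * m) (1, 1)) := by
      conv_lhs => rw [h3]
      rw [map_mul, Equiv.Perm.mul_apply, h2]
    rw [h4]
    show FreeGroup.of (j, FreeGroup.of j * (Θ ((FreeGroup.of j)⁻¹ * m) (1, 1)).1) *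
      (Θ ((FreeGroup.of j)⁻¹ * m) (1, 1)).2 = _
    rw [h1]
    show FreeGroup.of (j, FreeGroup.of j * ((FreeGroup.of j)⁻¹ * m * 1)) * _ = _
    rw [mul_one, mul_inv_cancel_left]

/-- the path from `1` to `m` in the tree -/
noncomputable def pot {J : Type} : FreeGroup J → FreeGroup (J × FreeGroup J) :=
  (exists_pot J).choose

theorem pot_one {J : Type} : pot (1 : FreeGroup J) = 1 := (exists_pot J).choose_spec.1

theorem pot_eq {J : Type} (j : J) (m : FreeGroup J) :
    pot m = FreeGroup.of (j, m) * pot ((FreeGroup.of j)⁻¹ * m) :=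
  (exists_pot J).choose_spec.2 j m

variable {J Ω V Q : Type} [Finite V] (c : Ω × FreeGroup J → V) (q : Ω × FreeGroup J → Q)

/-- the colours of the `b` whose translate `m⁻¹ * b` has the type `κ` -/
def Bm (κ : Q) (m : FreeGroup J) : Set V :=
  {k | (∃ b, c b = k) ∧ ∀ b : Ω × FreeGroup J, c b = k → q (b.1, m⁻¹ * b.2) = κ}

/-- the token `(m⁻¹ * b, s)` for `b` -/
def ph (Ω : Type) (m : FreeGroup J) (s : ℕ) : Ω × FreeGroup J ↪ (Ω × FreeGroup J) × ℕ :=
  ⟨fun b => ((b.1, m⁻¹ * b.2), s), fun a b h => by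
    have h1 : (a.1, m⁻¹ * a.2) = (b.1, m⁻¹ * b.2) := congrArg Prod.fst h
    have h2 := Prod.mk.inj h1
    exact Prod.ext h2.1 (mul_left_cancel h2.2)⟩

/-- the crossing of an edge by the tokens `(y, s)`, `y` of type `κ` -/
noncomputable def Um (κ : Q) (s : ℕ) (x : J × FreeGroup J) : RAAG (tg J (Ω × FreeGroup J)) :=
  LA x.1 c (ph Ω x.2 s) (Bm c q κ x.2)

theorem Um_commute (κ κ' : Q) (s s' : ℕ) (h : (κ, s) ≠ (κ', s')) (x x' : J × FreeGroup J) :
    Commute (Um c q κ s x) (Um c q κ' s' x') := by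
  apply LA_comm
  intro b b' hb hb' h1
  have h2 : (b.1, x.2⁻¹ * b.2) = (b'.1, x'.2⁻¹ * b'.2) := congrArg Prod.fst h1
  have h3 : s = s' := congrArg Prod.snd h1
  have h4 : κ = κ' := by
    rw [← hb.2 b rfl, ← hb'.2 b' rfl, h2]
  exact h (by rw [h3, h4])

/-- the homomorphism given by the crossings -/
noncomputable def chi [Finite Q] (M : ℕ) :
    ((Q × Fin M) → FreeGroup (J × FreeGroup J)) →* RAAG (tg J (Ω × FreeGroup J)) :=
  letI := Fintype.ofFinite (Q × Fin M)
  MonoidHom.noncommPiCoprod (fun i : Q × Fin M => FreeGroup.lift (Um c q i.1 i.2)) (by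
    intro i j hij x y
    apply lift_commute
    intro m m'
    apply Um_commute
    intro h
    apply hij
    have h1 := Prod.mk.inj h
    exact Prod.ext h1.1 (Fin.ext h1.2))

theorem chi_single [Finite Q] (M : ℕ) (i : Q × Fin M) (x : FreeGroup (J × FreeGroup J)) :
    chi c q M (Pi.mulSingle i x) = FreeGroup.lift (Um c q i.1 i.2) x := by
  let _ := Fintype.ofFinite (Q × Fin M)
  exact MonoidHom.noncommPiCoprod_mulSingle
    (N := fun _ : Q × Fin M => FreeGroup (J × FreeGroup J))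
    (ϕ := fun i : Q × Fin M => FreeGroup.lift (Um c q i.1 i.2)) i x

/-- the potential of the displacements `e` -/
noncomputable def Th [Finite Q] (M : ℕ) (e : Q → ℕ → FreeGroup J) :
    RAAG (tg J (Ω × FreeGroup J)) :=
  chi c q M (fun i => pot (e i.1 i.2))

/-- `e` describes the displacements of the tokens in the state `g` -/
structure Tm (M : ℕ) (R : Set (FreeGroup J)) (g : Equiv.Perm ((Ω × FreeGroup J) × ℕ))
    (e : Q → ℕ → FreeGroup J) : Prop where
  loc : ∀ y s, (g⁻¹ (y, s)).1 = (y.1, e (q y) s * y.2)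
  bd : ∀ κ s, e κ s ∈ R
  hi : ∀ κ s, M ≤ s → e κ s = 1

variable {c q}

/-- the displacements of `g` and `g * tau _ B`: if they differ then the token was in the first slot of an element
of `B` -/
theorem tm_step {M : ℕ} {R : Set (FreeGroup J)} {g : Equiv.Perm ((Ω × FreeGroup J) × ℕ)}
    {j : J} {B : Set (Ω × FreeGroup J)} {e e' : Q → ℕ → FreeGroup J} (h : Tm q M R g e)
    (h' : Tm q M R (g * tau (fsh Ω J j) B) e') (y : Ω × FreeGroup J) (s : ℕ) :
    e' (q y) s = e (q y) s ∨ (e' (q y) s = (FreeGroup.of j)⁻¹ * e (q y) s ∧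
      g ((y.1, e (q y) s * y.2), 0) = (y, s) ∧ (y.1, e (q y) s * y.2) ∈ B) := by
  have h1 := h.loc y s
  have h2 := h'.loc y s
  rw [mul_inv_rev, Equiv.Perm.mul_apply] at h2
  obtain ⟨b, n, hbn⟩ : ∃ b n, g⁻¹ (y, s) = (b, n) := ⟨_, _, rfl⟩
  rw [hbn] at h1 h2
  change b = _ at h1
  rw [tau_inv_apply] at h2
  by_cases h3 : b ∈ B ∧ n = 0
  · right
    rw [if_pos h3] at h2
    have h4 : (fsh Ω J j).symm b = (y.1, e' (q y) s * y.2) := h2
    rw [fsh_symm_apply, h1] at h4
    have h5 := (Prod.mk.inj h4).2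
    refine ⟨?_, ?_, ?_⟩
    · have h6 : (FreeGroup.of j)⁻¹ * (e (q y) s * y.2) = e' (q y) s * y.2 := h5
      rw [← mul_assoc] at h6
      exact (mul_right_cancel h6).symm
    · rw [← h1]
      have h6 : g (b, n) = (y, s) := by
        rw [← hbn]
        exact g.apply_symm_apply _
      rw [h3.2] at h6
      exact h6
    · rw [← h1]
      exact h3.1
  · left
    rw [if_neg h3] at h2
    have h4 : b = (y.1, e' (q y) s * y.2) := h2
    rw [h1] at h4
    have h5 := (Prod.mk.inj h4).2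
    exact (mul_right_cancel h5).symm

end Pool.Agent.H13.FG
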