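import Pool.Agent.H13.FG.Dye1

/-!
# The step lemma for potentials
-/

set_option autoImplicit false

open Classical

namespace Pool.Agent.H13.FG

open Pool.Agent.H13.TFG Pool.Agent.H13.BD

variable {J Ω V Q : Type} [Finite V] {c : Ω × FreeGroup J → V} {q : Ω × FreeGroup J → Q}

theorem of_inv_mul_ne {J : Type} (j : J) (m : FreeGroup J) : (FreeGroup.of j)⁻¹ * m ≠ m := by
  intro h
  have h1 : (FreeGroup.of j)⁻¹ = 1 := mul_eq_right.1 h
  exact FreeGroup.of_ne_one j (inv_eq_one.1 h1)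

omit [Finite V] in
/-- the tokens which cross an edge with colour in `Bm c q κ m` -/
theorem cross_aux {M : ℕ} {R : Set (FreeGroup J)} {g : Equiv.Perm ((Ω × FreeGroup J) × ℕ)}
    {j : J} {A : Set V} {e e' : Q → ℕ → FreeGroup J} (h : Tm q M R g e)
    (h' : Tm q M R (g * tau (fsh Ω J j) (c ⁻¹' A)) e') {κ : Q} {s : ℕ}
    (hm : e' κ s = (FreeGroup.of j)⁻¹ * e κ s)
    {b : Ω × FreeGroup J} (hb : c b ∈ Bm c q κ (e κ s)) :
    g (b, 0) = ((b.1, (e κ s)⁻¹ * b.2), s) ∧ c b ∈ A := by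
  have h1 : q (b.1, (e κ s)⁻¹ * b.2) = κ := hb.2 b rfl
  have h2 := tm_step h h' (b.1, (e κ s)⁻¹ * b.2) s
  rw [h1] at h2
  rcases h2 with h2 | ⟨-, h2, h3⟩
  · rw [hm] at h2
    exact absurd h2 (of_inv_mul_ne j _)
  · have h4 : ((b.1, e κ s * ((e κ s)⁻¹ * b.2)) : Ω × FreeGroup J) = b := by
      rw [mul_inv_cancel_left]
    change g ((b.1, e κ s * ((e κ s)⁻¹ * b.2)), 0) = _ at h2
    change ((b.1, e κ s * ((e κ s)⁻¹ * b.2)) : Ω × FreeGroup J) ∈ _ at h3
    rw [h4] at h2 h3
    exact ⟨h2, h3⟩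

theorem th_step [Finite Q] (hq : Function.Surjective q) {M : ℕ} {R : Set (FreeGroup J)}
    (hr : ∀ m ∈ R, ∀ y y' : Ω × FreeGroup J, c y = c y' →
      q (y.1, m⁻¹ * y.2) = q (y'.1, m⁻¹ * y'.2))
    {g : Equiv.Perm ((Ω × FreeGroup J) × ℕ)} {j : J} {A : Set V} {e e' : Q → ℕ → FreeGroup J}
    (h : Tm q M R g e)
    (h' : Tm q M R (g * tau (fsh Ω J j) (c ⁻¹' A)) e')
    (φ : Ω × FreeGroup J ↪ (Ω × FreeGroup J) × ℕ) (hφ : ∀ b, φ b = g (b, 0)) :
    LA j c φ A = Th c q M e * (Th c q M e')⁻¹ := by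
  have hmv : ∀ i : Q × Fin M, e' i.1 i.2 = e i.1 i.2 ∨
      e' i.1 i.2 = (FreeGroup.of j)⁻¹ * e i.1 i.2 := by
    intro i
    obtain ⟨y, hy⟩ := hq i.1
    rw [← hy]
    rcases tm_step h h' y i.2 with h1 | ⟨h1, -⟩
    · exact Or.inl h1
    · exact Or.inr h1
  let _ : Fintype (Q × Fin M) := Fintype.ofFinite _
  let Mv : Finset (Q × Fin M) :=
    Finset.univ.filter (fun i => e' i.1 i.2 = (FreeGroup.of j)⁻¹ * e i.1 i.2)
  have hMv : ∀ i, i ∈ Mv ↔ e' i.1 i.2 = (FreeGroup.of j)⁻¹ * e i.1 i.2 := fun i => by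
    simp [Mv]
  -- the union over a set of moved indices
  have hind : ∀ S : Finset (Q × Fin M), S ⊆ Mv →
      chi c q M (fun i => if i ∈ S then FreeGroup.of (j, e i.1 i.2) else 1) =
        LA j c φ (⋃ i ∈ S, Bm c q i.1 (e i.1 i.2)) := by
    intro S
    induction S using Finset.induction_on with
    | empty =>
      intro _
      have h1 : (fun i : Q × Fin M => if i ∈ (∅ : Finset (Q × Fin M)) then
          FreeGroup.of (j, e i.1 i.2) else (1 : FreeGroup (J × FreeGroup J))) = 1 := by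
        funext i
        simp
      rw [h1, map_one]
      simp [LA_empty]
    | insert i S hi ih =>
      intro hS
      have hiM : i ∈ Mv := hS (Finset.mem_insert_self i S)
      have hSM : S ⊆ Mv := fun j hj => hS (Finset.mem_insert_of_mem hj)
      have h1 : (fun k : Q × Fin M => if k ∈ insert i S then FreeGroup.of (j, e k.1 k.2)
          else (1 : FreeGroup (J × FreeGroup J))) =
            Pi.mulSingle i (FreeGroup.of (j, e i.1 i.2)) *
            (fun k => if k ∈ S then FreeGroup.of (j, e k.1 k.2) else 1) := by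
        funext k
        rw [Pi.mul_apply]
        by_cases hk : k = i
        · subst hk
          rw [Pi.mulSingle_eq_same, if_neg hi, if_pos (Finset.mem_insert_self _ _), mul_one]
        · rw [Pi.mulSingle_eq_of_ne hk, one_mul]
          simp [Finset.mem_insert, hk]
      rw [h1, map_mul, chi_single, FreeGroup.lift_apply_of, ih hSM]
      have h2 : (⋃ k ∈ insert i S, Bm c q k.1 (e k.1 k.2)) =
          Bm c q i.1 (e i.1 i.2) ∪ ⋃ k ∈ S, Bm c q k.1 (e k.1 k.2) := by
        rw [Finset.set_biUnion_insert]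
      have h3 : Disjoint (Bm c q i.1 (e i.1 i.2)) (⋃ k ∈ S, Bm c q k.1 (e k.1 k.2)) := by
        rw [Set.disjoint_left]
        intro k hk hk2
        obtain ⟨l, hl, hk3⟩ := Set.mem_iUnion₂.1 hk2
        obtain ⟨b, rfl⟩ := hk.1
        have h4 := (cross_aux h h' ((hMv i).1 hiM) hk).1
        have h5 := (cross_aux h h' ((hMv l).1 (hSM hl)) hk3).1
        rw [h4] at h5
        have h6 := Prod.mk.inj h5
        apply hi
        have h7 : i = l := by
          refine Prod.ext ?_ (Fin.ext h6.2)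
          rw [← hk.2 b rfl, ← hk3.2 b rfl, h6.1]
        rw [h7]
        exact hl
      rw [h2, LA_union j c φ _ _ h3]
      have h4 : Um c q i.1 i.2 (j, e i.1 i.2) = LA j c φ (Bm c q i.1 (e i.1 i.2)) := by
        apply LA_congr
        intro b hb
        rw [hφ, (cross_aux h h' ((hMv i).1 hiM) hb).1]
        rfl
      rw [h4]
  -- the union over all moved indices is `A`
  have hA : LA j c φ A = LA j c φ (⋃ i ∈ Mv, Bm c q i.1 (e i.1 i.2)) := by
    apply LA_used
    intro b
    constructor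
    · intro hb
      obtain ⟨y, s, hys⟩ : ∃ y s, g (b, 0) = (y, s) := ⟨_, _, rfl⟩
      have h1 : g⁻¹ (y, s) = (b, 0) := by
        rw [← hys]
        exact g.symm_apply_apply _
      have h2 := h.loc y s
      rw [h1] at h2
      change b = _ at h2
      have h3 := h'.loc y s
      rw [mul_inv_rev, Equiv.Perm.mul_apply, h1, tau_inv_apply, if_pos ⟨hb, rfl⟩] at h3
      change (fsh Ω J j).symm b = _ at h3
      rw [fsh_symm_apply] at h3
      have h4 := Prod.mk.inj h3
      have h5 : b.2 = e (q y) s * y.2 := by rw [h2]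
      have h5' : b.1 = y.1 := by rw [h2]
      have h6 : e' (q y) s = (FreeGroup.of j)⁻¹ * e (q y) s := by
        have h7 := h4.2
        rw [h5, ← mul_assoc] at h7
        exact (mul_right_cancel h7).symm
      have h7 : s < M := by
        by_contra h8
        have h9 := h.hi (q y) s (not_lt.1 h8)
        have h10 := h'.hi (q y) s (not_lt.1 h8)
        rw [h6] at h10
        rw [← h9] at h10
        exact of_inv_mul_ne j _ h10
      refine Set.mem_iUnion₂.2 ⟨(q y, ⟨s, h7⟩), (hMv _).2 h6, ⟨b, rfl⟩, ?_⟩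
      intro b' hb'
      change q (b'.1, (e (q y) s)⁻¹ * b'.2) = q y
      rw [hr (e (q y) s) (h.bd _ _) b' b hb']
      congr 1
      refine Prod.ext h5' ?_
      change (e (q y) s)⁻¹ * b.2 = y.2
      rw [h5, inv_mul_cancel_left]
    · intro hb
      obtain ⟨i, hi, hb2⟩ := Set.mem_iUnion₂.1 hb
      exact (cross_aux h h' ((hMv i).1 hi) hb2).2
  rw [hA, ← hind Mv (Finset.Subset.refl _), Th, Th, ← map_inv, ← map_mul]
  congr 1
  funext i
  rw [Pi.mul_apply, Pi.inv_apply]
  by_cases hi : i ∈ Mv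
  · rw [if_pos hi, (hMv i).1 hi, pot_eq j (e i.1 i.2), mul_inv_cancel_right]
  · rw [if_neg hi]
    rcases hmv i with h1 | h1
    · rw [h1, mul_inv_cancel]
    · exact absurd ((hMv i).2 h1) hi

end Pool.Agent.H13.FG
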