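import Pool.Agent.H13.FG.Dye2
import Pool.Agent.H13.FG.Loc

/-!
# The left part of the evaluation is given by the potential
-/

set_option autoImplicit false

open Classical

namespace Pool.Agent.H13.FG

open Pool.Agent.H13.TFG Pool.Agent.H13.BD

/-- the action -/
noncomputable abbrev ac (J Y : Type) : Equiv.Perm (Y × ℕ) →* MulAut (RAAG (tg J Y)) :=
  raagAct (tg J Y) (Equiv.Perm (Y × ℕ)) (tg_smul J Y)

/-- the permutations of the slots -/
noncomputable def phy {Ω J V : Type} (c : Ω × FreeGroup J → V) :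
    PP J V →* Equiv.Perm ((Ω × FreeGroup J) × ℕ) :=
  (ysys c).Ph

/-- the evaluation -/
noncomputable def evy {Ω J V : Type} [Finite V] (c : Ω × FreeGroup J → V) :
    PP J V →* GG J (Ω × FreeGroup J) :=
  (ysys c).ev

/-- the first token of each element, in the state `g` -/
def sty {Ω J : Type} (g : Equiv.Perm ((Ω × FreeGroup J) × ℕ)) :
    Ω × FreeGroup J ↪ (Ω × FreeGroup J) × ℕ :=
  ⟨fun b => g (b, 0), fun _ _ h => congrArg Prod.fst (g.injective h)⟩

section basic

variable {Ω J V V' : Type}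

theorem phy_inl (c : Ω × FreeGroup J → V) (a : Lt J V → Fin1) (t : (Ω × FreeGroup J) × ℕ) :
    (phy c (FreeGroup.of (Sum.inl a)) t).1 = t.1 := by
  have h : phy c (FreeGroup.of (Sum.inl a)) = (ysys c).bF (fun l => (a l : Equiv.Perm ℕ)) :=
    loc_Ph_inl (ysys c) a
  rw [h]
  rfl

theorem phy_inr (c : Ω × FreeGroup J → V) (p : J × Set V) :
    phy c (FreeGroup.of (Sum.inr p)) = tau (fsh Ω J p.1) (c ⁻¹' p.2) := loc_Ph_inr (ysys c) p

theorem evy_inl [Finite V] (c : Ω × FreeGroup J → V) (a : Lt J V → Fin1) :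
    ∃ e : Equiv.Perm ((Ω × FreeGroup J) × ℕ), evy c (FreeGroup.of (Sum.inl a)) =
      SemidirectProduct.inr e :=
  ⟨(ysys c).bF (fun l => (a l : Equiv.Perm ℕ)), loc_ev_inl (ysys c) a⟩

theorem evy_inr [Finite V] (c : Ω × FreeGroup J → V) (p : J × Set V) :
    evy c (FreeGroup.of (Sum.inr p)) =
      ⟨LA p.1 c (sty 1) p.2, tau (fsh Ω J p.1) (c ⁻¹' p.2)⟩ := loc_ev_inr (ysys c) p

theorem evy_right [Finite V'] (c' : Ω × FreeGroup J → V') (π : V' → V) (p : PP J V) :
    (evy c' (rf π p)).right = phy (fun y => π (c' y)) p := by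
  have h1 : (evy c' (rf π p)).right = (ysys c').Ph (rf π p) := ev_right _ _
  rw [h1, Ph_rf]
  rfl

theorem mk_single {A : Type} (a : A) (ε : Bool) :
    FreeGroup.mk [(a, ε)] = sg (FreeGroup.of a) ε := by
  cases ε <;> rfl

end basic

variable {Ω J V' Q : Type} [Finite V'] [Finite Q] {c' : Ω × FreeGroup J → V'}
  {q : Ω × FreeGroup J → Q}

theorem th_congr {M : ℕ} {e e' : Q → ℕ → FreeGroup J} (h : ∀ κ s, e' κ s = e κ s) :
    Th c' q M e' = Th c' q M e := by
  have h1 : e' = e := by
    funext κ s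
    exact h κ s
  rw [h1]

theorem th_one {M : ℕ} {e : Q → ℕ → FreeGroup J} (h : ∀ κ s, e κ s = 1) : Th c' q M e = 1 := by
  unfold Th
  have h1 : (fun i : Q × Fin M => pot (e i.1 i.2)) = 1 := by
    funext i
    rw [h, pot_one]
    rfl
  rw [h1, map_one]

theorem ac_LA (g h : Equiv.Perm ((Ω × FreeGroup J) × ℕ)) (j : J) (A : Set V') :
    ac J (Ω × FreeGroup J) g (LA j c' (sty h) A) = LA j c' (sty (g * h)) A := by
  have h1 := LA_act j c' (sty h) g A
  exact h1

theorem dye_left (hq : Function.Surjective q) {M : ℕ} {R : Set (FreeGroup J)}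
    (hr : ∀ m ∈ R, ∀ y y' : Ω × FreeGroup J, c' y = c' y' →
      q (y.1, m⁻¹ * y.2) = q (y'.1, m⁻¹ * y'.2))
    {V : Type} (π : V' → V) (L : List (Gn J V × Bool))
    (hL : ∀ L1 L2, L = L1 ++ L2 →
      ∃ e, Tm q M R (phy (fun y => π (c' y)) (FreeGroup.mk L1)) e) (L1 : List (Gn J V × Bool)) :
    ∀ (L2 : List (Gn J V × Bool)), L = L1 ++ L2 → ∀ e,
      Tm q M R (phy (fun y => π (c' y)) (FreeGroup.mk L1)) e →
      (evy c' (rf π (FreeGroup.mk L1))).left = (Th c' q M e)⁻¹ := by
  induction L1 using List.reverseRecOn with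
  | nil =>
    intro L2 _ e he
    have h1 : (FreeGroup.mk [] : PP J V) = 1 := rfl
    have h2 : ∀ κ s, e κ s = 1 := by
      intro κ s
      obtain ⟨y, rfl⟩ := hq κ
      have h3 := he.loc y s
      rw [h1, map_one] at h3
      have h4 : y = (y.1, e (q y) s * y.2) := h3
      have h5 : y.2 = e (q y) s * y.2 := congrArg Prod.snd h4
      exact mul_eq_right.1 h5.symm
    rw [h1, map_one, map_one, th_one h2, inv_one]
    rfl
  | append_singleton L1 x ih =>
    intro L2 hL2 e' he'
    rw [List.append_assoc] at hL2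
    obtain ⟨e, he⟩ := hL L1 ([x] ++ L2) hL2
    have ih' := ih ([x] ++ L2) hL2 e he
    have h1 : (FreeGroup.mk (L1 ++ [x]) : PP J V) = FreeGroup.mk L1 * FreeGroup.mk [x] := by
      rw [FreeGroup.mul_mk]
    rw [h1, map_mul] at he'
    rw [h1, map_mul, map_mul, SemidirectProduct.mul_left, evy_right, ih']
    obtain ⟨a, ε⟩ := x
    rw [mk_single] at he' ⊢
    rw [map_sg] at he'
    rw [map_sg, map_sg]
    generalize phy (fun y => π (c' y)) (FreeGroup.mk L1) = g at he he' ⊢
    rcases a with a | ⟨j, A⟩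
    · -- a block permutation
      have h2 : ∀ κ s, e' κ s = e κ s := by
        intro κ s
        obtain ⟨y, rfl⟩ := hq κ
        have h3 := he.loc y s
        have h4 := he'.loc y s
        rw [mul_inv_rev, Equiv.Perm.mul_apply] at h4
        have h5 : ∀ t : (Ω × FreeGroup J) × ℕ,
            ((sg (phy (fun y => π (c' y)) (FreeGroup.of (Sum.inl a))) ε)⁻¹ t).1 = t.1 := by
          intro t
          have h6 := phy_inl (fun y => π (c' y)) a
          cases ε with
          | true =>
            rw [sg_true]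
            have h7 := h6 ((phy (fun y => π (c' y)) (FreeGroup.of (Sum.inl a)))⁻¹ t)
            rw [← Equiv.Perm.mul_apply, mul_inv_cancel] at h7
            exact h7.symm
          | false =>
            rw [sg_false, inv_inv]
            exact h6 t
        rw [h5, h3] at h4
        have h6 := (Prod.mk.inj h4).2
        exact (mul_right_cancel h6).symm
      have h3 : (sg (evy c' (rf π (FreeGroup.of (Sum.inl a)))) ε).left = 1 := by
        have h4 : rf π (FreeGroup.of (Sum.inl a)) =
            FreeGroup.of (Sum.inl (fun l => a (ltm π l))) := rfl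
        obtain ⟨u, hu⟩ := evy_inl c' (fun l => a (ltm π l))
        rw [h4, hu]
        cases ε with
        | true => rfl
        | false =>
          rw [sg_false, ← map_inv]
          rfl
      rw [h3, map_one, mul_one, th_congr h2]
    · -- a token move
      have h4 : rf π (FreeGroup.of (Sum.inr (j, A))) =
          FreeGroup.of (Sum.inr (j, π ⁻¹' A)) := rfl
      rw [h4, evy_inr]
      rw [phy_inr] at he'
      have h5 : (fun y => π (c' y)) ⁻¹' A = c' ⁻¹' (π ⁻¹' A) := rfl
      change Tm q M R (g * sg (tau (fsh Ω J j) (c' ⁻¹' (π ⁻¹' A))) ε) e' at he'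
      cases ε with
      | true =>
        rw [sg_true] at he' ⊢
        change (Th c' q M e)⁻¹ * ac J (Ω × FreeGroup J) g (LA j c' (sty 1) (π ⁻¹' A)) = _
        rw [ac_LA, mul_one, th_step hq hr he he' (sty g) (fun _ => rfl), inv_mul_cancel_left]
      | false =>
        rw [sg_false] at he' ⊢
        rw [SemidirectProduct.inv_left]
        change (Th c' q M e)⁻¹ * ac J (Ω × FreeGroup J) g
          (ac J (Ω × FreeGroup J) (tau (fsh Ω J j) (c' ⁻¹' (π ⁻¹' A)))⁻¹
          (LA j c' (sty 1) (π ⁻¹' A))⁻¹) = _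
        have he2 : Tm q M R (g * (tau (fsh Ω J j) (c' ⁻¹' (π ⁻¹' A)))⁻¹ *
            tau (fsh Ω J j) (c' ⁻¹' (π ⁻¹' A))) e := by
          rw [inv_mul_cancel_right]
          exact he
        rw [map_inv, map_inv, ac_LA, ac_LA, mul_one,
          th_step hq hr he' he2 (sty _) (fun _ => rfl), mul_inv_rev, inv_inv,
          inv_mul_cancel_left]

end Pool.Agent.H13.FG
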