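import Pool.Agent.H13.FG.Top

/-!
# Topologically free actions, measures
-/

set_option autoImplicit false

open Classical

namespace Pool.Agent.H13.FG

open MeasureTheory

section

variable {X Γ H : Type} [TopologicalSpace X] [Group Γ] [MulAction Γ X]
  [ContinuousConstSMul Γ X] [Group H] [MulAction H X] (s : H → X → Γ)

/-- Proof. `u x := (s (g * h) x)⁻¹ * (s g (h • x) * s h x)` is locally constant (`h • x = s h x • x` is continuous in `x`: near a
point `s h` is constant) and `u x • x = x`. If `u x ≠ 1` then the open set `u ⁻¹' {u x}` is contained in the fixed points of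
`u x`, so its interior is not empty. -/
theorem cocycle_of_free (hs : ∀ h, IsLocallyConstant (s h)) (hact : ∀ (h : H) (x : X), h • x = s h x • x)
    (hf : ∀ γ : Γ, γ ≠ 1 → interior {x : X | γ • x = x} = ∅) (g h : H) (x : X) :
    s (g * h) x = s g (h • x) * s h x := by
  have hcont : Continuous fun x : X => h • x := by
    rw [continuous_iff_continuousAt]
    intro x0
    have h1 : ∀ᶠ y in nhds x0, s h y = s h x0 := (hs h).eventually_eq x0
    have h2 : ContinuousAt (fun y : X => s h x0 • y) x0 := (continuous_const_smul _).continuousAt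
    refine h2.congr ?_
    filter_upwards [h1] with y hy
    rw [hact h y, hy]
  obtain ⟨u, hu⟩ : ∃ u : X → Γ, ∀ x, u x = (s (g * h) x)⁻¹ * (s g (h • x) * s h x) :=
    ⟨_, fun _ => rfl⟩
  have huc : IsLocallyConstant u := by
    have h1 : IsLocallyConstant (fun x => s g (h • x)) := (hs g).comp_continuous hcont
    have h2 : IsLocallyConstant ((s (g * h))⁻¹ * ((fun x => s g (h • x)) * s h)) :=
      (hs (g * h)).inv.mul (h1.mul (hs h))
    have h3 : u = (s (g * h))⁻¹ * ((fun x => s g (h • x)) * s h) := by
      funext y
      exact hu y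
    rw [h3]
    exact h2
  have hfix : ∀ y, u y • y = y := by
    intro y
    rw [hu, mul_smul, mul_smul, ← hact h y, ← hact g (h • y), ← mul_smul, hact (g * h) y,
      inv_smul_smul]
  have hu1 : u x = 1 := by
    by_contra hne
    have h1 := hf (u x) hne
    have h2 : x ∈ interior {y : X | u x • y = y} := by
      rw [mem_interior]
      refine ⟨u ⁻¹' {u x}, ?_, huc.isOpen_fiber (u x), rfl⟩
      intro y hy
      have h3 : u y = u x := hy
      show u x • y = y
      rw [← h3]
      exact hfix y
    rw [h1] at h2
    exact h2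
  rw [hu, inv_mul_eq_one] at hu1
  exact hu1

/-- Proof. For `A` clopen and nonempty let `μ` be given by the hypothesis; `m B := (μ B).toReal` (`μ.real B`). Additivity:
`measure_union` for measurable (clopen) sets, finite measure. Invariance: `Measure.map_apply`. -/
theorem mea_of_measure [MeasurableSpace X] [BorelSpace X]
    (hμ : ∀ U : Set X, IsClopen U → U.Nonempty → ∃ μ : Measure X, IsProbabilityMeasure μ ∧
      (∀ g : Γ, μ.map (g • ·) = μ) ∧ 0 < μ U) :
    Mea (MulAction.toPermHom Γ X) := by
  intro A hA hne
  obtain ⟨μ, hpr, hinv, hpos⟩ := hμ A hA hne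
  refine ⟨fun B => (μ B).toReal, fun B _ => ENNReal.toReal_nonneg, ?_, ?_, ?_⟩
  · intro B C _ hC hdis
    show (μ (B ∪ C)).toReal = (μ B).toReal + (μ C).toReal
    rw [measure_union hdis hC.isOpen.measurableSet,
      ENNReal.toReal_add (measure_ne_top μ B) (measure_ne_top μ C)]
  · intro g B hB
    show (μ ((fun x : X => g • x) ⁻¹' B)).toReal = (μ B).toReal
    have h1 : μ.map (fun x : X => g • x) B = μ ((fun x : X => g • x) ⁻¹' B) :=
      Measure.map_apply (continuous_const_smul g).measurable hB.isOpen.measurableSet
    rw [← h1, hinv g]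
  · exact ENNReal.toReal_pos hpos.ne' (measure_ne_top μ A)

end

end Pool.Agent.H13.FG
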