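import Pool.Agent.H13.FG.Top

/-!
# Directed colimits
-/

set_option autoImplicit false

open Classical

namespace Pool.Agent.H13.FG

open Pool.Agent.H98.FJ Pool.Agent.H13.TFG

/-- a permutation of `X × G` which acts on `X` by `b` and multiplies the second coordinate by `A` -/
def LimMv {X G : Type} [Group G] (b : Equiv.Perm X) (A : X → G) (ρ : Equiv.Perm (X × G)) : Prop :=
  ∀ x g, ρ (x, g) = (b x, A x * g)

theorem limMv_one {X G : Type} [Group G] : LimMv (1 : Equiv.Perm X) (fun _ => (1 : G)) 1 := by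
  intro x g
  rw [Equiv.Perm.one_apply, Equiv.Perm.one_apply, one_mul]

theorem limMv_mul {X G : Type} [Group G] {b b' : Equiv.Perm X} {A A' : X → G}
    {ρ ρ' : Equiv.Perm (X × G)} (h : LimMv b A ρ) (h' : LimMv b' A' ρ') :
    LimMv (b * b') (fun x => A (b' x) * A' x) (ρ * ρ') := by
  intro x g
  rw [Equiv.Perm.mul_apply, Equiv.Perm.mul_apply, h', h, mul_assoc]

theorem limMv_inv {X G : Type} [Group G] {b : Equiv.Perm X} {A : X → G}
    {ρ : Equiv.Perm (X × G)} (h : LimMv b A ρ) :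
    LimMv b⁻¹ (fun x => (A (b⁻¹ x))⁻¹) ρ⁻¹ := by
  intro x g
  have h1 : b (b⁻¹ x) = x := b.apply_symm_apply x
  rw [Equiv.Perm.inv_eq_iff_eq, h, h1]
  change (x, g) = (x, A (b⁻¹ x) * ((A (b⁻¹ x))⁻¹ * g))
  rw [mul_inv_cancel_left]

/-- the permutation -/
def limPm {X G : Type} [Group G] (b : Equiv.Perm X) (A : X → G) : Equiv.Perm (X × G) where
  toFun t := (b t.1, A t.1 * t.2)
  invFun t := (b⁻¹ t.1, (A (b⁻¹ t.1))⁻¹ * t.2)
  left_inv t := by
    rcases t with ⟨x, g⟩
    change (b⁻¹ (b x), (A (b⁻¹ (b x)))⁻¹ * (A x * g)) = (x, g)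
    have h1 : b⁻¹ (b x) = x := b.symm_apply_apply x
    rw [h1, inv_mul_cancel_left]
  right_inv t := by
    rcases t with ⟨x, g⟩
    change (b (b⁻¹ x), A (b⁻¹ x) * ((A (b⁻¹ x))⁻¹ * g)) = (x, g)
    have h1 : b (b⁻¹ x) = x := b.apply_symm_apply x
    rw [h1, mul_inv_cancel_left]

theorem limMv_pm {X G : Type} [Group G] (b : Equiv.Perm X) (A : X → G) :
    LimMv b A (limPm b A) := fun _ _ => rfl

theorem lim_cont {X Γ H : Type} [TopologicalSpace X] [Group Γ] [Group H] {α : Γ →* Equiv.Perm X}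
    {β : H →* Equiv.Perm X} {a : H → X → Γ} (hα : ∀ g, Continuous (α g)) (hc : IsCoc α β a)
    (h : H) : Continuous (β h) := by
  rw [continuous_iff_continuousAt]
  intro x
  have h1 : ∀ᶠ y in nhds x, a h y = a h x := (hc.loc h).eventually_eq x
  have h2 : (fun y => α (a h x) y) =ᶠ[nhds x] β h := by
    filter_upwards [h1] with y hy
    rw [hc.act, hy]
  exact ((hα (a h x)).continuousAt (x := x)).congr h2

theorem lim_one {X Γ H : Type} [TopologicalSpace X] [Group Γ] [Group H] {α : Γ →* Equiv.Perm X}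
    {β : H →* Equiv.Perm X} {a : H → X → Γ} (hc : IsCoc α β a) (x : X) : a 1 x = 1 := by
  have h1 := hc.mul 1 1 x
  rw [mul_one, map_one, Equiv.Perm.one_apply] at h1
  exact left_eq_mul.1 h1

theorem lim_inv {X Γ H : Type} [TopologicalSpace X] [Group Γ] [Group H] {α : Γ →* Equiv.Perm X}
    {β : H →* Equiv.Perm X} {a : H → X → Γ} (hc : IsCoc α β a) (h : H) (x : X) :
    a h⁻¹ x = (a h ((β h)⁻¹ x))⁻¹ := by
  have h1 := hc.mul h h⁻¹ x
  rw [mul_inv_cancel, lim_one hc, map_inv] at h1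
  exact (inv_eq_of_mul_eq_one_right h1.symm).symm

section

variable {ι : Type} [Preorder ι] {G : ι → Type} [∀ i, Group (G i)]
  {f : ∀ i j, i ≤ j → (G i →* G j)} {Γ : Type} [Group Γ] {φ : ∀ i, G i →* Γ}

/-- finitely many values come from one stage -/
theorem lim_fin (h : IsColimit f φ) (s : Set Γ) (hs : s.Finite) :
    ∃ i, ∀ γ ∈ s, ∃ x, φ i x = γ := by
  induction s, hs using Set.Finite.induction_on with
  | empty =>
    obtain ⟨i⟩ := h.nonempty
    exact ⟨i, fun γ hγ => absurd hγ (Set.notMem_empty γ)⟩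
  | @insert γ s _ _ ih =>
    obtain ⟨i, hi⟩ := ih
    obtain ⟨j, x, hx⟩ := h.surj γ
    obtain ⟨k, hik, hjk⟩ := h.directed i j
    refine ⟨k, fun γ' hγ' => ?_⟩
    rcases Set.mem_insert_iff.1 hγ' with rfl | h1
    · exact ⟨f j k hjk x, by rw [h.compat, hx]⟩
    · obtain ⟨y, hy⟩ := hi γ' h1
      exact ⟨f i k hik y, by rw [h.compat, hy]⟩

/-- finitely many elements which die in the limit die at one stage -/
theorem lim_die (h : IsColimit f φ) (j : ι) (s : Set (G j)) (hs : s.Finite)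
    (h1 : ∀ v ∈ s, φ j v = 1) : ∃ (k : ι) (hk : j ≤ k), ∀ v ∈ s, f j k hk v = 1 := by
  induction s, hs using Set.Finite.induction_on with
  | empty => exact ⟨j, le_rfl, fun v hv => absurd hv (Set.notMem_empty v)⟩
  | @insert v s _ _ ih =>
    obtain ⟨k, hk, hks⟩ := ih fun v hv => h1 v (Set.mem_insert_of_mem _ hv)
    obtain ⟨l, hl, hlv⟩ := h.ker j v (h1 v (Set.mem_insert _ _))
    obtain ⟨m, hkm, hlm⟩ := h.directed k l
    refine ⟨m, hk.trans hkm, fun v' hv' => ?_⟩
    rcases Set.mem_insert_iff.1 hv' with rfl | h2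
    · rw [← h.map_comp j l m hl hlm, hlv, map_one]
    · rw [← h.map_comp j k m hk hkm, hks v' h2, map_one]

variable {X H : Type} [TopologicalSpace X] [Group H] {α : Γ →* Equiv.Perm X}
  {β : H →* Equiv.Perm X} {a : H → X → Γ}

/-- what is true for all words -/
def LimW (φ : ∀ i, G i →* Γ) (f : ∀ i j, i ≤ j → (G i →* G j)) (β : H →* Equiv.Perm X)
    (a : H → X → Γ) (i : ι) (h : H) (ρ : ∀ j : {j // i ≤ j}, Equiv.Perm (X × G j.1)) : Prop :=
  ∃ A : ∀ j : {j // i ≤ j}, X → G j.1, (∀ j, LimMv (β h) (A j) (ρ j)) ∧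
    (∀ j, IsLocallyConstant (A j)) ∧ (∀ j x, φ j.1 (A j x) = a h x) ∧
    ∀ (j k : {j // i ≤ j}) (hjk : j.1 ≤ k.1) x, A k x = f j.1 k.1 hjk (A j x)

theorem limW_one (hc : IsCoc α β a) (i : ι) : LimW φ f β a i 1 (fun _ => 1) := by
  refine ⟨fun _ _ => 1, fun j => ?_, fun j => IsLocallyConstant.const _, fun j x => ?_,
    fun j k hjk x => ?_⟩
  · rw [map_one]
    exact limMv_one
  · rw [map_one, lim_one hc]
  · rw [map_one]

theorem limW_mul (hα : ∀ g, Continuous (α g)) (hc : IsCoc α β a) (i : ι) {h h' : H}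
    {ρ ρ' : ∀ j : {j // i ≤ j}, Equiv.Perm (X × G j.1)} (hw : LimW φ f β a i h ρ)
    (hw' : LimW φ f β a i h' ρ') : LimW φ f β a i (h * h') (fun j => ρ j * ρ' j) := by
  obtain ⟨A, h1, h2, h3, h4⟩ := hw
  obtain ⟨A', h1', h2', h3', h4'⟩ := hw'
  refine ⟨fun j x => A j (β h' x) * A' j x, fun j => ?_, fun j => ?_, fun j x => ?_,
    fun j k hjk x => ?_⟩
  · rw [map_mul]
    exact limMv_mul (h1 j) (h1' j)
  · exact ((h2 j).comp_continuous (lim_cont hα hc h')).mul (h2' j)
  · rw [map_mul, h3, h3', hc.mul]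
  · change A k (β h' x) * A' k x = f j.1 k.1 hjk (A j (β h' x) * A' j x)
    rw [map_mul, h4 j k hjk, h4' j k hjk]

theorem limW_inv (hα : ∀ g, Continuous (α g)) (hc : IsCoc α β a) (i : ι) {h : H}
    {ρ : ∀ j : {j // i ≤ j}, Equiv.Perm (X × G j.1)} (hw : LimW φ f β a i h ρ) :
    LimW φ f β a i h⁻¹ (fun j => (ρ j)⁻¹) := by
  obtain ⟨A, h1, h2, h3, h4⟩ := hw
  refine ⟨fun j x => (A j ((β h)⁻¹ x))⁻¹, fun j => ?_, fun j => ?_, fun j x => ?_,
    fun j k hjk x => ?_⟩
  · rw [map_inv]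
    exact limMv_inv (h1 j)
  · have h5 : Continuous ((β h)⁻¹ : Equiv.Perm X) := by
      rw [← map_inv]
      exact lim_cont hα hc h⁻¹
    exact ((h2 j).comp_continuous h5).inv
  · rw [map_inv, h3, lim_inv hc]
  · change (A k ((β h)⁻¹ x))⁻¹ = f j.1 k.1 hjk (A j ((β h)⁻¹ x))⁻¹
    rw [map_inv, h4 j k hjk]

end

/-- Directed colimits of the acting groups. -/
theorem lim_good {C : (G : Type) → [Group G] → Prop} (hC : RaagClass C) {ι : Type} [Preorder ι]
    {G : ι → Type} [∀ i, Group (G i)] {f : ∀ i j, i ≤ j → (G i →* G j)} {Γ : Type} [Group Γ]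
    {φ : ∀ i, G i →* Γ} (h : IsColimit f φ) (hG : ∀ i, Good C (G i)) : Good C Γ := by
  intro X _ _ α hα hm H _ β a hc
  refine hC.of_local fun s => ⟨Subgroup.closure (s : Set H), ?_, Subgroup.subset_closure⟩
  -- the stage `i`
  have hfin : (⋃ u ∈ s, Set.range (a u)).Finite := by
    refine Set.Finite.biUnion s.finite_toSet fun u _ => ?_
    exact (hc.loc u).range_finite
  obtain ⟨i, hi⟩ := lim_fin h _ hfin
  have hpre : ∀ γ : Γ, ∃ x : G i, γ ∈ (⋃ u ∈ s, Set.range (a u)) → φ i x = γ := by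
    intro γ
    by_cases hγ : γ ∈ (⋃ u ∈ s, Set.range (a u))
    · obtain ⟨x, hx⟩ := hi γ hγ
      exact ⟨x, fun _ => hx⟩
    · exact ⟨1, fun h1 => absurd h1 hγ⟩
  choose pre hpre using hpre
  -- the permutations
  let r : ∀ j : {j // i ≤ j}, {u // u ∈ s} → Equiv.Perm (X × G j.1) :=
    fun j u => limPm (β u.1) (fun x => f i j.1 j.2 (pre (a u.1 x)))
  let ρ : ∀ j : {j // i ≤ j}, FreeGroup {u // u ∈ s} →* Equiv.Perm (X × G j.1) :=
    fun j => FreeGroup.lift (r j)
  let bar : FreeGroup {u // u ∈ s} →* H := FreeGroup.lift (fun u => u.1)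
  have key : ∀ w : FreeGroup {u // u ∈ s}, LimW φ f β a i (bar w) (fun j => ρ j w) := by
    intro w
    have hof : ∀ u : {u // u ∈ s}, LimW φ f β a i (bar (FreeGroup.of u))
        (fun j => ρ j (FreeGroup.of u)) := by
      intro u
      have hb : bar (FreeGroup.of u) = u.1 := FreeGroup.lift_apply_of
      have hr : (fun j => ρ j (FreeGroup.of u)) = fun j => r j u := by
        funext j
        exact FreeGroup.lift_apply_of
      rw [hb, hr]
      refine ⟨fun j x => f i j.1 j.2 (pre (a u.1 x)), fun j => limMv_pm _ _, fun j => ?_,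
        fun j x => ?_, fun j k hjk x => ?_⟩
      · exact (hc.loc u.1).comp (fun γ => f i j.1 j.2 (pre γ))
      · rw [h.compat]
        exact hpre _ (Set.mem_iUnion₂.2 ⟨u.1, u.2, x, rfl⟩)
      · exact (h.map_comp i j.1 k.1 j.2 hjk k.2 _).symm
    induction w using FreeGroup.induction_on with
    | C1 =>
      have h1 : (fun j => ρ j (1 : FreeGroup {u // u ∈ s})) = fun _ => 1 := by
        funext j
        exact map_one _
      rw [map_one, h1]
      exact limW_one hc i
    | of u => exact hof u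
    | inv_of u _ =>
      have h1 : (fun j => ρ j (FreeGroup.of u)⁻¹) = fun j => (ρ j (FreeGroup.of u))⁻¹ := by
        funext j
        exact map_inv _ _
      change LimW φ f β a i (bar (FreeGroup.of u)⁻¹) (fun j => ρ j (FreeGroup.of u)⁻¹)
      rw [map_inv, h1]
      exact limW_inv hα hc i (hof u)
    | mul w w' hw hw' =>
      have h1 : (fun j => ρ j (w * w')) = fun j => ρ j w * ρ j w' := by
        funext j
        exact map_mul _ _ _
      rw [map_mul, h1]
      exact limW_mul hα hc i hw hw'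
  choose A hA0 hA2 hA3 hA4 using key
  have hA1 : ∀ w (j : {j // i ≤ j}) x g, ρ j w (x, g) = (β (bar w) x, A w j x * g) :=
    fun w j x g => hA0 w j x g
  have hker : ∀ (j : {j // i ≤ j}) w, w ∈ (ρ j).ker ↔ ∀ x, A w j x = 1 := by
    intro j w
    rw [MonoidHom.mem_ker]
    constructor
    · intro h1 x
      have h2 := hA1 w j x 1
      rw [h1, Equiv.Perm.one_apply, mul_one] at h2
      exact (Prod.mk.inj h2).2.symm
    · intro h1
      ext1 t
      rcases t with ⟨x, g⟩
      have h2 := hA1 w j x g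
      have h3 : a (bar w) x = 1 := by rw [← hA3 w j x, h1 x, map_one]
      rw [h2, hc.act, h3, h1 x, map_one, one_mul]
      rfl
  have hbar : ∀ (j : {j // i ≤ j}) w, w ∈ (ρ j).ker → bar w = 1 := by
    intro j w hw
    refine hc.inj _ fun x => ?_
    rw [← hA3 w j x, (hker j w).1 hw x, map_one]
  have : Nonempty {j // i ≤ j} := ⟨⟨i, le_rfl⟩⟩
  have : IsDirectedOrder {j // i ≤ j} := ⟨fun j k => by
    obtain ⟨l, h1, h2⟩ := h.directed j.1 k.1
    exact ⟨⟨l, j.2.trans h1⟩, h1, h2⟩⟩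
  have hmem : ∀ u : {u // u ∈ s}, u.1 ∈ Subgroup.closure (s : Set H) := fun u =>
    Subgroup.subset_closure (Finset.mem_coe.2 u.2)
  let Φ : FreeGroup {u // u ∈ s} →* Subgroup.closure (s : Set H) :=
    FreeGroup.lift (fun u => ⟨u.1, hmem u⟩)
  have hΦ : ∀ w, (Φ w : H) = bar w := by
    intro w
    have h1 : (Subgroup.closure (s : Set H)).subtype.comp Φ = bar := by
      ext u
      rw [MonoidHom.comp_apply]
      have h2 : Φ (FreeGroup.of u) = ⟨u.1, hmem u⟩ := FreeGroup.lift_apply_of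
      have h3 : bar (FreeGroup.of u) = u.1 := FreeGroup.lift_apply_of
      rw [h2, h3]
      rfl
    exact DFunLike.congr_fun h1 w
  refine col hC (fun _ : {j // i ≤ j} => FreeGroup {u // u ∈ s})
    (fun _ _ _ => MonoidHom.id _) (fun _ _ _ => rfl) (fun _ _ _ _ _ _ _ => rfl)
    (Subgroup.closure (s : Set H)) (fun _ => Φ) (fun _ _ _ _ => rfl)
    (fun j => (ρ j).ker) ?_ ?_ ?_ ?_ ?_
  · intro j w hw
    apply Subtype.ext
    rw [hΦ, hbar j w hw]
    rfl
  · intro j k hjk w hw
    change w ∈ (ρ k).ker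
    rw [hker]
    intro x
    rw [hA4 w j k hjk x, (hker j w).1 hw x, map_one]
  · intro q
    have h1 : (q : H) ∈ bar.range := by
      rw [FreeGroup.range_lift_eq_closure]
      have h2 : Set.range (fun u : {u // u ∈ s} => u.1) = (s : Set H) := by
        ext u
        constructor
        · rintro ⟨v, rfl⟩
          exact Finset.mem_coe.2 v.2
        · intro hu
          exact ⟨⟨u, Finset.mem_coe.1 hu⟩, rfl⟩
      rw [h2]
      exact q.2
    obtain ⟨w, hw⟩ := h1
    refine ⟨⟨i, le_rfl⟩, w, ?_⟩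
    apply Subtype.ext
    rw [hΦ, hw]
  · intro j w hw
    have h1 : bar w = 1 := by
      rw [← hΦ, hw]
      rfl
    have h2 : ∀ v ∈ Set.range (A w j), φ j.1 v = 1 := by
      rintro v ⟨x, rfl⟩
      rw [hA3 w j x, h1, lim_one hc]
    obtain ⟨k, hk, hks⟩ := lim_die h j.1 _ (hA2 w j).range_finite h2
    refine ⟨⟨k, j.2.trans hk⟩, hk, ?_⟩
    change w ∈ (ρ ⟨k, j.2.trans hk⟩).ker
    rw [hker]
    intro x
    rw [hA4 w j ⟨k, j.2.trans hk⟩ hk x]
    exact hks _ ⟨x, rfl⟩
  · intro j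
    -- the action of the quotient
    have hq : ∀ w, w ∈ (ρ j).ker → (β.comp bar) w = 1 := by
      intro w hw
      rw [MonoidHom.comp_apply, hbar j w hw, map_one]
    let β' : FreeGroup {u // u ∈ s} ⧸ (ρ j).ker →* Equiv.Perm X :=
      QuotientGroup.lift (ρ j).ker (β.comp bar) hq
    let a' : FreeGroup {u // u ∈ s} ⧸ (ρ j).ker → X → G j.1 :=
      fun q x => (QuotientGroup.kerLift (ρ j) q (x, 1)).2
    have ha' : ∀ w : FreeGroup {u // u ∈ s}, a' (QuotientGroup.mk w) = A w j := by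
      intro w
      funext x
      change (ρ j w (x, 1)).2 = A w j x
      have h1 := hA1 w j x 1
      rw [h1, mul_one]
    have hβ' : ∀ w : FreeGroup {u // u ∈ s}, β' (QuotientGroup.mk w) = β (bar w) := fun w => rfl
    refine hG j.1 X (α.comp (φ j.1)) (fun g => hα _) ?_ _ β' a' ?_
    · intro B hB hB'
      obtain ⟨m, h1, h2, h3, h4⟩ := hm B hB hB'
      exact ⟨m, h1, h2, fun g => h3 _, h4⟩
    · refine ⟨?_, ?_, ?_, ?_⟩
      · intro q x
        induction q using QuotientGroup.induction_on with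
        | H w =>
          rw [ha', hβ', hc.act, MonoidHom.comp_apply, hA3]
      · intro q q' x
        induction q using QuotientGroup.induction_on with
        | H w =>
          induction q' using QuotientGroup.induction_on with
          | H w' =>
            rw [← QuotientGroup.mk_mul, ha', ha', ha', hβ']
            have h1 := hA1 (w * w') j x 1
            rw [map_mul, Equiv.Perm.mul_apply] at h1
            have h3 := hA1 w' j x 1
            have h4 := hA1 w j (β (bar w') x) (A w' j x * 1)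
            rw [h3, h4, mul_one, mul_one] at h1
            exact (Prod.mk.inj h1).2.symm
      · intro q hq
        induction q using QuotientGroup.induction_on with
        | H w =>
          rw [ha'] at hq
          exact (QuotientGroup.eq_one_iff w).2 ((hker j w).2 hq)
      · intro q
        induction q using QuotientGroup.induction_on with
        | H w =>
          rw [ha']
          exact hA2 w j

end Pool.Agent.H13.FG
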