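import Pool.Agent.H13.FG.VirB
import Pool.Agent.H13.FG.Lim
import Pool.Agent.H13.FG.FinA

/-!
# The final theorem
-/

set_option autoImplicit false

open Classical

namespace Pool.Agent.H13.FG

open Pool.Agent.H98.FJ Pool.Agent.H13.TFG MeasureTheory

section

variable {X Γ H : Type} [TopologicalSpace X] [Group Γ] [MulAction Γ X]
  [ContinuousConstSMul Γ X] [Group H] [MulAction H X] (s : H → X → Γ)

theorem fin_mem {C : (G : Type) → [Group G] → Prop} (hC : RaagClass C)
    {ι : Type} [Preorder ι] {G : ι → Type} [∀ i, Group (G i)]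
    {f : ∀ i j, i ≤ j → (G i →* G j)} {φ : ∀ i, G i →* Γ} (hlim : IsColimit f φ)
    (hG : ∀ i, VFree (G i)) [CompactSpace X] [MeasurableSpace X] [BorelSpace X]
    (hμ : ∀ U : Set X, IsClopen U → U.Nonempty → ∃ μ : Measure X, IsProbabilityMeasure μ ∧
      (∀ g : Γ, μ.map (g • ·) = μ) ∧ 0 < μ U)
    (hs : ∀ h, IsLocallyConstant (s h)) (hact : ∀ (h : H) (x : X), h • x = s h x • x)
    (hcoc : (∀ (g h : H) (x : X), s (g * h) x = s g (h • x) * s h x) ∨
      ∀ γ : Γ, γ ≠ 1 → interior {x : X | γ • x = x} = ∅)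
    (hinj : ∀ h, (∀ x, s h x = 1) → h = 1) : C H := by
  have hg : Good C Γ := lim_good hC hlim fun i => vir_good hC (G i) (hG i)
  have hcoc' : ∀ (g h : H) (x : X), s (g * h) x = s g (h • x) * s h x := by
    rcases hcoc with h | h
    · exact h
    · exact cocycle_of_free s hs hact h
  exact hg X (MulAction.toPermHom Γ X) (fun g => continuous_const_smul g) (mea_of_measure hμ)
    H (MulAction.toPermHom H X) s ⟨hact, hcoc', hinj, hs⟩

end

end Pool.Agent.H13.FG
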