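import Pool.Agent.H13.FG.FreA

/-!
# Free groups of finite rank
-/

set_option autoImplicit false

open Classical

namespace Pool.Agent.H13.FG

open Pool.Agent.H13.TFG

/-- values of a cocycle at `1` -/
theorem IsCoc.one {X Γ H : Type} [TopologicalSpace X] [Group Γ] [Group H]
    {α : Γ →* Equiv.Perm X} {β : H →* Equiv.Perm X} {a : H → X → Γ} (h : IsCoc α β a) (x : X) :
    a 1 x = 1 := by
  have h1 := h.mul 1 1 x
  rw [map_one, Equiv.Perm.one_apply, mul_one] at h1
  exact mul_eq_right.1 h1.symm

/-- the action on `X × FreeGroup J` -/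
def freRho {X J H : Type} [TopologicalSpace X] [Group H] {α : FreeGroup J →* Equiv.Perm X}
    {β : H →* Equiv.Perm X} {a : H → X → FreeGroup J} (h : IsCoc α β a) :
    H →* Equiv.Perm (X × FreeGroup J) :=
  MonoidHom.toHomPerm
    { toFun := fun g y => (y.1, a g (fpi α y) * y.2)
      map_one' := by
        funext y
        show (y.1, a 1 (fpi α y) * y.2) = y
        rw [h.one, one_mul]
      map_mul' := fun g g' => by
        funext y
        have h1 : fpi α (y.1, a g' (fpi α y) * y.2) = β g' (fpi α y) := by
          rw [h.act]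
          show α (a g' (fpi α y) * y.2) y.1 = α (a g' (fpi α y)) (α y.2 y.1)
          rw [map_mul]
          rfl
        show (y.1, a (g * g') (fpi α y) * y.2) =
          (y.1, a g (fpi α (y.1, a g' (fpi α y) * y.2)) * (a g' (fpi α y) * y.2))
        rw [h1, h.mul, mul_assoc] }

theorem freRho_apply {X J H : Type} [TopologicalSpace X] [Group H]
    {α : FreeGroup J →* Equiv.Perm X} {β : H →* Equiv.Perm X} {a : H → X → FreeGroup J}
    (h : IsCoc α β a) (g : H) (y : X × FreeGroup J) :
    freRho h g y = (y.1, a g (fpi α y) * y.2) := rfl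

theorem fre_good {C : (G : Type) → [Group G] → Prop} (hC : RaagClass C) (J : Type) [Finite J] :
    Good C (FreeGroup J) := by
  intro X _ _ α hα hm H _ β a h
  refine comb_mem (fre_alg α hα hm) hC H (freRho h) ?_ ?_
  · intro g g' hgg
    have h1 : g * g'⁻¹ = 1 := by
      refine h.inj _ fun x => ?_
      have h2 : freRho h (g * g'⁻¹) = 1 := by
        rw [map_mul, map_inv, hgg, mul_inv_cancel]
      obtain ⟨y, rfl⟩ := fpi_surj α x
      have h3 := congrArg Prod.snd (DFunLike.congr_fun h2 y)
      rw [freRho_apply] at h3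
      exact mul_eq_right.1 h3
    exact mul_inv_eq_one.1 h1
  · intro g
    refine ⟨fun y => a g (fpi α y), ?_, ?_, fun y => freRho_apply h g y⟩
    · refine ((h.loc g).range_finite).subset ?_
      rintro _ ⟨y, rfl⟩
      exact ⟨_, rfl⟩
    · intro w
      exact ⟨a g ⁻¹' {w}, (h.loc g).isClopen_fiber w, rfl⟩

end Pool.Agent.H13.FG
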