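import Pool.Agent.H13.FG.Top

/-!
# The algebra of the clopen sets
-/

set_option autoImplicit false

open Classical

namespace Pool.Agent.H13.FG

open Pool.Agent.H13.TFG

/-- the factor map to `X` -/
def fpi {J X : Type} (α : FreeGroup J →* Equiv.Perm X) (y : X × FreeGroup J) : X := α y.2 y.1

theorem fpi_surj {J X : Type} (α : FreeGroup J →* Equiv.Perm X) :
    Function.Surjective (fpi α) := fun x => ⟨(x, 1), by
  show α 1 x = x
  rw [map_one]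
  rfl⟩

theorem fpi_fsh {J X : Type} (α : FreeGroup J →* Equiv.Perm X) (j : J) (y : X × FreeGroup J) :
    fpi α (fsh X J j y) = α (FreeGroup.of j) (fpi α y) := by
  show α (FreeGroup.of j * y.2) y.1 = α (FreeGroup.of j) (α y.2 y.1)
  rw [map_mul]
  rfl

theorem fpi_fsh_symm {J X : Type} (α : FreeGroup J →* Equiv.Perm X) (j : J)
    (y : X × FreeGroup J) :
    fpi α ((fsh X J j).symm y) = α (FreeGroup.of j)⁻¹ (fpi α y) := by
  show α ((FreeGroup.of j)⁻¹ * y.2) y.1 = α (FreeGroup.of j)⁻¹ (α y.2 y.1)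
  rw [map_mul]
  rfl

/-- The clopen sets, pulled back to `X × FreeGroup J` by `(ω, f) ↦ α f ω`, form an algebra in the sense of `Alg`. -/
theorem fre_alg {J X : Type} [TopologicalSpace X] (α : FreeGroup J →* Equiv.Perm X)
    (hα : ∀ g, Continuous (α g)) (hm : Mea α) :
    Alg (fsh X J) {B | ∃ A : Set X, IsClopen A ∧ B = (fun y => α y.2 y.1) ⁻¹' A} := by
  have hs : ∀ A : Set X, fpi α '' (fpi α ⁻¹' A) = A := fun A =>
    Set.image_preimage_eq A (fpi_surj α)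
  refine ⟨⟨∅, isClopen_empty, rfl⟩, ?_, ?_, ?_, ?_, ?_⟩
  · rintro _ ⟨A, hA, rfl⟩
    exact ⟨Aᶜ, hA.compl, rfl⟩
  · rintro _ ⟨A, hA, rfl⟩ _ ⟨B, hB, rfl⟩
    exact ⟨A ∪ B, hA.union hB, rfl⟩
  · rintro j _ ⟨A, hA, rfl⟩
    refine ⟨α (FreeGroup.of j) ⁻¹' A, hA.preimage (hα _), ?_⟩
    ext y
    show fpi α (fsh X J j y) ∈ A ↔ α (FreeGroup.of j) (fpi α y) ∈ A
    rw [fpi_fsh]
  · rintro j _ ⟨A, hA, rfl⟩
    refine ⟨α (FreeGroup.of j)⁻¹ ⁻¹' A, hA.preimage (hα _), ?_⟩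
    ext y
    show fpi α ((fsh X J j).symm y) ∈ A ↔ α (FreeGroup.of j)⁻¹ (fpi α y) ∈ A
    rw [fpi_fsh_symm]
  · rintro _ ⟨A, hA, rfl⟩ ⟨y, hy⟩
    obtain ⟨m, h1, h2, h3, h4⟩ := hm A hA ⟨_, hy⟩
    refine ⟨fun B => m (fpi α '' B), ?_, ?_, ?_, ?_⟩
    · rintro _ ⟨B, hB, rfl⟩
      show 0 ≤ m (fpi α '' (fpi α ⁻¹' B))
      rw [hs]
      exact h1 B hB
    · rintro _ ⟨B, hB, rfl⟩ _ ⟨D, hD, rfl⟩ hBD
      show m (fpi α '' (fpi α ⁻¹' (B ∪ D))) =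
        m (fpi α '' (fpi α ⁻¹' B)) + m (fpi α '' (fpi α ⁻¹' D))
      rw [hs, hs, hs]
      refine h2 B D hB hD ?_
      rw [Set.disjoint_left]
      intro x hx hx'
      obtain ⟨y, rfl⟩ := fpi_surj α x
      have h6 : y ∈ (fun y : X × FreeGroup J => α y.2 y.1) ⁻¹' B := hx
      exact Set.disjoint_left.1 hBD h6 hx'
    · rintro j _ ⟨B, hB, rfl⟩
      have h5 : fsh X J j ⁻¹' ((fun y => α y.2 y.1) ⁻¹' B) =
          fpi α ⁻¹' (α (FreeGroup.of j) ⁻¹' B) := by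
        ext y
        show fpi α (fsh X J j y) ∈ B ↔ α (FreeGroup.of j) (fpi α y) ∈ B
        rw [fpi_fsh]
      show m (fpi α '' (fsh X J j ⁻¹' ((fun y => α y.2 y.1) ⁻¹' B))) =
        m (fpi α '' (fpi α ⁻¹' B))
      rw [h5, hs, hs]
      exact h3 _ B hB
    · show 0 < m (fpi α '' (fpi α ⁻¹' A))
      rw [hs]
      exact h4

end Pool.Agent.H13.FG
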