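import Pool.Agent.H13.FG.Defs
import Pool.Agent.H13.BD.Tau

/-!
# Relations between token moves by different permutations

See `BD/Tau.lean` for one permutation.
-/

set_option autoImplicit false
set_option linter.unusedSimpArgs false

open Classical

namespace Pool.Agent.H13.FG

open Pool.Agent.H13.BD

variable {Y : Type} (T T' : Equiv.Perm Y)

theorem tau_tau2 (A B : Set Y) :
    tau T A * (bp (fun y => swp (y ∈ B ∧ T y ∈ A)) * tau T' B *
        bp (fun y => swp (T' y ∈ B ∧ T y ∈ A))) =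
      (bp (fun y => swp (y ∈ B ∧ y ∈ A)) * tau T' B *
        bp (fun y => swp (T' y ∈ B ∧ y ∈ A))) * tau T A := by
  ext1 ⟨y, n⟩
  simp only [Equiv.Perm.mul_apply, bp_apply]
  by_cases h1 : T y ∈ A <;> by_cases h2 : T' y ∈ B <;> by_cases h3 : y ∈ A <;>
    by_cases h4 : y ∈ B <;> rcases n with _ | _ | n <;>
    first
      | (simp [tau_apply, h1, h2, h3, h4, swp, sw2]; done)
      | (by_cases h5 : T (T' y) ∈ A <;> by_cases h6 : T' (T y) ∈ B <;>
          first
            | (simp [tau_apply, h1, h2, h3, h4, h5, h6, swp, sw2]; done)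
            | (by_cases h7 : T' y ∈ A <;> by_cases h8 : T y ∈ B <;>
                simp [tau_apply, h1, h2, h3, h4, h5, h6, h7, h8, swp, sw2]))

/-- composition of two moves -/
theorem tau_mul (B : Set Y) : tau (T * T') B = tau T B * tau T' (T ⁻¹' B) := by
  ext1 ⟨y, n⟩
  rw [Equiv.Perm.mul_apply]
  by_cases h1 : T (T' y) ∈ B <;> by_cases h2 : T y ∈ B <;> by_cases h3 : y ∈ B <;>
    rcases n with _ | n <;>
    simp [tau_apply, h1, h2, h3]

theorem tau_inv_eq (B : Set Y) : tau T⁻¹ B = (tau T (T '' B))⁻¹ := by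
  have h1 : ∀ y, T.symm y ∈ B ↔ y ∈ T '' B := by
    intro y
    constructor
    · intro h
      exact ⟨T.symm y, h, T.apply_symm_apply y⟩
    · rintro ⟨z, hz, rfl⟩
      rw [T.symm_apply_apply]
      exact hz
  have h2 : ∀ y, T y ∈ T '' B ↔ y ∈ B := fun y => by
    rw [← h1, T.symm_apply_apply]
  ext1 ⟨y, n⟩
  rw [tau_inv_apply, tau_apply]
  have h3 : (T⁻¹ : Equiv.Perm Y) y = T.symm y := rfl
  rw [h3]
  have h6 : (T.symm y ∈ B) = (y ∈ T '' B) := propext (h1 y)
  have h7 : (T y ∈ T '' B) = (y ∈ B) := propext (h2 y)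
  rw [h6, h7]

/-- the move depends only on the part of the permutation which is mapped to `B` -/
theorem tau_congr (B : Set Y) (h : ∀ y, T y ∈ B ↔ T' y ∈ B) (h' : ∀ y, T y ∈ B → T y = T' y) :
    tau T B = tau T' B := by
  ext1 ⟨y, n⟩
  rw [tau_apply, tau_apply]
  by_cases h1 : T y ∈ B
  · have h2 : T' y ∈ B := (h y).1 h1
    have h3 := h' y h1
    by_cases hn : n = 0
    · rw [if_pos ⟨h1, hn⟩, if_pos ⟨h2, hn⟩, h3]
    · rw [if_neg (fun h4 => hn h4.2), if_neg (fun h4 => hn h4.2), ii_pos h1, ii_pos h2]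
  · have h2 : T' y ∉ B := fun h3 => h1 ((h y).2 h3)
    rw [if_neg (fun h4 => h1 h4.1), if_neg (fun h4 => h2 h4.1), ii_neg h1, ii_neg h2]

theorem tau_univ (g : Equiv.Perm Y) : tau g Set.univ = hat g := by
  ext1 ⟨y, n⟩
  rw [tau_apply]
  cases n with
  | zero => simp [hat_zero]
  | succ n => simp [hat_succ]

end Pool.Agent.H13.FG
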