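import Pool.Agent.H13.FG.Loc
import Pool.Agent.H13.FG.Tau
import Pool.Agent.H13.BD.Hat

/-!
# Permutations which are piecewise in the free group are realised
-/

set_option autoImplicit false

open Classical

namespace Pool.Agent.H13.FG

open Pool.Agent.H13.BD

/-- The permutations of the slots which come from the free group for some finite family of members of `𝓑`. -/
noncomputable def BR {J Ω : Type} (𝓑 : Set (Set (Ω × FreeGroup J))) :
    Subgroup (Equiv.Perm ((Ω × FreeGroup J) × ℕ)) where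
  carrier := {q | ∃ (i : Ix 𝓑) (p : PP J (i.1 → Prop)), (ysys (cl i.1)).Ph p = q}
  one_mem' := ⟨⟨∅, fun A hA => absurd hA (Finset.notMem_empty A)⟩, 1, map_one _⟩
  mul_mem' := by
    rintro q q' ⟨i, p, hp⟩ ⟨j, p', hp'⟩
    refine ⟨⟨i.1 ∪ j.1, fun A hA => ?_⟩, rf (rs Finset.subset_union_left) p *
      rf (rs Finset.subset_union_right) p', ?_⟩
    · rcases Finset.mem_union.1 hA with h | h
      · exact i.2 A h
      · exact j.2 A h
    · rw [map_mul, Ph_rf, Ph_rf, ← hp, ← hp']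
      rfl
  inv_mem' := by
    rintro q ⟨i, p, hp⟩
    refine ⟨i, p⁻¹, ?_⟩
    rw [map_inv, hp]
    rfl

/-- those which fix the high slots -/
noncomputable def BQ {J Ω : Type} (𝓑 : Set (Set (Ω × FreeGroup J))) :
    Subgroup (Equiv.Perm ((Ω × FreeGroup J) × ℕ)) := FH (Ω × FreeGroup J) ⊓ BR 𝓑

/-- the transposition of the first two slots -/
def hatSw : Fin1 := ⟨Equiv.swap 0 1, ⟨2, fun n hn =>
  Equiv.swap_apply_of_ne_of_ne (by omega) (by omega)⟩⟩

/-- Proof. `i := {D}`, `p := of (inl e)` where `e l := hatSw` if `l.1 ⟨D, _⟩` and `1` otherwise. -/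
theorem bp_swp_mem {J Ω : Type} {𝓑 : Set (Set (Ω × FreeGroup J))} (D : Set (Ω × FreeGroup J))
    (hD : D ∈ 𝓑) : bp (fun y => swp (y ∈ D)) ∈ BR 𝓑 := by
  have hi : ∀ A ∈ ({D} : Finset (Set (Ω × FreeGroup J))), A ∈ 𝓑 := by
    intro A hA
    rw [Finset.mem_singleton.1 hA]
    exact hD
  refine ⟨⟨{D}, hi⟩, FreeGroup.of (Sum.inl fun l =>
    if l.1 ⟨D, Finset.mem_singleton_self D⟩ then hatSw else 1), ?_⟩
  rw [loc_Ph_inl]
  refine Equiv.ext ?_
  rintro ⟨y, n⟩
  have h1 : ((if cl {D} y ⟨D, Finset.mem_singleton_self D⟩ then hatSw else 1 : Fin1) :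
      Equiv.Perm ℕ) n = swp (y ∈ D) n := by
    by_cases hy : y ∈ D
    · rw [if_pos (show cl {D} y ⟨D, Finset.mem_singleton_self D⟩ from hy), swp_pos hy]
      rfl
    · rw [if_neg (show ¬ cl {D} y ⟨D, Finset.mem_singleton_self D⟩ from hy), swp_neg hy]
      rfl
  exact Prod.ext rfl h1

/-- Proof. `i := {B}`, `p := of (inr (j, {v | v ⟨B, _⟩}))`. -/
theorem tau_gen_mem {J Ω : Type} {𝓑 : Set (Set (Ω × FreeGroup J))} (j : J)
    (B : Set (Ω × FreeGroup J)) (hB : B ∈ 𝓑) : tau (fsh Ω J j) B ∈ BR 𝓑 := by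
  have hi : ∀ A ∈ ({B} : Finset (Set (Ω × FreeGroup J))), A ∈ 𝓑 := by
    intro A hA
    rw [Finset.mem_singleton.1 hA]
    exact hB
  refine ⟨⟨{B}, hi⟩, FreeGroup.of (Sum.inr (j, {v | v ⟨B, Finset.mem_singleton_self B⟩})), ?_⟩
  rw [loc_Ph_inr]
  rfl

/-- left multiplication by an element of the free group -/
def fac (Ω J : Type) : FreeGroup J →* Equiv.Perm (Ω × FreeGroup J) where
  toFun h :=
    { toFun := fun y => (y.1, h * y.2)
      invFun := fun y => (y.1, h⁻¹ * y.2)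
      left_inv := fun y => by simp
      right_inv := fun y => by simp }
  map_one' := by
    ext1 y
    simp
  map_mul' g h := by
    ext1 y
    simp [mul_assoc]

@[simp] theorem fac_apply {Ω J : Type} (h : FreeGroup J) (y : Ω × FreeGroup J) :
    fac Ω J h y = (y.1, h * y.2) := rfl

theorem fac_of {Ω J : Type} (j : J) : fac Ω J (FreeGroup.of j) = fsh Ω J j := by
  ext1 y
  rfl

/-- Proof. `FreeGroup.induction_on`, for all `B ∈ 𝓑`: `h = 1`: `tau 1 B = 1` (`tau_congr`, or directly: `tau_apply`); `of j`: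
`tau_gen_mem`; `(of j)⁻¹`: `tau_inv_eq` and `tau_gen_mem` for `fsh j '' B = (fsh j).symm ⁻¹' B`; products: `tau_mul` and
`loc_pre`. -/
theorem tau_fac_mem {J Ω : Type} {𝓑 : Set (Set (Ω × FreeGroup J))} (hB : Alg (fsh Ω J) 𝓑)
    (h : FreeGroup J) : ∀ B ∈ 𝓑, tau (fac Ω J h) B ∈ BR 𝓑 := by
  induction h using FreeGroup.induction_on with
  | C1 =>
    intro B _
    have h1 : tau (fac Ω J 1) B = 1 := by
      rw [map_one]
      ext1 ⟨y, n⟩
      rw [tau_apply]
      by_cases hy : y ∈ B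
      · cases n <;> simp [hy]
      · simp [hy]
    rw [h1]
    exact one_mem _
  | of j =>
    intro B hB'
    have h1 : fac Ω J (FreeGroup.of j) = fsh Ω J j := fac_of j
    have h2 := tau_gen_mem j B hB'
    rw [← h1] at h2
    exact h2
  | inv_of j _ =>
    intro B hB'
    have h1 : fac Ω J (FreeGroup.of j)⁻¹ = (fsh Ω J j)⁻¹ := by
      rw [map_inv, fac_of]
    have h2 : tau (fsh Ω J j)⁻¹ B ∈ BR 𝓑 := by
      rw [tau_inv_eq, Equiv.image_eq_preimage_symm]
      exact inv_mem (tau_gen_mem j _ (hB.pre' j B hB'))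
    rw [← h1] at h2
    exact h2
  | mul g h hg hh =>
    intro B hB'
    rw [map_mul, tau_mul]
    refine mul_mem (hg B hB') (hh _ ?_)
    exact loc_pre hB g B hB'

/-- Let `g y = s y * y` with a function `s` with finitely many values and fibres in `𝓑`. Then `hat g ∈ BQ 𝓑`.

Proof. `hat g ∈ FH` is `Pool.Agent.H13.BD.hat_FH`. `hat g = tau g Set.univ` (`tau_univ`). For `w : FreeGroup J` let `B w` be the set of
the `y` with `s (g⁻¹ y) = w`, that is the image of `s ⁻¹' {w}` under `g`, or under `fac w`; it is in `𝓑` (it is the preimage of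
`s ⁻¹' {w}` under `fac w⁻¹`; `loc_pre`), and `tau g (B w) = tau (fac w) (B w)` (`tau_congr`; if `fac w y ∈ B w` then
`fac w y = g z` with `s z = w`, so `z = y`) is in `BR 𝓑`. By induction on finite sets `W` of words,
`tau g (⋃ w ∈ W, B w) ∈ BR 𝓑`: by `tau_union` for the disjoint sets `A := ⋃ w ∈ W, B w` and `B w'`,
`tau g (A ∪ B w') = tau g (B w') * bp (fun y => swp (y ∈ A ∧ g y ∈ B w')) * tau g A`, where the set `{y | y ∈ A ∧ g y ∈ B w'}` is
`A ∩ s ⁻¹' {w'}`. For `W` the set of all values of `s` this is `tau g Set.univ`. -/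
theorem hat_mem {J Ω : Type} {𝓑 : Set (Set (Ω × FreeGroup J))} (hB : Alg (fsh Ω J) 𝓑)
    (g : Equiv.Perm (Ω × FreeGroup J)) (s : Ω × FreeGroup J → FreeGroup J)
    (hs : (Set.range s).Finite) (hs' : ∀ w, s ⁻¹' {w} ∈ 𝓑) (hg : ∀ y, g y = (y.1, s y * y.2)) :
    hat g ∈ BQ 𝓑 := by
  refine ⟨hat_FH g, ?_⟩
  have hgf : ∀ y, g y = fac Ω J (s y) y := hg
  have hgs : ∀ z, g (g.symm z) = z := fun z => g.apply_symm_apply z
  obtain ⟨Bw, hBw⟩ : ∃ Bw : FreeGroup J → Set (Ω × FreeGroup J),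
      ∀ w z, z ∈ Bw w ↔ s (g.symm z) = w := ⟨fun w => {z | s (g.symm z) = w}, fun _ _ => Iff.rfl⟩
  have hmem : ∀ w y, g y ∈ Bw w ↔ s y = w := by
    intro w y
    rw [hBw, g.symm_apply_apply]
  have hfac : ∀ w y, fac Ω J w y ∈ Bw w ↔ s y = w := by
    intro w y
    constructor
    · intro h
      rw [hBw] at h
      have h1 : fac Ω J w y = fac Ω J w (g.symm (fac Ω J w y)) := by
        have h2 := hgf (g.symm (fac Ω J w y))
        rw [hgs, h] at h2
        exact h2
      have h2 : y = g.symm (fac Ω J w y) := (fac Ω J w).injective h1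
      rw [h2]
      exact h
    · intro h
      have h1 : g y = fac Ω J w y := by rw [hgf, h]
      rw [← h1]
      exact (hmem w y).2 h
  -- the pieces
  have hBmem : ∀ w, Bw w ∈ 𝓑 := by
    intro w
    have h1 : Bw w = (fun y : Ω × FreeGroup J => (y.1, w⁻¹ * y.2)) ⁻¹' (s ⁻¹' {w}) := by
      ext z
      show z ∈ Bw w ↔ s (z.1, w⁻¹ * z.2) = w
      have h2 : fac Ω J w (z.1, w⁻¹ * z.2) = z := by
        rw [fac_apply]
        show (z.1, w * (w⁻¹ * z.2)) = z
        rw [mul_inv_cancel_left]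
      have h3 := hfac w (z.1, w⁻¹ * z.2)
      rw [h2] at h3
      exact h3
    rw [h1]
    exact loc_pre hB _ _ (hs' w)
  have htau : ∀ w, tau g (Bw w) ∈ BR 𝓑 := by
    intro w
    have h1 : tau g (Bw w) = tau (fac Ω J w) (Bw w) := by
      refine tau_congr g (fac Ω J w) (Bw w) (fun y => ?_) (fun y hy => ?_)
      · rw [hmem, hfac]
      · rw [hgf, (hmem w y).1 hy]
    rw [h1]
    exact tau_fac_mem hB w _ (hBmem w)
  have hind : ∀ W : Set (FreeGroup J), W.Finite → (⋃ w ∈ W, Bw w) ∈ 𝓑 ∧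
      tau g (⋃ w ∈ W, Bw w) ∈ BR 𝓑 := by
    intro W hW
    induction W, hW using Set.Finite.induction_on with
    | empty =>
      rw [Set.biUnion_empty, tau_empty]
      exact ⟨hB.empty, one_mem _⟩
    | @insert w W hw _ ih =>
      rw [Set.biUnion_insert, Set.union_comm]
      refine ⟨hB.union _ ih.1 _ (hBmem w), ?_⟩
      have hd : Disjoint (⋃ w ∈ W, Bw w) (Bw w) := by
        rw [Set.disjoint_left]
        intro z hz hz'
        obtain ⟨w', hw', hz2⟩ := Set.mem_iUnion₂.1 hz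
        rw [hBw] at hz' hz2
        apply hw
        rw [← hz', hz2]
        exact hw'
      rw [tau_union g _ _ hd]
      refine mul_mem (mul_mem (htau w) ?_) ih.2
      have h1 : (fun y => swp (y ∈ (⋃ w ∈ W, Bw w) ∧ g y ∈ Bw w)) =
          fun y => swp (y ∈ (⋃ w ∈ W, Bw w) ∩ s ⁻¹' {w}) := by
        funext y
        have h2 : (g y ∈ Bw w) = (y ∈ s ⁻¹' {w}) := propext (hmem w y)
        rw [h2]
        rfl
      rw [h1]
      exact bp_swp_mem _ (hB.inter _ _ ih.1 (hs' w))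
  have huniv : (⋃ w ∈ Set.range s, Bw w) = Set.univ := by
    ext z
    simp only [Set.mem_univ, iff_true]
    exact Set.mem_iUnion₂.2 ⟨s (g.symm z), ⟨_, rfl⟩, (hBw _ _).2 rfl⟩
  have h1 := (hind (Set.range s) hs).2
  rw [huniv, tau_univ] at h1
  exact h1

end Pool.Agent.H13.FG
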