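import Pool.Agent.H13.FG.Fre

/-!
# Free groups of infinite rank
-/

set_option autoImplicit false

open Classical

namespace Pool.Agent.H13.FG

open Pool.Agent.H13.TFG

private theorem inf_letters {J : Type} (w : FreeGroup J) : ∃ S : Finset J, ∀ T : Finset J, S ⊆ T →
    w ∈ (FreeGroup.map (Subtype.val : {x // x ∈ T} → J)).range := by
  induction w using FreeGroup.induction_on with
  | C1 => exact ⟨∅, fun T _ => Subgroup.one_mem _⟩
  | of x =>
    refine ⟨{x}, fun T hT => ⟨FreeGroup.of ⟨x, hT (Finset.mem_singleton_self x)⟩, ?_⟩⟩
    exact FreeGroup.map.of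
  | inv_of x ih =>
    obtain ⟨S, hS⟩ := ih
    exact ⟨S, fun T hT => Subgroup.inv_mem _ (hS T hT)⟩
  | mul x y hx hy =>
    obtain ⟨S, hS⟩ := hx
    obtain ⟨S', hS'⟩ := hy
    exact ⟨S ∪ S', fun T hT => Subgroup.mul_mem _ (hS T (Finset.union_subset_left hT))
      (hS' T (Finset.union_subset_right hT))⟩

/-- Proof. `RaagClass.of_local` for `H`. Let `s` be a finite subset of `H`. The values of `a h`, `h ∈ s`, are finitely many
elements of `FreeGroup J` (`IsLocallyConstant.range_finite`), so there is a finite set `J₀` of letters such that all these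
values lie in the range of `ι := FreeGroup.map (Subtype.val : J₀ → J)` (the letters of the reduced words; `FreeGroup.induction_on`:
each element of `FreeGroup J` lies in such a range, and directedness: the range for `J₀` is contained in the range for
`J₁ ⊇ J₀`). Let `K` be the set of the `h ∈ H` with all values of `a h` in the range of `ι`; it is a subgroup
(`a (g * h) x = a g (β h x) * a h x`, `a h⁻¹ x = (a h (β h⁻¹ x))⁻¹`, `a 1 x = 1`) which contains `s`. `ι` is injective
(`FreeGroup.map.injective` or a similar name; or: composed with the homomorphism `FreeGroup J →* FreeGroup J₀` which kills the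
other letters it is the identity). Let `a₀ h x` be the preimage of `a h x` under `ι`, for `h ∈ K`: this is a cocycle for
`α.comp ι` and the restriction of `β` to `K`; `Mea (α.comp ι)` is clear. So `C K` by `fre_good` for `J₀`. -/
theorem inf_good {C : (G : Type) → [Group G] → Prop} (hC : RaagClass C) (J : Type) :
    Good C (FreeGroup J) := by
  intro X _ _ α hα hM H _ β a hc
  refine hC.of_local (fun s => ?_)
  have hfin : (⋃ h ∈ (s : Set H), Set.range (a h)).Finite :=
    s.finite_toSet.biUnion fun h _ => (hc.loc h).range_finite
  choose S hS using (inf_letters (J := J))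
  set J₀ : Finset J := hfin.toFinset.biUnion S with hJ₀
  set ι : FreeGroup {x // x ∈ J₀} →* FreeGroup J := FreeGroup.map Subtype.val with hι
  have hinj : Function.Injective ι := FreeGroup.map_injective Subtype.val_injective
  have hval : ∀ h ∈ s, ∀ x, a h x ∈ ι.range := by
    intro h hh x
    apply hS
    intro y hy
    rw [hJ₀, Finset.mem_biUnion]
    refine ⟨a h x, ?_, hy⟩
    rw [Set.Finite.mem_toFinset, Set.mem_iUnion₂]
    exact ⟨h, hh, x, rfl⟩
  have h1 : ∀ x, a 1 x = 1 := by
    intro x
    have h2 := hc.mul 1 1 x
    rw [map_one, Equiv.Perm.one_apply, mul_one] at h2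
    exact (mul_eq_left.1 h2.symm)
  have h3 : ∀ h x, a h⁻¹ x = (a h (β h⁻¹ x))⁻¹ := by
    intro h x
    have h4 := hc.mul h h⁻¹ x
    rw [mul_inv_cancel, h1] at h4
    exact eq_inv_of_mul_eq_one_right h4.symm
  let K : Subgroup H :=
    { carrier := {h | ∀ x, a h x ∈ ι.range}
      one_mem' := by
        intro x
        rw [h1]
        exact Subgroup.one_mem _
      mul_mem' := by
        intro g h hg hh x
        rw [hc.mul]
        exact Subgroup.mul_mem _ (hg _) (hh _)
      inv_mem' := by
        intro h hh x
        rw [h3]
        exact Subgroup.inv_mem _ (hh _) }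
  refine ⟨K, ?_, fun h hh => hval h hh⟩
  have hK : ∀ (h : K) (x : X), ι (Function.invFun ι (a h x)) = a h x := fun h x =>
    Function.invFun_eq (h.2 x)
  refine fre_good hC {x // x ∈ J₀} X (α.comp ι) (fun g => hα (ι g)) ?_ K (β.comp K.subtype)
    (fun h x => Function.invFun ι (a h x)) ?_
  · intro A hA hne
    obtain ⟨m, m1, m2, m3, m4⟩ := hM A hA hne
    exact ⟨m, m1, m2, fun g B hB => m3 (ι g) B hB, m4⟩
  · refine ⟨?_, ?_, ?_, ?_⟩
    · intro h x
      show β h x = α (ι (Function.invFun ι (a h x))) x
      rw [hK h x]
      exact hc.act h x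
    · intro g h x
      apply hinj
      show ι (Function.invFun ι (a ((g * h : K) : H) x)) = ι (Function.invFun ι (a g (β h x)) *
        Function.invFun ι (a h x))
      rw [map_mul, hK (g * h) x, hK g, hK h]
      exact hc.mul g h x
    · intro h hh
      apply Subtype.ext
      apply hc.inj
      intro x
      have h5 : Function.invFun ι (a h x) = 1 := hh x
      rw [← hK h x, h5, map_one]
    · intro h
      exact (hc.loc h).comp (Function.invFun ι)

end Pool.Agent.H13.FG
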