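import Pool.Agent.H13.FG.Defs

/-!
# The products `LA` of generators of labels

`LA j c φ A` is the product (`Finset.noncommProd`, over the finite set `A`) of the commuting elements
`g1 (lb j (c ⁻¹' {k}) φ)`, `k ∈ A`.
-/

set_option autoImplicit false

open Classical

namespace Pool.Agent.H13.FG

open Pool.Agent.H13.TFG Pool.Agent.H13.BD

variable {J Y V : Type} [Finite V] (j : J) (c : Y → V)

theorem lax_def (φ : Y ↪ Y × ℕ) (A : Set V) (s : Finset V) (hs : ∀ k, k ∈ s ↔ k ∈ A) :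
    LA j c φ A = s.noncommProd (fun k => g1 (lb j (c ⁻¹' {k}) φ)) (lb_pw j c φ s) := by
  have h1 : (Set.toFinite A).toFinset = s := by
    ext k
    rw [Set.Finite.mem_toFinset, hs]
  unfold LA
  exact Finset.noncommProd_congr h1 (fun _ _ => rfl) _

theorem lax_self (φ : Y ↪ Y × ℕ) (A : Set V) :
    LA j c φ A = (Set.toFinite A).toFinset.noncommProd (fun k => g1 (lb j (c ⁻¹' {k}) φ))
      (lb_pw j c φ _) := rfl

theorem LA_union (φ : Y ↪ Y × ℕ) (A B : Set V) (h : Disjoint A B) :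
    LA j c φ (A ∪ B) = LA j c φ A * LA j c φ B := by
  have h1 : Disjoint (Set.toFinite A).toFinset (Set.toFinite B).toFinset := by
    rw [Finset.disjoint_left]
    intro k hk hk'
    rw [Set.Finite.mem_toFinset] at hk hk'
    exact Set.disjoint_left.1 h hk hk'
  rw [lax_def j c φ (A ∪ B) ((Set.toFinite A).toFinset ∪ (Set.toFinite B).toFinset) (fun k => by
    rw [Finset.mem_union, Set.Finite.mem_toFinset, Set.Finite.mem_toFinset, Set.mem_union]),
    Finset.noncommProd_union_of_disjoint h1, lax_self j c φ A, lax_self j c φ B]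

/-- the factors are equal: `lb j (c ⁻¹' {k}) φ = lb j (c ⁻¹' {k}) φ'` for `k ∈ A` -/
theorem LA_congr (φ φ' : Y ↪ Y × ℕ) (A : Set V) (h : ∀ b, c b ∈ A → φ b = φ' b) :
    LA j c φ A = LA j c φ' A := by
  rw [lax_self j c φ A, lax_self j c φ' A]
  refine Finset.noncommProd_congr rfl (fun k hk => ?_) _
  rw [Set.Finite.mem_toFinset] at hk
  have h1 : lb j (c ⁻¹' {k}) φ = lb j (c ⁻¹' {k}) φ' := by
    funext b
    unfold lb
    by_cases hb : b.1 = j ∧ b.2 ∈ c ⁻¹' {k}
    · rw [if_pos hb, if_pos hb, h b.2]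
      rw [(hb.2 : c b.2 = k)]
      exact hk
    · rw [if_neg hb, if_neg hb]
  rw [h1]

theorem LA_act (φ : Y ↪ Y × ℕ) (g : Equiv.Perm (Y × ℕ)) (A : Set V) :
    raagAct (tg J Y) (Equiv.Perm (Y × ℕ)) (tg_smul J Y) g (LA j c φ A) =
      LA j c (φ.trans g.toEmbedding) A := by
  rw [lax_self j c φ A, lax_self j c (φ.trans g.toEmbedding) A, Finset.map_noncommProd]
  refine Finset.noncommProd_congr rfl (fun k _ => ?_) _
  rw [g1_act, smul_lb]
  rfl

/-- all factors commute by `g1_comm` (the labels have no common token); `Finset.noncommProd_commute` twice -/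
theorem LA_comm (j j' : J) (φ φ' : Y ↪ Y × ℕ) (A B : Set V)
    (h : ∀ b b', c b ∈ A → c b' ∈ B → φ b ≠ φ' b') :
    LA j c φ A * LA j' c φ' B = LA j' c φ' B * LA j c φ A := by
  rw [lax_self j c φ A, lax_self j' c φ' B]
  refine Finset.noncommProd_commute _ _ _ _ fun k' hk' => ?_
  refine (Finset.noncommProd_commute _ _ _ _ fun k hk => ?_).symm
  rw [Set.Finite.mem_toFinset] at hk hk'
  refine g1_comm ?_
  intro b' b t h1 h2
  obtain ⟨hb', h3⟩ := lb_eq_some.1 h1
  obtain ⟨hb, h4⟩ := lb_eq_some.1 h2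
  refine h b.2 b'.2 ?_ ?_ (h4.trans h3.symm)
  · rw [(hb.2 : c b.2 = k)]
    exact hk
  · rw [(hb'.2 : c b'.2 = k')]
    exact hk'

theorem LA_single (φ : Y ↪ Y × ℕ) (k : V) : LA j c φ {k} = g1 (lb j (c ⁻¹' {k}) φ) := by
  rw [lax_def j c φ {k} {k} (fun k' => by rw [Finset.mem_singleton, Set.mem_singleton_iff]),
    Finset.noncommProd_singleton]

theorem LA_empty (φ : Y ↪ Y × ℕ) : LA j c φ ∅ = 1 := by
  rw [lax_def j c φ ∅ ∅ (fun k' => by simp), Finset.noncommProd_empty]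

/-- all labels are empty -/
theorem LA_eq_one (φ : Y ↪ Y × ℕ) (A : Set V) (h : ∀ b, c b ∉ A) : LA j c φ A = 1 := by
  rw [lax_self j c φ A, Finset.noncommProd_eq_pow_card _ _ _ 1, one_pow]
  intro k hk
  rw [Set.Finite.mem_toFinset] at hk
  unfold g1
  rw [if_pos]
  intro b
  unfold lb
  rw [if_neg]
  intro hb
  apply h b.2
  rw [(hb.2 : c b.2 = k)]
  exact hk

/-- colours which are not used do not matter: `A = (A ∩ B) ∪ (A \ B)`, and `LA_eq_one` for `A \ B`, `B \ A` -/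
theorem LA_used (φ : Y ↪ Y × ℕ) (A B : Set V) (h : ∀ b, c b ∈ A ↔ c b ∈ B) :
    LA j c φ A = LA j c φ B := by
  have key : ∀ A B : Set V, (∀ b, c b ∈ A ↔ c b ∈ B) → LA j c φ A = LA j c φ (A ∩ B) := by
    intro A B h
    have h1 : A = (A ∩ B) ∪ (A \ B) := (Set.inter_union_sdiff A B).symm
    have h2 : Disjoint (A ∩ B) (A \ B) := Set.disjoint_left.2 fun k hk hk' => hk'.2 hk.2
    have h3 : LA j c φ (A \ B) = 1 := LA_eq_one j c φ _ fun b hb => hb.2 ((h b).1 hb.1)
    conv_lhs => rw [h1]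
    rw [LA_union j c φ _ _ h2, h3, mul_one]
  rw [key A B h, key B A fun b => (h b).symm, Set.inter_comm]

end Pool.Agent.H13.FG
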