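import Pool.Agent.H13.FG.Apx
import Pool.Agent.H13.FG.Dye
import Pool.Agent.H13.FG.Hat
import Pool.Agent.H13.FG.Col

/-!
# Groups which are piecewise in a free group
-/

set_option autoImplicit false

open Classical

namespace Pool.Agent.H13.FG

open Pool.Agent.H98.FJ Pool.Agent.H13.TFG Pool.Agent.H13.BD

theorem mai_rf_id {J V : Type} (π : V → V) (hπ : ∀ v, π v = v) (p : PP J V) : rf π p = p := by
  obtain rfl : π = id := funext hπ
  have h1 : (Sum.map (fun (e : Lt J V → Fin1) l => e (ltm id l)) (fun p => (p.1, id ⁻¹' p.2)) :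
      Gn J V → Gn J V) = id := by
    funext x
    rcases x with e | A
    · rfl
    · rfl
  unfold rf
  rw [h1]
  exact FreeGroup.map.id p

theorem mai_rf_comp {J V V' V'' : Type} (π : V' → V) (π' : V'' → V') (π'' : V'' → V)
    (h : ∀ v, π'' v = π (π' v)) (p : PP J V) : rf π' (rf π p) = rf π'' p := by
  obtain rfl : π'' = fun v => π (π' v) := funext h
  unfold rf
  rw [FreeGroup.map.comp]
  have h1 : ((Sum.map (fun (e : Lt J V' → Fin1) l => e (ltm π' l))
      (fun p => (p.1, π' ⁻¹' p.2))) ∘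
      (Sum.map (fun (e : Lt J V → Fin1) l => e (ltm π l)) (fun p => (p.1, π ⁻¹' p.2))) :
        Gn J V → Gn J V'') =
      Sum.map (fun (e : Lt J V → Fin1) l => e (ltm (fun v => π (π' v)) l))
        (fun p => (p.1, (fun v => π (π' v)) ⁻¹' p.2)) := by
    funext x
    rcases x with e | A
    · rfl
    · rfl
  rw [h1]

section

variable {J Ω : Type} {𝓑 : Set (Set (Ω × FreeGroup J))}

instance : IsDirectedOrder (Ix 𝓑) := by
  refine ⟨fun i j => ⟨⟨i.1 ∪ j.1, fun A hA => ?_⟩, ?_, ?_⟩⟩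
  · rcases Finset.mem_union.1 hA with h | h
    · exact i.2 A h
    · exact j.2 A h
  · exact Subtype.coe_le_coe.1 Finset.subset_union_left
  · exact Subtype.coe_le_coe.1 Finset.subset_union_right

instance : Nonempty (Ix 𝓑) := ⟨⟨∅, fun A hA => absurd hA (Finset.notMem_empty A)⟩⟩

theorem mai_Ph {i j : Ix 𝓑} (h : i ≤ j) (p : PP J (i.1 → Prop)) :
    (ysys (cl j.1)).Ph (rf (rs h) p) = (ysys (cl i.1)).Ph p :=
  Ph_rf (rs h) (ysys (cl j.1)) p

/-- the transition maps -/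
noncomputable def maiR (i j : Ix 𝓑) (h : i ≤ j) :
    P0 (J := J) (cl i.1) →* P0 (J := J) (cl j.1) :=
  ((rf (rs h)).comp (P0 (cl i.1)).subtype).codRestrict (P0 (cl j.1)) (fun x => by
    have h1 : (ysys (cl i.1)).Ph x.1 ∈ FH (Ω × FreeGroup J) := x.2
    rw [← mai_Ph h x.1] at h1
    exact h1)

theorem maiR_val (i j : Ix 𝓑) (h : i ≤ j) (x : P0 (J := J) (cl i.1)) :
    (maiR i j h x).1 = rf (rs h) x.1 := rfl

/-- the maps to the colimit -/
noncomputable def maiPhi (i : Ix 𝓑) : P0 (J := J) (cl i.1) →* BQ 𝓑 :=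
  ((ysys (cl i.1)).Ph.comp (P0 (cl i.1)).subtype).codRestrict (BQ 𝓑)
    (fun x => ⟨x.2, i, x.1, rfl⟩)

theorem maiPhi_val (i : Ix 𝓑) (x : P0 (J := J) (cl i.1)) :
    (maiPhi i x).1 = (ysys (cl i.1)).Ph x.1 := rfl

variable [Finite J] (hB : Alg (fsh Ω J) 𝓑)

theorem mai_die (i : Ix 𝓑) (p : PP J (i.1 → Prop)) (hp : (ysys (cl i.1)).Ph p = 1) :
    ∃ (j : Ix 𝓑) (h : i ≤ j), (mdl hB (cl j.1) (alg_cl hB j)).ev (rf (rs h) p) = 1 := by
  obtain ⟨Q, hQ, q, hq, H⟩ := dye hB (cl i.1) (alg_cl hB i) p hp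
  have hQf : Fintype Q := Fintype.ofFinite Q
  let j : Ix 𝓑 := ⟨i.1 ∪ Finset.univ.image (fun κ : Q => q ⁻¹' {κ}), fun A hA => by
    rcases Finset.mem_union.1 hA with h | h
    · exact i.2 A h
    · obtain ⟨κ, -, rfl⟩ := Finset.mem_image.1 h
      exact hq κ⟩
  have hij : i ≤ j := Subtype.coe_le_coe.1 Finset.subset_union_left
  refine ⟨j, hij, ?_⟩
  have h1 : (ysys (cl j.1)).ev (rf (rs hij) p) = 1 := by
    refine H (j.1 → Prop) (cl j.1) (rs hij) (fun y => rs_cl hij y) ?_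
    intro y y' hy
    have hD : q ⁻¹' {q y} ∈ j.1 := Finset.mem_union_right _
      (Finset.mem_image_of_mem _ (Finset.mem_univ (q y)))
    have h2 := congrFun hy ⟨q ⁻¹' {q y}, hD⟩
    have h3 : y' ∈ q ⁻¹' {q y} := h2.mp rfl
    exact (Set.mem_singleton_iff.1 h3).symm
  have h2 := mlp id (ysys (cl j.1)) (mdl hB (cl j.1) (alg_cl hB j)) (fun l h => by
    exact (mdl_ty hB (cl j.1) (alg_cl hB j) l).1 h) (rf (rs hij) p) h1
  rwa [mai_rf_id id (fun _ => rfl)] at h2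

include hB in
theorem bq_mem {C : (G : Type) → [Group G] → Prop} (hC : RaagClass C) : C (BQ 𝓑) := by
  have hmm : ∀ (i : Ix 𝓑) (x : P0 (J := J) (cl i.1)),
      x ∈ N0 hB (cl i.1) (alg_cl hB i) ↔ (mdl hB (cl i.1) (alg_cl hB i)).ev x.1 = 1 :=
    fun i x => mem_N0 hB (cl i.1) (alg_cl hB i) x
  refine col hC (ι := Ix 𝓑) (fun i => P0 (J := J) (cl i.1)) maiR ?_ ?_ (BQ 𝓑) maiPhi ?_
    (fun i => N0 hB (cl i.1) (alg_cl hB i)) ?_ ?_ ?_ ?_
    (fun i => apx hB (cl i.1) (alg_cl hB i) hC)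
  · intro i h x
    apply Subtype.ext
    rw [maiR_val]
    exact mai_rf_id _ (fun _ => rfl) _
  · intro i j k hij hjk hik x
    apply Subtype.ext
    rw [maiR_val, maiR_val, maiR_val]
    exact mai_rf_comp (rs hij) (rs hjk) (rs hik) (fun _ => rfl) x.1
  · intro i j h x
    apply Subtype.ext
    rw [maiPhi_val, maiPhi_val, maiR_val]
    exact mai_Ph h x.1
  · intro i x hx
    apply Subtype.ext
    have h1 := (hmm i x).1 hx
    have h2 := mlp id (mdl hB (cl i.1) (alg_cl hB i)) (ysys (cl i.1)) (fun l h =>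
      (mdl_ty hB (cl i.1) (alg_cl hB i) l).2 h) x.1 h1
    rw [mai_rf_id id (fun _ => rfl)] at h2
    rw [maiPhi_val]
    have h3 := ev_right (ysys (cl i.1)) x.1
    rw [h2] at h3
    exact h3.symm
  · intro i j h x hx
    refine (hmm j _).2 ?_
    rw [maiR_val]
    refine mlp (rs h) (mdl hB (cl i.1) (alg_cl hB i)) (mdl hB (cl j.1) (alg_cl hB j)) ?_ x.1
      ((hmm i x).1 hx)
    rintro _ ⟨z, rfl⟩
    refine (mdl_ty hB (cl i.1) (alg_cl hB i) _).2 ?_
    obtain ⟨y, hy⟩ := (mdl_ty hB (cl j.1) (alg_cl hB j)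
      ((mdl hB (cl j.1) (alg_cl hB j)).lt z)).1 ⟨z, rfl⟩
    refine ⟨y, ?_⟩
    change ltm (rs h) ((ysys (cl j.1)).lt y) = _
    rw [hy]
    rfl
  · rintro ⟨q, hq, i, p, hp⟩
    refine ⟨i, ⟨p, ?_⟩, Subtype.ext hp⟩
    have h1 : (ysys (cl i.1)).Ph p ∈ FH (Ω × FreeGroup J) := by
      rw [hp]
      exact hq
    exact h1
  · intro i x hx
    have hp : (ysys (cl i.1)).Ph x.1 = 1 := congrArg Subtype.val hx
    obtain ⟨j, h, h1⟩ := mai_die hB i x.1 hp
    exact ⟨j, h, (hmm j _).2 (by rw [maiR_val]; exact h1)⟩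

include hB in
/-- **The combinatorial main theorem.** A group of permutations of `Ω × FreeGroup J` which are piecewise in the free
group with pieces in the algebra `𝓑`, is in the class. -/
theorem comb_mem {C : (G : Type) → [Group G] → Prop} (hC : RaagClass C)
    (H : Type) [Group H] (ρ : H →* Equiv.Perm (Ω × FreeGroup J)) (hρ : Function.Injective ρ)
    (hs : ∀ h, ∃ s : Ω × FreeGroup J → FreeGroup J, (Set.range s).Finite ∧
      (∀ w, s ⁻¹' {w} ∈ 𝓑) ∧ ∀ y, ρ h y = (y.1, s y * y.2)) : C H := by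
  let j : H →* BQ 𝓑 := (hat.comp ρ).codRestrict (BQ 𝓑) (fun h => by
    obtain ⟨s, h1, h2, h3⟩ := hs h
    exact hat_mem hB (ρ h) s h1 h2 h3)
  refine hC.of_injective j ?_ (bq_mem hB hC)
  intro g h hgh
  apply hρ
  apply Equiv.ext
  intro y
  have h1 : hat (ρ g) = hat (ρ h) := congrArg Subtype.val hgh
  have h2 := DFunLike.congr_fun h1 (y, 0)
  rw [hat_zero, hat_zero] at h2
  exact congrArg Prod.fst h2

end

end Pool.Agent.H13.FG
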