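import Pool.Agent.H13.FG.Defs

/-!
# Finite systems with given numbers of local types
-/

set_option autoImplicit false

open Classical

namespace Pool.Agent.H13.FG

open Pool.Agent.H13.BD

private theorem mat_card {L : Type} [Fintype L] (n : L → ℕ) (P : L → Prop) :
    Fintype.card {z : (Σ l : L, Fin (n l)) // P z.1} =
      ∑ l ∈ Finset.univ.filter P, n l := by
  rw [Fintype.card_subtype]
  have h : (Finset.univ.filter fun z : (Σ l : L, Fin (n l)) => P z.1) =
      (Finset.univ.filter P).sigma (fun l => (Finset.univ : Finset (Fin (n l)))) := by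
    ext z
    simp
  rw [h, Finset.card_sigma]
  refine Finset.sum_congr rfl fun l _ => ?_
  rw [Finset.card_univ, Fintype.card_fin]

/-- Proof. `Z := Σ l : Lt J V, Fin (n l)`, `c z := z.1.1`. For `j : J` let `T j` be a permutation of `Z` with
`c (T j z) = z.1.2 j` for all `z`: it exists as for all `v` the finite sets `{z | z.1.2 j = v}` and `{z | z.1.1 = v}` have the same
cardinality (`hn`; the cardinality of `{z | P z.1}` is the sum of the `n l` over the `l` with `P l`), for instance
`Equiv.ofFiberEquiv` (with `Equiv.ofFiberEquiv_map`). Then `lt z = z.1`, and `Ty l ↔ 0 < n l`. -/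
theorem mat_exists {J V : Type} [Fintype (Lt J V)] (n : Lt J V → ℕ)
    (hn : ∀ (j : J) (v : V), ∑ l ∈ Finset.univ.filter (fun l : Lt J V => l.2 j = v), n l =
      ∑ l ∈ Finset.univ.filter (fun l : Lt J V => l.1 = v), n l) :
    ∃ R : Sys J V, Finite R.Z ∧ ∀ l, R.Ty l ↔ 0 < n l := by
  have he : ∀ (j : J) (v : V), Nonempty
      ({z : (Σ l : Lt J V, Fin (n l)) // z.1.2 j = v} ≃
        {z : (Σ l : Lt J V, Fin (n l)) // z.1.1 = v}) := by
    intro j v
    refine ⟨Fintype.equivOfCardEq ?_⟩
    have h1 := mat_card n (fun l : Lt J V => l.2 j = v)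
    have h2 := mat_card n (fun l : Lt J V => l.1 = v)
    exact h1.trans ((hn j v).trans h2.symm)
  let T : J → Equiv.Perm (Σ l : Lt J V, Fin (n l)) := fun j =>
    Equiv.ofFiberEquiv (f := fun z : (Σ l : Lt J V, Fin (n l)) => z.1.2 j)
      (g := fun z : (Σ l : Lt J V, Fin (n l)) => z.1.1) (fun v => (he j v).some)
  have hT : ∀ (j : J) (z : (Σ l : Lt J V, Fin (n l))), (T j z).1.1 = z.1.2 j := fun j z =>
    Equiv.ofFiberEquiv_map (f := fun z : (Σ l : Lt J V, Fin (n l)) => z.1.2 j)
      (g := fun z : (Σ l : Lt J V, Fin (n l)) => z.1.1) (fun v => (he j v).some) z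
  let R : Sys J V := ⟨Σ l : Lt J V, Fin (n l), T, fun z => z.1.1⟩
  have hlt : ∀ z : R.Z, R.lt z = z.1 := by
    intro z
    show (z.1.1, fun j => (T j z).1.1) = z.1
    have h1 : (fun j => (T j z).1.1) = z.1.2 := funext fun j => hT j z
    rw [h1]
  refine ⟨R, ?_, ?_⟩
  · show Finite (Σ l : Lt J V, Fin (n l))
    infer_instance
  · intro l
    constructor
    · rintro ⟨z, hz⟩
      rw [hlt] at hz
      subst hz
      exact Fin.pos z.2
    · intro h
      exact ⟨⟨l, ⟨0, h⟩⟩, hlt _⟩

end Pool.Agent.H13.FG
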