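import Pool.Agent.H13.FG.Fin

/-!
# Topological full groups of measure preserving actions, and the Farrell-Jones conjecture for A-theory

Let the group `Γ` be a directed colimit of virtually free groups (for example free, virtually free, locally free, a
lamplighter group, or locally finite-by-virtually free), and let `Γ` act by homeomorphisms on a compact space `X` such
that each nonempty clopen set has positive measure for some invariant probability measure. Then all subgroups of the
topological full group of the transformation groupoid of the action belong to every class of groups which contains the
right-angled Artin groups of finite graphs and is closed under isomorphism, subgroups, overgroups of finite index and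
directed colimits. The class of the groups satisfying the Farrell-Jones conjecture for A-theory with coefficients and
finite wreath products is such a class. If the action is topologically free then this topological full group is the
group of all homeomorphisms `g` of `X` with `g x = s x • x` for a locally constant `s : X → Γ`.

Proof: the acting group may be assumed to be free on a finite set `J`, and to act on `Y = Ω × FreeGroup J` from the
left, with the algebra of the clopen sets pulled back to `Y`. Each element of `Y` carries slots `0, 1, 2, …`; a token
move takes the token of the slot `0` of `y` to the slot `0` of `T_j y` for all `y` with `T_j y` in a set `B` of the
algebra. The token moves and the permutations of the slots which depend on finitely many colours satisfy commutation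
relations; the group they define, for every finite colouring, embeds in a semidirect product of a right-angled Artin
group (its generators are the partial functions from `J × Y` to the tokens) and the permutations of the tokens. So it
depends only on the local types of the coloured system `Y`, and these are the local types of a finite system, because
the measures of the types solve the integer balance equations. So the approximations are subgroups of
(right-angled Artin group) by (locally finite) groups. An element which dies in the group of the permutations of the
slots of `Y` dies in the approximation of a finer colouring, as the tokens move in a tree.
-/

set_option autoImplicit false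

namespace Pool.Agent.H13.FG.MeasuredFullGroups

open MeasureTheory Pool.Agent.H98.FJ Pool.Agent.H13.TFG Pool.Agent.H13.FG

theorem result (C : (G : Type) → [Group G] → Prop) (hC : RaagClass C)
    -- the acting group is a directed colimit of virtually free groups
    (ι : Type) [Preorder ι] (G : ι → Type) [∀ i, Group (G i)]
    (f : ∀ i j, i ≤ j → (G i →* G j)) (Γ : Type) [Group Γ] (φ : ∀ i, G i →* Γ)
    (hΓ : IsColimit f φ) (hG : ∀ i, VFree (G i))
    -- it acts by homeomorphisms on a compact space with enough invariant measures
    (X : Type) [TopologicalSpace X] [CompactSpace X] [MeasurableSpace X] [BorelSpace X]
    [MulAction Γ X] [ContinuousConstSMul Γ X]
    (hμ : ∀ U : Set X, IsClopen U → U.Nonempty → ∃ μ : Measure X, IsProbabilityMeasure μ ∧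
      (∀ g : Γ, μ.map (g • ·) = μ) ∧ 0 < μ U)
    -- a group of maps which are locally given by elements of the acting group
    (H : Type) [Group H] [MulAction H X] (s : H → X → Γ) (hs : ∀ h, IsLocallyConstant (s h))
    (hact : ∀ (h : H) (x : X), h • x = s h x • x)
    (hcoc : (∀ (g h : H) (x : X), s (g * h) x = s g (h • x) * s h x) ∨
      ∀ γ : Γ, γ ≠ 1 → interior {x : X | γ • x = x} = ∅)
    (hinj : ∀ h, (∀ x, s h x = 1) → h = 1) : C H :=
  fin_mem s hC hΓ hG hμ hs hact hcoc hinj

end Pool.Agent.H13.FG.MeasuredFullGroups
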