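import Mathlib

/-!
# Positive integer solutions of linear equations with integer coefficients
-/

set_option autoImplicit false

open Classical

namespace Pool.Agent.H13.FG

/-- a rational point near a real point -/
theorem rat_near {d : ℕ} (b : Fin d → ℝ) {p : (Fin d → ℝ) → Prop}
    (h : ∀ᶠ w in nhds b, p w) : ∃ w : Fin d → ℚ, p fun k => (w k : ℝ) := by
  obtain ⟨ε, hε, h1⟩ := Metric.eventually_nhds_iff.1 h
  have h2 : ∀ k, ∃ r : ℚ, b k < r ∧ (r : ℝ) < b k + ε := fun k =>
    exists_rat_btwn (by linarith)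
  choose w hw1 hw2 using h2
  refine ⟨w, h1 ?_⟩
  rw [dist_pi_lt_iff hε]
  intro k
  rw [Real.dist_eq, abs_lt]
  exact ⟨by linarith [hw1 k], by linarith [hw2 k]⟩

/-- clearing denominators -/
theorem rat_clear {L I : Type} [Fintype L] (a : I → L → ℤ) (y : L → ℚ) (hy : ∀ l, 0 ≤ y l)
    (h : ∀ i, ∑ l, (a i l : ℚ) * y l = 0) :
    ∃ n : L → ℕ, (∀ l, 0 < n l ↔ 0 < y l) ∧ ∀ i, ∑ l, a i l * (n l : ℤ) = 0 := by
  obtain ⟨D, hD⟩ : ∃ D : ℕ, D = ∏ l, (y l).den := ⟨_, rfl⟩
  have hD0 : 0 < D := by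
    rw [hD]
    exact Finset.prod_pos fun l _ => (y l).den_pos
  have hDq : (0 : ℚ) < D := by exact_mod_cast hD0
  have hm : ∀ l, ∃ n : ℕ, (n : ℚ) = y l * D := by
    intro l
    have h1 : (y l).den ∣ D := by
      rw [hD]
      exact Finset.dvd_prod_of_mem _ (Finset.mem_univ l)
    obtain ⟨e, he⟩ := h1
    have h2 : (0 : ℤ) ≤ (y l).num := Rat.num_nonneg.2 (hy l)
    refine ⟨(y l).num.toNat * e, ?_⟩
    have h3 : (((y l).num.toNat : ℕ) : ℚ) = (y l).num := by
      have : (((y l).num.toNat : ℕ) : ℤ) = (y l).num := Int.toNat_of_nonneg h2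
      exact_mod_cast this
    have h4 : y l * (y l).den = (y l).num := Rat.mul_den_eq_num (y l)
    rw [he]
    push_cast
    rw [h3, ← h4]
    ring
  choose n hn using hm
  refine ⟨n, fun l => ?_, fun i => ?_⟩
  · constructor
    · intro h1
      have h2 : (0 : ℚ) < n l := by exact_mod_cast h1
      rw [hn l] at h2
      exact pos_of_mul_pos_left h2 hDq.le
    · intro h1
      have h2 : (0 : ℚ) < n l := by
        rw [hn l]
        exact mul_pos h1 hDq
      exact_mod_cast h2
  · have h1 : ((∑ l, a i l * (n l : ℤ) : ℤ) : ℚ) = 0 := by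
      push_cast
      calc ∑ l, (a i l : ℚ) * (n l : ℚ) = ∑ l, ((a i l : ℚ) * y l) * D := by
            refine Finset.sum_congr rfl fun l _ => ?_
            rw [hn l]
            ring
        _ = (∑ l, (a i l : ℚ) * y l) * D := (Finset.sum_mul _ _ _).symm
        _ = 0 := by rw [h i, zero_mul]
    exact_mod_cast h1

/-- If a system of homogeneous linear equations with integer coefficients has a nonnegative real solution then it has a
nonnegative integer solution with the same support.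

Proof. Let `W := Submodule.span ℚ (Set.range x)` (a subspace of the `ℚ`-vector space `ℝ`), which is finite-dimensional, and
let `b := Module.finBasis ℚ W`. Put `q l k := b.repr ⟨x l, _⟩ k : ℚ`, so `x l = ∑ k, q l k * (b k : ℝ)`. The set of the
`w : Fin d → ℝ` with `0 < ∑ k, q l k * w k` for all `l` with `0 < x l` is open (finite intersection of preimages of open
sets under continuous maps) and contains `k ↦ b k`. As `ℚ^d` is dense in `ℝ^d` (`Rat.denseRange_cast`, `DenseRange.piMap`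
or a similar lemma) there is `w : Fin d → ℚ` in this set. Let `y l := ∑ k, q l k * w k : ℚ`. Then `0 < y l` if `0 < x l`, and
`y l = 0` if `x l = 0` (then `q l = 0`). The equation `i` gives `∑ l, a i l • ⟨x l, _⟩ = 0` in `W`, hence
`∑ l, a i l * q l k = 0` for all `k`, and `∑ l, a i l * y l = 0`. Finally `n l := (y l * D).num.toNat` where `D` is the product of
the denominators of the `y l`. -/
theorem rat_exists {L I : Type} [Fintype L] (a : I → L → ℤ) (x : L → ℝ) (hx : ∀ l, 0 ≤ x l)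
    (h : ∀ i, ∑ l, (a i l : ℝ) * x l = 0) :
    ∃ n : L → ℕ, (∀ l, 0 < n l ↔ 0 < x l) ∧ ∀ i, ∑ l, a i l * (n l : ℤ) = 0 := by
  obtain ⟨W, hW⟩ : ∃ W : Submodule ℚ ℝ, W = Submodule.span ℚ (Set.range x) := ⟨_, rfl⟩
  have : FiniteDimensional ℚ W := by
    rw [hW]
    exact FiniteDimensional.span_of_finite ℚ (Set.finite_range x)
  have hmem : ∀ l, x l ∈ W := fun l => by
    rw [hW]
    exact Submodule.subset_span ⟨l, rfl⟩
  obtain ⟨b, -⟩ : ∃ b : Module.Basis (Fin (Module.finrank ℚ W)) ℚ W, b = b :=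
    ⟨Module.finBasis ℚ W, rfl⟩
  have hxq : ∀ l, x l = ∑ k, ((b.repr ⟨x l, hmem l⟩ k : ℚ) : ℝ) * ((b k : W) : ℝ) := by
    intro l
    have h1 := congrArg (fun w : W => (w : ℝ)) (b.sum_repr ⟨x l, hmem l⟩)
    have h2 : ((∑ k, b.repr ⟨x l, hmem l⟩ k • b k : W) : ℝ) = x l := h1
    refine h2.symm.trans ?_
    rw [Submodule.coe_sum]
    refine Finset.sum_congr rfl fun k _ => ?_
    rw [Submodule.coe_smul, Rat.smul_def]
  have hev : ∀ᶠ w : Fin (Module.finrank ℚ W) → ℝ in nhds (fun k => ((b k : W) : ℝ)),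
      ∀ l, 0 < x l → 0 < ∑ k, ((b.repr ⟨x l, hmem l⟩ k : ℚ) : ℝ) * w k := by
    rw [Filter.eventually_all]
    intro l
    by_cases hl : 0 < x l
    · have hc : Continuous (fun w : Fin (Module.finrank ℚ W) → ℝ =>
          ∑ k, ((b.repr ⟨x l, hmem l⟩ k : ℚ) : ℝ) * w k) :=
        continuous_finsetSum _ fun k _ => (continuous_const.mul (continuous_apply k))
      have h1 := hc.tendsto (fun k => ((b k : W) : ℝ))
      rw [← hxq l] at h1
      filter_upwards [h1.eventually (lt_mem_nhds hl)] with w hw _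
      exact hw
    · exact Filter.Eventually.of_forall fun w h1 => absurd h1 hl
  obtain ⟨w, hw⟩ := rat_near _ hev
  have hzero : ∀ l, ¬ 0 < x l → ∀ k, b.repr ⟨x l, hmem l⟩ k = 0 := by
    intro l hl k
    have h1 : (⟨x l, hmem l⟩ : W) = 0 := by
      apply Subtype.ext
      show x l = 0
      exact le_antisymm (not_lt.1 hl) (hx l)
    rw [h1, map_zero]
    rfl
  have hpos : ∀ l, 0 < x l → 0 < ∑ k, b.repr ⟨x l, hmem l⟩ k * w k := by
    intro l hl
    have h1 : (0 : ℝ) < ∑ k, ((b.repr ⟨x l, hmem l⟩ k : ℚ) : ℝ) * (w k : ℝ) := hw l hl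
    exact_mod_cast h1
  have hz : ∀ l, ¬ 0 < x l → ∑ k, b.repr ⟨x l, hmem l⟩ k * w k = 0 := by
    intro l hl
    refine Finset.sum_eq_zero fun k _ => ?_
    rw [hzero l hl k, zero_mul]
  have heq : ∀ i k, ∑ l, (a i l : ℚ) * b.repr ⟨x l, hmem l⟩ k = 0 := by
    intro i k
    have h1 : ∑ l, (a i l : ℚ) • (⟨x l, hmem l⟩ : W) = 0 := by
      apply Subtype.ext
      rw [Submodule.coe_sum, Submodule.coe_zero, ← h i]
      refine Finset.sum_congr rfl fun l _ => ?_
      rw [Submodule.coe_smul, Rat.smul_def]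
      push_cast
      rfl
    have h2 := congrArg (fun v : W => b.repr v k) h1
    have h3 : b.repr (∑ l, (a i l : ℚ) • (⟨x l, hmem l⟩ : W)) k = 0 := by
      have h4 : b.repr (∑ l, (a i l : ℚ) • (⟨x l, hmem l⟩ : W)) k = b.repr (0 : W) k := h2
      rw [h4, map_zero]
      rfl
    rw [map_sum, Finsupp.finsetSum_apply] at h3
    rw [← h3]
    refine Finset.sum_congr rfl fun l _ => ?_
    rw [map_smul, Finsupp.smul_apply, smul_eq_mul]
  obtain ⟨n, hn1, hn2⟩ := rat_clear a (fun l => ∑ k, b.repr ⟨x l, hmem l⟩ k * w k)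
    (fun l => by
      by_cases hl : 0 < x l
      · exact (hpos l hl).le
      · exact (hz l hl).ge)
    (fun i => by
      show ∑ l, (a i l : ℚ) * ∑ k, b.repr ⟨x l, hmem l⟩ k * w k = 0
      calc ∑ l, (a i l : ℚ) * ∑ k, b.repr ⟨x l, hmem l⟩ k * w k =
          ∑ l, ∑ k, (a i l : ℚ) * b.repr ⟨x l, hmem l⟩ k * w k := by
            refine Finset.sum_congr rfl fun l _ => ?_
            rw [Finset.mul_sum]
            exact Finset.sum_congr rfl fun k _ => by ring
        _ = ∑ k, ∑ l, (a i l : ℚ) * b.repr ⟨x l, hmem l⟩ k * w k := Finset.sum_comm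
        _ = ∑ k, (∑ l, (a i l : ℚ) * b.repr ⟨x l, hmem l⟩ k) * w k := by
            refine Finset.sum_congr rfl fun k _ => ?_
            rw [Finset.sum_mul]
        _ = 0 := Finset.sum_eq_zero fun k _ => by rw [heq i k, zero_mul])
  refine ⟨n, fun l => ?_, hn2⟩
  rw [hn1 l]
  constructor
  · intro h1
    by_contra hl
    have h2 : 0 < ∑ k, b.repr ⟨x l, hmem l⟩ k * w k := h1
    rw [hz l hl] at h2
    exact lt_irrefl _ h2
  · intro hl
    exact hpos l hl

end Pool.Agent.H13.FG
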