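import Pool.Agent.H13.FG.Alg
import Pool.Agent.H13.FG.Rat
import Pool.Agent.H13.FG.Mat

/-!
# Finite systems with the same local types
-/

set_option autoImplicit false

open Classical

namespace Pool.Agent.H13.FG

open Pool.Agent.H13.BD

/-- finite additivity -/
theorem mod_sum {J Y L : Type} {T : J → Equiv.Perm Y} {𝓑 : Set (Set Y)} (h : Alg T 𝓑)
    (m : Set Y → ℝ) (hadd : ∀ B ∈ 𝓑, ∀ C ∈ 𝓑, Disjoint B C → m (B ∪ C) = m B + m C)
    (F : L → Set Y) (hF : ∀ l, F l ∈ 𝓑) (hdis : ∀ l l', l ≠ l' → Disjoint (F l) (F l'))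
    (s : Finset L) :
    (⋃ l ∈ s, F l) ∈ 𝓑 ∧ m (⋃ l ∈ s, F l) = ∑ l ∈ s, m (F l) := by
  have h0 : m ∅ = 0 := by
    have h1 := hadd ∅ h.empty ∅ h.empty (Set.disjoint_empty ∅)
    rw [Set.union_empty] at h1
    linarith
  induction s using Finset.induction_on with
  | empty =>
    have h1 : (⋃ l ∈ (∅ : Finset L), F l) = ∅ := by simp
    rw [h1, Finset.sum_empty]
    exact ⟨h.empty, h0⟩
  | insert a s ha ih =>
    have h1 : (⋃ l ∈ insert a s, F l) = F a ∪ ⋃ l ∈ s, F l := by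
      rw [Finset.set_biUnion_insert]
    rw [h1, Finset.sum_insert ha, ← ih.2]
    refine ⟨h.union _ (hF a) _ ih.1, hadd _ (hF a) _ ih.1 ?_⟩
    rw [Set.disjoint_iUnion₂_right]
    intro l hl
    exact hdis a l fun h2 => ha (h2 ▸ hl)

/-- Proof. For `l : Lt J V` let `A l := {z | S.lt z = l}`. It is in `𝓑`: it is the intersection of `S.c ⁻¹' {l.1}` and of the
finitely many sets `S.T j ⁻¹' (S.c ⁻¹' {l.2 j})`. If `S.Ty l` then `A l` is nonempty; let `m l` be the measure given by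
`h.meas (A l)`. Put `x l' := ∑ l with S.Ty l, m l (A l')`. Then `0 ≤ x l'`, and `0 < x l'` iff `S.Ty l'` (if not, `A l' = ∅` and
`m ∅ = 0` by additivity: `m ∅ = m (∅ ∪ ∅) = m ∅ + m ∅`). For `j : J`, `v : V`: `∑ l' with l'.2 j = v, m l (A l')` is the measure of
the union of these disjoint sets, which is `S.T j ⁻¹' (S.c ⁻¹' {v})` (finite additivity, by induction on finite sets of
local types), and `∑ l' with l'.1 = v, m l (A l')` is the measure of `S.c ⁻¹' {v}`. By invariance both are equal. So `x` is a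
solution of the equations `∑ l', (ii (l'.2 j = v) - ii (l'.1 = v)) * x l' = 0`; `rat_exists` for `I := J × V`, and
`mat_exists`. -/
theorem mod_exists {J V : Type} [Finite J] [Finite V] (S : Sys J V) {𝓑 : Set (Set S.Z)}
    (h : Alg S.T 𝓑) (hc : ∀ v, S.c ⁻¹' {v} ∈ 𝓑) :
    ∃ R : Sys J V, Finite R.Z ∧ ∀ l, R.Ty l ↔ S.Ty l := by
  have hfin : Finite (Lt J V) := inferInstance
  let hft : Fintype (Lt J V) := Fintype.ofFinite _
  obtain ⟨A, hA⟩ : ∃ A : Lt J V → Set S.Z, ∀ l z, z ∈ A l ↔ S.lt z = l :=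
    ⟨fun l => {z | S.lt z = l}, fun l z => Iff.rfl⟩
  have hAB : ∀ l, A l ∈ 𝓑 := by
    intro l
    have h1 : A l = S.c ⁻¹' {l.1} ∩ ⋂ j, S.T j ⁻¹' (S.c ⁻¹' {l.2 j}) := by
      ext z
      rw [hA]
      simp only [Set.mem_inter_iff, Set.mem_preimage, Set.mem_singleton_iff, Set.mem_iInter]
      constructor
      · rintro rfl
        exact ⟨rfl, fun j => rfl⟩
      · rintro ⟨h2, h3⟩
        exact Prod.ext h2 (funext h3)
    rw [h1]
    exact h.inter _ _ (hc _) (h.iInter _ fun j => h.pre j _ (hc _))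
  have hAdis : ∀ l l', l ≠ l' → Disjoint (A l) (A l') := by
    intro l l' hl
    rw [Set.disjoint_left]
    intro z hz hz'
    rw [hA] at hz hz'
    exact hl (hz.symm.trans hz')
  have hm : ∀ l, ∃ m : Set S.Z → ℝ, S.Ty l → (∀ B ∈ 𝓑, 0 ≤ m B) ∧
      (∀ B ∈ 𝓑, ∀ C ∈ 𝓑, Disjoint B C → m (B ∪ C) = m B + m C) ∧
      (∀ (j : J), ∀ B ∈ 𝓑, m (S.T j ⁻¹' B) = m B) ∧ 0 < m (A l) := by
    intro l
    by_cases hl : S.Ty l
    · obtain ⟨z, hz⟩ := hl
      obtain ⟨m, hm⟩ := h.meas (A l) (hAB l) ⟨z, (hA l z).2 hz⟩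
      exact ⟨m, fun _ => hm⟩
    · exact ⟨fun _ => 0, fun h1 => absurd h1 hl⟩
  choose m hm using hm
  obtain ⟨x, hx⟩ : ∃ x : Lt J V → ℝ, ∀ l', x l' =
      ∑ l ∈ Finset.univ.filter (fun l => S.Ty l), m l (A l') := ⟨_, fun _ => rfl⟩
  have hx0 : ∀ l', 0 ≤ x l' := by
    intro l'
    rw [hx]
    refine Finset.sum_nonneg fun l hl => ?_
    exact (hm l (Finset.mem_filter.1 hl).2).1 _ (hAB l')
  have hxp : ∀ l', 0 < x l' ↔ S.Ty l' := by
    intro l'
    constructor
    · intro h1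
      by_contra h2
      have h3 : A l' = ∅ := by
        rw [Set.eq_empty_iff_forall_notMem]
        intro z hz
        exact h2 ⟨z, (hA l' z).1 hz⟩
      rw [hx] at h1
      have h4 : ∑ l ∈ Finset.univ.filter (fun l => S.Ty l), m l (A l') = 0 := by
        refine Finset.sum_eq_zero fun l hl => ?_
        have h5 := (hm l (Finset.mem_filter.1 hl).2).2.1 ∅ h.empty ∅ h.empty
          (Set.disjoint_empty ∅)
        rw [Set.union_empty] at h5
        rw [h3]
        linarith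
      rw [h4] at h1
      exact lt_irrefl _ h1
    · intro h1
      rw [hx]
      refine Finset.sum_pos' (fun l hl => ?_) ⟨l', ?_, (hm l' h1).2.2.2⟩
      · exact (hm l (Finset.mem_filter.1 hl).2).1 _ (hAB l')
      · exact Finset.mem_filter.2 ⟨Finset.mem_univ _, h1⟩
  -- the two sums are equal
  have hun1 : ∀ (j : J) (v : V), (⋃ l ∈ Finset.univ.filter (fun l : Lt J V => l.2 j = v), A l) =
      S.T j ⁻¹' (S.c ⁻¹' {v}) := by
    intro j v
    ext z
    simp only [Set.mem_iUnion, Finset.mem_filter, Finset.mem_univ, true_and, Set.mem_preimage,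
      Set.mem_singleton_iff, exists_prop]
    constructor
    · rintro ⟨l, hl, hz⟩
      rw [hA] at hz
      rw [← hl, ← hz]
      rfl
    · intro hz
      exact ⟨S.lt z, hz, (hA _ _).2 rfl⟩
  have hun2 : ∀ v : V, (⋃ l ∈ Finset.univ.filter (fun l : Lt J V => l.1 = v), A l) =
      S.c ⁻¹' {v} := by
    intro v
    ext z
    simp only [Set.mem_iUnion, Finset.mem_filter, Finset.mem_univ, true_and, Set.mem_preimage,
      Set.mem_singleton_iff, exists_prop]
    constructor
    · rintro ⟨l, hl, hz⟩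
      rw [hA] at hz
      rw [← hl, ← hz]
      rfl
    · intro hz
      exact ⟨S.lt z, hz, (hA _ _).2 rfl⟩
  have heq1 : ∀ l, S.Ty l → ∀ (j : J) (v : V),
      ∑ l' ∈ Finset.univ.filter (fun l' : Lt J V => l'.2 j = v), m l (A l') =
      ∑ l' ∈ Finset.univ.filter (fun l' : Lt J V => l'.1 = v), m l (A l') := by
    intro l hl j v
    obtain ⟨-, h2, h3, -⟩ := hm l hl
    rw [← (mod_sum h (m l) h2 A hAB hAdis _).2, ← (mod_sum h (m l) h2 A hAB hAdis _).2, hun1, hun2]
    exact h3 j _ (hc v)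
  have heq2 : ∀ (j : J) (v : V),
      ∑ l' ∈ Finset.univ.filter (fun l' : Lt J V => l'.2 j = v), x l' =
      ∑ l' ∈ Finset.univ.filter (fun l' : Lt J V => l'.1 = v), x l' := by
    intro j v
    simp only [hx]
    rw [Finset.sum_comm, Finset.sum_comm (s := Finset.univ.filter (fun l' : Lt J V => l'.1 = v))]
    exact Finset.sum_congr rfl fun l hl => heq1 l (Finset.mem_filter.1 hl).2 j v
  obtain ⟨n, hn1, hn2⟩ := rat_exists (I := J × V)
    (fun i l => (if l.2 i.1 = i.2 then (1 : ℤ) else 0) - (if l.1 = i.2 then (1 : ℤ) else 0)) x hx0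
    (fun i => by
      have h1 := heq2 i.1 i.2
      rw [Finset.sum_filter, Finset.sum_filter] at h1
      have h2 : ∀ l : Lt J V, (((if l.2 i.1 = i.2 then (1 : ℤ) else 0) -
          (if l.1 = i.2 then (1 : ℤ) else 0) : ℤ) : ℝ) * x l =
          (if l.2 i.1 = i.2 then x l else 0) - (if l.1 = i.2 then x l else 0) := by
        intro l
        push_cast
        rw [sub_mul, ite_mul, ite_mul, one_mul, zero_mul]
      rw [Finset.sum_congr rfl fun l _ => h2 l, Finset.sum_sub_distrib, h1, sub_self])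
  obtain ⟨R, hR1, hR2⟩ := mat_exists n (fun j v => by
    have h1 := hn2 (j, v)
    have h2 : ∀ l : Lt J V, ((if l.2 j = v then (1 : ℤ) else 0) -
          (if l.1 = v then (1 : ℤ) else 0)) * (n l : ℤ) =
          (if l.2 j = v then (n l : ℤ) else 0) - (if l.1 = v then (n l : ℤ) else 0) := by
      intro l
      rw [sub_mul, ite_mul, ite_mul, one_mul, zero_mul]
    have h3 : ∑ l : Lt J V, ((if l.2 j = v then (1 : ℤ) else 0) -
          (if l.1 = v then (1 : ℤ) else 0)) * (n l : ℤ) = 0 := h1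
    rw [Finset.sum_congr rfl fun l _ => h2 l, Finset.sum_sub_distrib, ← Finset.sum_filter,
      ← Finset.sum_filter, sub_eq_zero] at h3
    exact_mod_cast h3)
  refine ⟨R, hR1, fun l => ?_⟩
  rw [hR2, hn1, hxp]

end Pool.Agent.H13.FG
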