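import Pool.Agent.H13.FG.Tau
import Pool.Agent.H13.FG.LAx

/-!
# The relations in `GG J S.Z`
-/

set_option autoImplicit false

open Classical

namespace Pool.Agent.H13.FG

open Pool.Agent.H13.TFG Pool.Agent.H13.BD

namespace Sys

variable {J V V' : Type} [Finite V] (S : Sys J V)

/-- left part of a product -/
private theorem Rel_t_mul_F (j : J) (A : Set V) (e : Bl J V) :
    S.t j A * S.F e = ⟨LA j S.c (S.st 1) A, S.bT j A * S.bF e⟩ := by
  refine SemidirectProduct.ext ?_ rfl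
  change LA j S.c (S.st 1) A *
    (raagAct (tg J S.Z) (Equiv.Perm (S.Z × ℕ)) (tg_smul J S.Z) (S.bT j A)) 1 = _
  rw [map_one, mul_one]

private theorem Rel_F_mul (e : Bl J V) (j : J) (φ : S.Z ↪ S.Z × ℕ) (A : Set V)
    (g : Equiv.Perm (S.Z × ℕ)) :
    S.F e * (⟨LA j S.c φ A, g⟩ : GG J S.Z) =
      ⟨LA j S.c (φ.trans (S.bF e).toEmbedding) A, S.bF e * g⟩ := by
  refine SemidirectProduct.ext ?_ rfl
  change 1 * (raagAct (tg J S.Z) (Equiv.Perm (S.Z × ℕ)) (tg_smul J S.Z) (S.bF e))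
    (LA j S.c φ A) = _
  rw [one_mul, LA_act]

private theorem Rel_mul (j k : J) (φ ψ : S.Z ↪ S.Z × ℕ) (A B : Set V)
    (g h : Equiv.Perm (S.Z × ℕ)) :
    (⟨LA j S.c φ A, g⟩ : GG J S.Z) * ⟨LA k S.c ψ B, h⟩ =
      ⟨LA j S.c φ A * LA k S.c (ψ.trans g.toEmbedding) B, g * h⟩ := by
  refine SemidirectProduct.ext ?_ rfl
  change LA j S.c φ A *
    (raagAct (tg J S.Z) (Equiv.Perm (S.Z × ℕ)) (tg_smul J S.Z) g) (LA k S.c ψ B) = _
  rw [LA_act]

private theorem Rel_tw (r : Lt J V → Prop) (k : J) (B : Set V) :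
    tw S.F r k B (S.t k B) =
      ⟨LA k S.c ((S.st 1).trans (S.bF (sw fun l => l.1 ∈ B ∧ r l)).toEmbedding) B,
        S.bF (sw fun l => l.1 ∈ B ∧ r l) * S.bT k B * S.bF (sw fun l => l.2 k ∈ B ∧ r l)⟩ := by
  unfold tw
  rw [mul_assoc, Rel_t_mul_F, Rel_F_mul, mul_assoc]

omit [Finite V] in
/-- `SemidirectProduct.ext`: the left parts are `1`, the right parts are block permutations -/
theorem rel_a (e : Bl J V) (h : ∀ l, S.Ty l → e l = 1) : S.F e = 1 := by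
  have h1 : S.bF e = 1 := by
    refine Equiv.ext fun t => ?_
    rw [bF_apply, h _ ⟨t.1, rfl⟩]
    rfl
  unfold F
  rw [MonoidHom.comp_apply, h1, map_one]

theorem rel_b (j : J) (A : Set V) (e : Bl J V) :
    S.t j A * S.F (sh (inn j A) e) = S.F (sh (out A) e) * S.t j A := by
  rw [Rel_t_mul_F]
  have h1 := S.Rel_F_mul (sh (out A) e) j (S.st 1) A (S.bT j A)
  change _ = S.F (sh (out A) e) * (⟨LA j S.c (S.st 1) A, S.bT j A⟩ : GG J S.Z)
  rw [h1]
  refine SemidirectProduct.ext ?_ ?_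
  · refine LA_congr j S.c _ _ A fun b hb => ?_
    change ((1 : Equiv.Perm (S.Z × ℕ)) (b, 0)) =
      S.bF (sh (out A) e) ((1 : Equiv.Perm (S.Z × ℕ)) (b, 0))
    rw [Equiv.Perm.one_apply, bF_apply]
    have h2 : sh (out A) e (S.lt b) = up (e (S.lt b)) := sh_pos (r := out A) (l := S.lt b) hb e
    rw [h2, up_zero]
  · exact tau_bp (S.T j) (S.c ⁻¹' A) (fun y => e (S.lt y))

theorem rel_c (j k : J) (A B : Set V) :
    S.t j A * tw S.F (inn j A) k B (S.t k B) = tw S.F (out A) k B (S.t k B) * S.t j A := by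
  rw [Rel_tw, Rel_tw]
  change (⟨LA j S.c (S.st 1) A, S.bT j A⟩ : GG J S.Z) * _ =
    _ * (⟨LA j S.c (S.st 1) A, S.bT j A⟩ : GG J S.Z)
  rw [Rel_mul, Rel_mul]
  -- the permutation `P'` of the right side
  have hP : ∀ b, S.c b ∈ B →
      S.bF (sw fun l => l.1 ∈ B ∧ out A l) (b, 0) = (b, ii (S.c b ∈ A)) := by
    intro b hb
    rw [bF_apply]
    by_cases hA : S.c b ∈ A
    · have h1 : sw (fun l => l.1 ∈ B ∧ out A l) (S.lt b) = Equiv.swap 0 1 :=
        sw_pos (r := fun l : Lt J V => l.1 ∈ B ∧ out A l) (l := S.lt b) ⟨hb, hA⟩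
      rw [h1, ii_pos hA, Equiv.swap_apply_left]
    · have h1 : sw (fun l => l.1 ∈ B ∧ out A l) (S.lt b) = 1 :=
        sw_neg (r := fun l : Lt J V => l.1 ∈ B ∧ out A l) (l := S.lt b) (fun h2 => hA h2.2)
      rw [h1, ii_neg hA, Equiv.Perm.one_apply]
  have h1 : LA k S.c (((S.st 1).trans (S.bF (sw fun l => l.1 ∈ B ∧ inn j A l)).toEmbedding).trans
      (S.bT j A).toEmbedding) B =
      LA k S.c ((S.st 1).trans (S.bF (sw fun l => l.1 ∈ B ∧ out A l)).toEmbedding) B := by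
    refine LA_congr k S.c _ _ B fun b hb => ?_
    change (S.bT j A) (S.bF (sw fun l => l.1 ∈ B ∧ inn j A l) (b, 0)) =
      S.bF (sw fun l => l.1 ∈ B ∧ out A l) (b, 0)
    rw [hP b hb]
    exact slot_tau2 (S.T j) (S.c ⁻¹' A) (S.c ⁻¹' B) b hb
  have h2 : LA j S.c ((S.st 1).trans (S.bF (sw fun l => l.1 ∈ B ∧ out A l) * S.bT k B *
      S.bF (sw fun l => l.2 k ∈ B ∧ out A l)).toEmbedding) A = LA j S.c (S.st 1) A := by
    refine LA_congr j S.c _ _ A fun b hb => ?_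
    exact slot_tau1 (S.T k) (S.c ⁻¹' A) (S.c ⁻¹' B) b hb
  refine SemidirectProduct.ext ?_ ?_
  · change LA j S.c (S.st 1) A * LA k S.c (((S.st 1).trans
      (S.bF (sw fun l => l.1 ∈ B ∧ inn j A l)).toEmbedding).trans (S.bT j A).toEmbedding) B =
      LA k S.c ((S.st 1).trans (S.bF (sw fun l => l.1 ∈ B ∧ out A l)).toEmbedding) B *
      LA j S.c ((S.st 1).trans (S.bF (sw fun l => l.1 ∈ B ∧ out A l) * S.bT k B *
      S.bF (sw fun l => l.2 k ∈ B ∧ out A l)).toEmbedding) A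
    rw [h1, h2]
    refine LA_comm S.c j k _ _ A B fun b b' hb hb' h3 => ?_
    change ((b, 0) : S.Z × ℕ) = S.bF (sw fun l => l.1 ∈ B ∧ out A l) (b', 0) at h3
    rw [hP b' hb', Prod.mk.injEq] at h3
    obtain ⟨h4, h5⟩ := h3
    subst h4
    rw [ii_pos hb] at h5
    exact absurd h5 (by norm_num)
  · exact tau_tau2 (S.T j) (S.T k) (S.c ⁻¹' A) (S.c ⁻¹' B)

/-- `LA_eq_one`, `tau_empty` (the preimage of `A` is empty) -/
theorem rel_d (j : J) (A : Set V) (h : ∀ b, S.c b ∉ A) : S.t j A = 1 := by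
  refine SemidirectProduct.ext ?_ ?_
  · exact LA_eq_one j S.c _ A h
  · change tau (S.T j) (S.c ⁻¹' A) = 1
    have h1 : S.c ⁻¹' A = ∅ := by
      ext b
      simp only [Set.mem_preimage, Set.mem_empty_iff_false, iff_false]
      exact h b
    rw [h1, tau_empty]

theorem rel_u (j : J) (A B : Set V) (h : Disjoint A B) :
    S.t j (A ∪ B) = S.t j B * S.F (sw fun l => l.1 ∈ A ∧ l.2 j ∈ B) * S.t j A := by
  have hd : Disjoint (S.c ⁻¹' A) (S.c ⁻¹' B) := Disjoint.preimage S.c h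
  rw [Rel_t_mul_F]
  change (⟨LA j S.c (S.st 1) (A ∪ B), S.bT j (A ∪ B)⟩ : GG J S.Z) =
    _ * (⟨LA j S.c (S.st 1) A, S.bT j A⟩ : GG J S.Z)
  rw [Rel_mul]
  have h1 : LA j S.c ((S.st 1).trans
      (S.bT j B * S.bF (sw fun l => l.1 ∈ A ∧ l.2 j ∈ B)).toEmbedding) A =
      LA j S.c (S.st 1) A := by
    refine LA_congr j S.c _ _ A fun b hb => ?_
    exact slot_union (S.T j) (S.c ⁻¹' A) (S.c ⁻¹' B) hd b hb
  refine SemidirectProduct.ext ?_ ?_
  · change LA j S.c (S.st 1) (A ∪ B) = LA j S.c (S.st 1) B * LA j S.c ((S.st 1).trans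
      (S.bT j B * S.bF (sw fun l => l.1 ∈ A ∧ l.2 j ∈ B)).toEmbedding) A
    rw [h1, LA_union j S.c _ A B h]
    refine LA_comm S.c j j _ _ A B fun b b' hb hb' h3 => ?_
    change ((b, 0) : S.Z × ℕ) = (b', 0) at h3
    rw [Prod.mk.injEq] at h3
    obtain ⟨h4, _⟩ := h3
    subst h4
    exact Set.disjoint_left.1 h hb hb'
  · exact tau_union (S.T j) (S.c ⁻¹' A) (S.c ⁻¹' B) hd

theorem t_empty (j : J) : S.t j ∅ = 1 := S.rel_d j ∅ (fun _ h => h)

omit [Finite V] in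
/-- block permutations for coarser colours -/
def blc (π : V' → V) : Bl J V →* Bl J V' where
  toFun e := fun l => e (ltm π l)
  map_one' := rfl
  map_mul' _ _ := rfl

/-- The relations hold for coarser colours: `IsModel` for the local types of `S.push π`. -/
theorem model_push {J V W : Type} [Finite W] (S : Sys J W) (π : W → V) :
    IsModel (S.push π).Ty (S.F.comp (blc π)) (fun j c => S.t j (π ⁻¹' {c})) := by
  constructor
  · intro e he
    refine S.rel_a (blc π e) fun l hl => ?_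
    obtain ⟨z, rfl⟩ := hl
    exact he (ltm π (S.lt z)) ⟨z, rfl⟩
  · intro j c e
    exact S.rel_b j (π ⁻¹' {c}) (blc π e)
  · intro j k c d
    exact S.rel_c j k (π ⁻¹' {c}) (π ⁻¹' {d})
  · intro j c hc
    refine S.rel_d j _ fun b hb => ?_
    exact hc ((S.push π).lt b) ⟨b, rfl⟩ hb

end Sys

end Pool.Agent.H13.FG
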