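import Pool.Agent.H13.FG.Mai

/-!
# Cocycles, invariant measures, groups of bisections
-/

set_option autoImplicit false

open Classical

namespace Pool.Agent.H13.FG

/-- The group `H` acts on `X` by `β` and `h x = a h x * x` for the action `α` of `Γ` on `X`, where `a` is a cocycle with
locally constant values, and `a h` is trivial only for `h = 1`. -/
structure IsCoc {X Γ H : Type} [TopologicalSpace X] [Group Γ] [Group H] (α : Γ →* Equiv.Perm X)
    (β : H →* Equiv.Perm X) (a : H → X → Γ) : Prop where
  act : ∀ h x, β h x = α (a h x) x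
  mul : ∀ g h x, a (g * h) x = a g (β h x) * a h x
  inj : ∀ h, (∀ x, a h x = 1) → h = 1
  loc : ∀ h, IsLocallyConstant (a h)

/-- Each nonempty clopen set has positive measure for some invariant finitely additive nonnegative measure. -/
def Mea {X Γ : Type} [TopologicalSpace X] [Group Γ] (α : Γ →* Equiv.Perm X) : Prop :=
  ∀ A : Set X, IsClopen A → A.Nonempty → ∃ m : Set X → ℝ, (∀ B, IsClopen B → 0 ≤ m B) ∧
    (∀ B C, IsClopen B → IsClopen C → Disjoint B C → m (B ∪ C) = m B + m C) ∧
    (∀ (g : Γ) B, IsClopen B → m (α g ⁻¹' B) = m B) ∧ 0 < m A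

/-- The statement for a group `Γ`: for all actions of `Γ` on compact spaces by homeomorphisms with enough invariant
measures, the groups with a faithful locally constant cocycle are in the class. -/
def Good (C : (G : Type) → [Group G] → Prop) (Γ : Type) [Group Γ] : Prop :=
  ∀ (X : Type) [TopologicalSpace X] [CompactSpace X] (α : Γ →* Equiv.Perm X),
    (∀ g, Continuous (α g)) → Mea α → ∀ (H : Type) [Group H] (β : H →* Equiv.Perm X)
      (a : H → X → Γ), IsCoc α β a → C H

/-- some subgroup of finite index is free -/
def VFree (Γ : Type) [Group Γ] : Prop :=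
  ∃ (N : Subgroup Γ) (J : Type), N.FiniteIndex ∧ Nonempty (FreeGroup J ≃* N)

end Pool.Agent.H13.FG
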