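import Pool.Agent.H13.FG.Top

/-!
# The action of a free group on `X × K`
-/

set_option autoImplicit false

open Classical

namespace Pool.Agent.H13.FG

section

variable {X K J : Type} (k₀ : K) (α : FreeGroup J →* Equiv.Perm X)

/-- `(x, k₀) ↦ (p x, k₀)`, and `(x, k) ↦ (x, k)` for `k ≠ k₀` -/
noncomputable def pk : Equiv.Perm X →* Equiv.Perm (X × K) where
  toFun p :=
    { toFun := fun y => if y.2 = k₀ then (p y.1, y.2) else y
      invFun := fun y => if y.2 = k₀ then (p.symm y.1, y.2) else y
      left_inv := by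
        rintro ⟨x, k⟩
        by_cases h : k = k₀ <;> simp [h]
      right_inv := by
        rintro ⟨x, k⟩
        by_cases h : k = k₀ <;> simp [h] }
  map_one' := by
    ext1 ⟨x, k⟩
    simp
  map_mul' p q := by
    ext1 ⟨x, k⟩
    by_cases h : k = k₀ <;> simp [h]

theorem pk_apply (p : Equiv.Perm X) (y : X × K) :
    pk k₀ p y = if y.2 = k₀ then (p y.1, y.2) else y := rfl

/-- The letters of `J` act on `X × {k₀}` as in `α`, the letter `k : K` acts by the transposition of `k₀` and `k`. -/
noncomputable def al : FreeGroup (J ⊕ K) →* Equiv.Perm (X × K) :=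
  FreeGroup.lift (Sum.elim (fun j => pk k₀ (α (FreeGroup.of j)))
    (fun k => Equiv.prodCongrRight fun _ => Equiv.swap k₀ k))

theorem al_inl (w : FreeGroup J) : al k₀ α (FreeGroup.map Sum.inl w) = pk k₀ (α w) := by
  have h : (al k₀ α).comp (FreeGroup.map Sum.inl) = (pk k₀).comp α := by
    apply FreeGroup.ext_hom
    intro j
    rw [MonoidHom.comp_apply, MonoidHom.comp_apply, FreeGroup.map.of]
    unfold al
    rw [FreeGroup.lift_apply_of]
    rfl
  exact DFunLike.congr_fun h w

theorem al_inr (k : K) (y : X × K) :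
    al k₀ α (FreeGroup.of (Sum.inr k)) y = (y.1, Equiv.swap k₀ k y.2) := by
  unfold al
  rw [FreeGroup.lift_apply_of]
  rfl

theorem VirA_pk_cont [TopologicalSpace X] [TopologicalSpace K] [DiscreteTopology K]
    {p : Equiv.Perm X} (hp : Continuous p) : Continuous (pk k₀ p : Equiv.Perm (X × K)) := by
  have h1 : (⇑(pk k₀ p : Equiv.Perm (X × K))) =
      fun y : X × K => if y.2 = k₀ then (p y.1, y.2) else y := funext fun y => pk_apply k₀ p y
  rw [h1]
  have h2 : IsClopen {y : X × K | y.2 = k₀} :=
    (isClopen_discrete ({k₀} : Set K)).preimage continuous_snd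
  refine Continuous.if ?_ ?_ continuous_id
  · intro a ha
    rw [h2.frontier_eq] at ha
    exact absurd ha (Set.notMem_empty a)
  · exact (hp.comp continuous_fst).prodMk continuous_snd

/-- the letter `inl j`, also inverted -/
theorem VirA_inl (w : FreeGroup J) (y : X × K) :
    al k₀ α (FreeGroup.map Sum.inl w) y = if y.2 = k₀ then (α w y.1, y.2) else y := by
  rw [al_inl, pk_apply]

theorem VirA_inr_inv (k : K) (y : X × K) :
    al k₀ α (FreeGroup.of (Sum.inr k))⁻¹ y = (y.1, Equiv.swap k₀ k y.2) := by
  rw [map_inv]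
  apply (al k₀ α (FreeGroup.of (Sum.inr k))).injective
  change al k₀ α (FreeGroup.of (Sum.inr k)) ((al k₀ α (FreeGroup.of (Sum.inr k))).symm y) = _
  rw [Equiv.apply_symm_apply, al_inr]
  simp

/-- induction over the words of the two kinds of letters -/
theorem VirA_ind {P : FreeGroup (J ⊕ K) → Prop} (h1 : P 1)
    (hl : ∀ w : FreeGroup J, P (FreeGroup.map Sum.inl w))
    (hr : ∀ k : K, P (FreeGroup.of (Sum.inr k))) (hr' : ∀ k : K, P (FreeGroup.of (Sum.inr k))⁻¹)
    (hm : ∀ g h, P g → P h → P (g * h)) (g : FreeGroup (J ⊕ K)) : P g := by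
  refine FreeGroup.induction_on g h1 ?_ ?_ hm
  · rintro (j | k)
    · have := hl (FreeGroup.of j)
      rwa [FreeGroup.map.of] at this
    · exact hr k
  · rintro (j | k) _
    · have := hl (FreeGroup.of j)⁻¹
      rwa [map_inv, FreeGroup.map.of] at this
    · exact hr' k

/-- Proof. `FreeGroup.induction_on` (with the inverses of the generators). The maps for the letters are continuous as `K` is
discrete (`continuous_prod_of_discrete_right` or similar): for fixed `y.2` they are `(α _, id)` or `(id, const)`. -/
theorem al_cont [TopologicalSpace X] [TopologicalSpace K] [DiscreteTopology K]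
    (hα : ∀ g, Continuous (α g)) (g : FreeGroup (J ⊕ K)) : Continuous (al k₀ α g) := by
  refine VirA_ind (P := fun g => Continuous (al k₀ α g)) ?_ ?_ ?_ ?_ ?_ g
  · rw [map_one]
    exact continuous_id
  · intro w
    rw [al_inl]
    exact VirA_pk_cont k₀ (hα w)
  · intro k
    have h1 : (⇑(al k₀ α (FreeGroup.of (Sum.inr k)))) =
        fun y : X × K => (y.1, Equiv.swap k₀ k y.2) := funext fun y => al_inr k₀ α k y
    rw [h1]
    exact continuous_fst.prodMk (continuous_of_discreteTopology.comp continuous_snd)
  · intro k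
    have h1 : (⇑(al k₀ α (FreeGroup.of (Sum.inr k))⁻¹)) =
        fun y : X × K => (y.1, Equiv.swap k₀ k y.2) := funext fun y => VirA_inr_inv k₀ α k y
    rw [h1]
    exact continuous_fst.prodMk (continuous_of_discreteTopology.comp continuous_snd)
  · intro g h hg hh
    rw [map_mul]
    exact hg.comp hh

end

end Pool.Agent.H13.FG
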