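import Pool.Agent.H13.FG.VirA
import Pool.Agent.H13.FG.Fre

/-!
# The cocycle with values in a free group
-/

set_option autoImplicit false

open Classical

namespace Pool.Agent.H13.FG

section

variable {X Γ H J K : Type} [TopologicalSpace X]
  [Group Γ] [Group H] {α : Γ →* Equiv.Perm X} {β : H →* Equiv.Perm X} {a : H → X → Γ}

/-- `Φ` of the proof -/
def vcz {X Γ K : Type} [Group Γ] (α : Γ →* Equiv.Perm X) (τ : K → Γ) (y : X × K) : X :=
  α (τ y.2) y.1

/-- the new second coordinate -/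
def vck (α : Γ →* Equiv.Perm X) (a : H → X → Γ) (κ : Γ →* Equiv.Perm K) (τ : K → Γ) (g : H)
    (y : X × K) : K := κ (a g (vcz α τ y)) y.2

/-- the action of `g` -/
def vcb (α : Γ →* Equiv.Perm X) (β : H →* Equiv.Perm X) (a : H → X → Γ)
    (κ : Γ →* Equiv.Perm K) (τ : K → Γ) (g : H) (y : X × K) : X × K :=
  ((α (τ (vck α a κ τ g y)))⁻¹ (β g (vcz α τ y)), vck α a κ τ g y)

omit [TopologicalSpace X] in
theorem vcz_vcb (κ : Γ →* Equiv.Perm K) (τ : K → Γ) (g : H) (y : X × K) :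
    vcz α τ (vcb α β a κ τ g y) = β g (vcz α τ y) := by
  show α (τ (vck α a κ τ g y)) ((α (τ (vck α a κ τ g y)))⁻¹ (β g (vcz α τ y))) = _
  rw [← Equiv.Perm.mul_apply, mul_inv_cancel]
  rfl

/-- the action on `X × K` -/
def virBeta (h : IsCoc α β a) (κ : Γ →* Equiv.Perm K) (τ : K → Γ) :
    H →* Equiv.Perm (X × K) :=
  MonoidHom.toHomPerm
    { toFun := fun g y => vcb α β a κ τ g y
      map_one' := by
        funext y
        have h1 : vck α a κ τ (1 : H) y = y.2 := by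
          show κ (a 1 (vcz α τ y)) y.2 = y.2
          rw [h.one, map_one]
          rfl
        show ((α (τ (vck α a κ τ (1 : H) y)))⁻¹ (β 1 (vcz α τ y)), vck α a κ τ (1 : H) y) = y
        rw [h1, map_one]
        refine Prod.ext ?_ rfl
        show ((α (τ y.2))⁻¹ * α (τ y.2)) y.1 = y.1
        rw [inv_mul_cancel]
        rfl
      map_mul' := fun g g' => by
        funext y
        have h1 : vck α a κ τ (g * g') y = vck α a κ τ g (vcb α β a κ τ g' y) := by
          show κ (a (g * g') (vcz α τ y)) y.2 =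
            κ (a g (vcz α τ (vcb α β a κ τ g' y))) (κ (a g' (vcz α τ y)) y.2)
          rw [vcz_vcb, h.mul, map_mul]
          rfl
        show ((α (τ (vck α a κ τ (g * g') y)))⁻¹ (β (g * g') (vcz α τ y)),
          vck α a κ τ (g * g') y) =
          ((α (τ (vck α a κ τ g (vcb α β a κ τ g' y))))⁻¹
            (β g (vcz α τ (vcb α β a κ τ g' y))), vck α a κ τ g (vcb α β a κ τ g' y))
        rw [h1, vcz_vcb, map_mul]
        rfl }

theorem virBeta_apply (h : IsCoc α β a) (κ : Γ →* Equiv.Perm K) (τ : K → Γ) (g : H)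
    (y : X × K) : virBeta h κ τ g y = vcb α β a κ τ g y := rfl

/-- the cocycle -/
def virCoc (α : Γ →* Equiv.Perm X) (a : H → X → Γ) (κ : Γ →* Equiv.Perm K) (τ : K → Γ)
    (b : Γ → K → FreeGroup J) (g : H) (y : X × K) : FreeGroup (J ⊕ K) :=
  FreeGroup.of (Sum.inr (vck α a κ τ g y)) *
    FreeGroup.map Sum.inl (b (a g (vcz α τ y)) y.2) * (FreeGroup.of (Sum.inr y.2))⁻¹

theorem vir_act (h : IsCoc α β a) (k₀ : K)
    (ν : FreeGroup J →* Γ) (κ : Γ →* Equiv.Perm K) (τ : K → Γ)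
    (b : Γ → K → FreeGroup J) (hb : ∀ γ k, ν (b γ k) = (τ (κ γ k))⁻¹ * γ * τ k)
    (g : H) (y : X × K) :
    virBeta h κ τ g y = al k₀ (α.comp ν) (virCoc α a κ τ b g y) y := by
  obtain ⟨x, k⟩ := y
  have h1 : (al k₀ (α.comp ν) (FreeGroup.of (Sum.inr k)))⁻¹ (x, k) = (x, k₀) := by
    rw [Equiv.Perm.inv_eq_iff_eq, al_inr]
    show (x, k) = (x, Equiv.swap k₀ k k₀)
    rw [Equiv.swap_apply_left]
  unfold virCoc
  rw [map_mul, map_mul, map_inv, Equiv.Perm.mul_apply, Equiv.Perm.mul_apply]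
  show _ = al k₀ (α.comp ν) (FreeGroup.of (Sum.inr (vck α a κ τ g (x, k))))
    (al k₀ (α.comp ν) (FreeGroup.map Sum.inl (b (a g (vcz α τ (x, k))) k))
      ((al k₀ (α.comp ν) (FreeGroup.of (Sum.inr k)))⁻¹ (x, k)))
  rw [h1, al_inl, pk_apply, if_pos rfl, al_inr, virBeta_apply]
  refine Prod.ext ?_ ?_
  · show (α (τ (vck α a κ τ g (x, k))))⁻¹ (β g (vcz α τ (x, k))) =
      α (ν (b (a g (vcz α τ (x, k))) k)) x
    rw [hb, h.act, map_mul, map_mul, map_inv]
    rfl
  · show vck α a κ τ g (x, k) = Equiv.swap k₀ (vck α a κ τ g (x, k)) k₀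
    rw [Equiv.swap_apply_left]

/-- the homomorphism which kills the letters `inr k` -/
theorem vir_inl_inj (w w' : FreeGroup J)
    (h : FreeGroup.map (Sum.inl : J → J ⊕ K) w = FreeGroup.map Sum.inl w') : w = w' := by
  let p : FreeGroup (J ⊕ K) →* FreeGroup J :=
    FreeGroup.lift (Sum.elim FreeGroup.of fun _ => 1)
  have h1 : ∀ w, p (FreeGroup.map Sum.inl w) = w := by
    intro w
    have h2 : (p.comp (FreeGroup.map Sum.inl)) = MonoidHom.id (FreeGroup J) := by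
      refine FreeGroup.ext_hom _ _ fun j => ?_
      show p (FreeGroup.map Sum.inl (FreeGroup.of j)) = FreeGroup.of j
      rw [FreeGroup.map.of]
      exact FreeGroup.lift_apply_of
    exact DFunLike.congr_fun h2 w
  rw [← h1 w, h, h1]

theorem vir_word (k k' : K) (w : FreeGroup J)
    (h : FreeGroup.of (Sum.inr k') * FreeGroup.map Sum.inl w *
      (FreeGroup.of (Sum.inr k : J ⊕ K))⁻¹ = 1) : k' = k ∧ w = 1 := by
  let p : FreeGroup (J ⊕ K) →* FreeGroup K :=
    FreeGroup.lift (Sum.elim (fun _ => 1) FreeGroup.of)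
  have h1 : ∀ w : FreeGroup J, p (FreeGroup.map Sum.inl w) = 1 := by
    intro w
    have h2 : (p.comp (FreeGroup.map Sum.inl)) = (1 : FreeGroup J →* FreeGroup K) := by
      refine FreeGroup.ext_hom _ _ fun j => ?_
      show p (FreeGroup.map Sum.inl (FreeGroup.of j)) = 1
      rw [FreeGroup.map.of]
      exact FreeGroup.lift_apply_of
    exact DFunLike.congr_fun h2 w
  have h2 : ∀ k : K, p (FreeGroup.of (Sum.inr k)) = FreeGroup.of k :=
    fun k => FreeGroup.lift_apply_of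
  have h3 : k' = k := by
    have h4 := congrArg p h
    rw [map_mul, map_mul, map_inv, h1, h2, h2, mul_one, map_one, mul_inv_eq_one] at h4
    exact FreeGroup.of_injective h4
  subst h3
  refine ⟨rfl, ?_⟩
  rw [mul_inv_eq_one, mul_eq_left] at h
  refine vir_inl_inj (K := K) w 1 ?_
  rw [h, map_one]

theorem vir_coc [TopologicalSpace K] [DiscreteTopology K]
    (hα : ∀ g, Continuous (α g)) (h : IsCoc α β a) (k₀ : K)
    (ν : FreeGroup J →* Γ) (hν : Function.Injective ν) (κ : Γ →* Equiv.Perm K) (τ : K → Γ)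
    (b : Γ → K → FreeGroup J) (hb : ∀ γ k, ν (b γ k) = (τ (κ γ k))⁻¹ * γ * τ k) :
    ∃ (β' : H →* Equiv.Perm (X × K)) (a' : H → X × K → FreeGroup (J ⊕ K)),
      IsCoc (al k₀ (α.comp ν)) β' a' := by
  refine ⟨virBeta h κ τ, virCoc α a κ τ b, vir_act h k₀ ν κ τ b hb, ?_, ?_, ?_⟩
  · intro g g' y
    have h1 : vck α a κ τ (g * g') y = vck α a κ τ g (vcb α β a κ τ g' y) := by
      show κ (a (g * g') (vcz α τ y)) y.2 =
        κ (a g (vcz α τ (vcb α β a κ τ g' y))) (κ (a g' (vcz α τ y)) y.2)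
      rw [vcz_vcb, h.mul, map_mul]
      rfl
    have h2 : b (a (g * g') (vcz α τ y)) y.2 =
        b (a g (β g' (vcz α τ y))) (vck α a κ τ g' y) * b (a g' (vcz α τ y)) y.2 := by
      apply hν
      rw [map_mul, hb, hb, hb, h.mul, map_mul]
      show (τ ((κ (a g (β g' (vcz α τ y)))) (κ (a g' (vcz α τ y)) y.2)))⁻¹ *
        (a g (β g' (vcz α τ y)) * a g' (vcz α τ y)) * τ y.2 =
        (τ ((κ (a g (β g' (vcz α τ y)))) (κ (a g' (vcz α τ y)) y.2)))⁻¹ *
          a g (β g' (vcz α τ y)) * τ (κ (a g' (vcz α τ y)) y.2) *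
          ((τ (κ (a g' (vcz α τ y)) y.2))⁻¹ * a g' (vcz α τ y) * τ y.2)
      group
    have h3 : virCoc α a κ τ b g (virBeta h κ τ g' y) =
        FreeGroup.of (Sum.inr (vck α a κ τ g (vcb α β a κ τ g' y))) *
          FreeGroup.map Sum.inl (b (a g (β g' (vcz α τ y))) (vck α a κ τ g' y)) *
            (FreeGroup.of (Sum.inr (vck α a κ τ g' y)))⁻¹ := by
      show FreeGroup.of (Sum.inr (vck α a κ τ g (vcb α β a κ τ g' y))) *
        FreeGroup.map Sum.inl (b (a g (vcz α τ (vcb α β a κ τ g' y))) (vck α a κ τ g' y)) *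
          (FreeGroup.of (Sum.inr (vck α a κ τ g' y)))⁻¹ = _
      rw [vcz_vcb]
    rw [h3]
    show FreeGroup.of (Sum.inr (vck α a κ τ (g * g') y)) *
      FreeGroup.map Sum.inl (b (a (g * g') (vcz α τ y)) y.2) *
        (FreeGroup.of (Sum.inr y.2))⁻¹ =
      FreeGroup.of (Sum.inr (vck α a κ τ g (vcb α β a κ τ g' y))) *
        FreeGroup.map Sum.inl (b (a g (β g' (vcz α τ y))) (vck α a κ τ g' y)) *
          (FreeGroup.of (Sum.inr (vck α a κ τ g' y)))⁻¹ *
      (FreeGroup.of (Sum.inr (vck α a κ τ g' y)) *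
        FreeGroup.map Sum.inl (b (a g' (vcz α τ y)) y.2) * (FreeGroup.of (Sum.inr y.2))⁻¹)
    rw [h1, h2, map_mul]
    group
  · intro g hg
    apply h.inj
    intro x
    have h1 := hg ((α (τ k₀))⁻¹ x, k₀)
    have h2 : vcz α τ ((α (τ k₀))⁻¹ x, k₀) = x := by
      show α (τ k₀) ((α (τ k₀))⁻¹ x) = x
      rw [← Equiv.Perm.mul_apply, mul_inv_cancel]
      rfl
    obtain ⟨h3, h4⟩ := vir_word _ _ _ h1
    have h5 := hb (a g (vcz α τ ((α (τ k₀))⁻¹ x, k₀))) k₀
    have h6 : b (a g (vcz α τ ((α (τ k₀))⁻¹ x, k₀))) k₀ = 1 := h4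
    have h7 : κ (a g (vcz α τ ((α (τ k₀))⁻¹ x, k₀))) k₀ = k₀ := h3
    rw [h6, h7, map_one, h2] at h5
    have h8 : a g x = τ k₀ * ((τ k₀)⁻¹ * a g x * τ k₀) * (τ k₀)⁻¹ := by group
    rw [h8, ← h5, mul_one, mul_inv_cancel]
  · intro g
    have h1 : IsLocallyConstant fun y : X × K => (a g (vcz α τ y), y.2) := by
      rw [IsLocallyConstant.iff_exists_open]
      rintro ⟨x, k⟩
      refine ⟨((α (τ k)) ⁻¹' (a g ⁻¹' {a g (α (τ k) x)})) ×ˢ {k}, ?_, ⟨rfl, rfl⟩, ?_⟩
      · exact (((h.loc g).isOpen_fiber _).preimage (hα _)).prod (isOpen_discrete _)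
      · rintro ⟨x', k'⟩ ⟨h2, h3⟩
        have h4 : k' = k := h3
        subst h4
        exact Prod.ext h2 rfl
    have h2 := h1.comp fun p : Γ × K => FreeGroup.of (Sum.inr (κ p.1 p.2)) *
      FreeGroup.map Sum.inl (b p.1 p.2) * (FreeGroup.of (Sum.inr p.2 : J ⊕ K))⁻¹
    exact h2

end

end Pool.Agent.H13.FG
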