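import Pool.Agent.H13.FG.Top

/-!
# Data of a virtually free group
-/

set_option autoImplicit false

open Classical

namespace Pool.Agent.H13.FG

/-- Proof. Let `N`, `J`, `e : FreeGroup J ≃* N` be given by `h`. The set `Γ ⧸ N` is finite and nonempty; let
`n := Nat.card (Γ ⧸ N)` and `ε : Γ ⧸ N ≃ Fin n` (`Finite.equivFin`). `ν := N.subtype.comp e`, `κ γ := ε ∘ (γ • ·) ∘ ε.symm`
(`MulAction.toPermHom Γ (Γ ⧸ N)`, conjugated by `ε`), `τ k := (ε.symm k).out`. As `(τ (κ γ k))⁻¹ * γ * τ k ∈ N`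
(`QuotientGroup.eq`; the cosets of `γ * τ k` and of `τ (κ γ k)` are equal), `b γ k := e.symm ⟨_, _⟩`. -/
theorem vir_data {Γ : Type} [Group Γ] (h : VFree Γ) :
    ∃ (J : Type) (n : ℕ) (_ : Fin n) (ν : FreeGroup J →* Γ) (κ : Γ →* Equiv.Perm (Fin n))
      (τ : Fin n → Γ) (b : Γ → Fin n → FreeGroup J), Function.Injective ν ∧
        ∀ γ k, ν (b γ k) = (τ (κ γ k))⁻¹ * γ * τ k := by
  obtain ⟨N, J, hN, ⟨e⟩⟩ := h
  haveI : Finite (Γ ⧸ N) := Subgroup.finite_quotient_of_finiteIndex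
  obtain ⟨n, ⟨ε⟩⟩ := Finite.exists_equiv_fin (Γ ⧸ N)
  obtain ⟨κ, hκ⟩ : ∃ κ : Γ →* Equiv.Perm (Fin n), ∀ γ k, κ γ k = ε (γ • ε.symm k) :=
    ⟨(ε.permCongrHom).toMonoidHom.comp (MulAction.toPermHom Γ (Γ ⧸ N)), fun γ k => rfl⟩
  have hτ : ∀ γ k, ((ε.symm (κ γ k)).out)⁻¹ * γ * (ε.symm k).out ∈ N := by
    intro γ k
    rw [mul_assoc, ← QuotientGroup.eq]
    have h1 : (((ε.symm (κ γ k)).out : Γ) : Γ ⧸ N) = γ • ε.symm k := by
      rw [QuotientGroup.out_eq', hκ, Equiv.symm_apply_apply]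
    have h2 : ((γ * (ε.symm k).out : Γ) : Γ ⧸ N) = γ • ε.symm k := by
      have h3 : ((γ * (ε.symm k).out : Γ) : Γ ⧸ N) = γ • (((ε.symm k).out : Γ) : Γ ⧸ N) := rfl
      rw [h3, QuotientGroup.out_eq']
    rw [h1, h2]
  refine ⟨J, n, ε ((1 : Γ) : Γ ⧸ N), N.subtype.comp e.toMonoidHom, κ, fun k => (ε.symm k).out,
    fun γ k => e.symm ⟨_, hτ γ k⟩, ?_, ?_⟩
  · exact N.subtype_injective.comp e.injective
  · intro γ k
    show ((e (e.symm ⟨_, hτ γ k⟩) : N) : Γ) = _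
    rw [MulEquiv.apply_symm_apply]

end Pool.Agent.H13.FG
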