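import Pool.Agent.H13.FG.VirA

/-!
# Invariant measures on `X × K`
-/

set_option autoImplicit false

open Classical

namespace Pool.Agent.H13.FG

section

variable {X K J : Type} (k₀ : K) (α : FreeGroup J →* Equiv.Perm X)

/-- Proof. Let `A` be clopen, nonempty, `(x, k) ∈ A`. The slice `{x | (x, k) ∈ A}` is clopen (preimage under a continuous map) and
nonempty; let `m` be given by `hm` and put `m' B := ∑ k, m {x | (x, k) ∈ B}` (`Fintype.ofFinite K`). Nonnegative, additive. Invariance
under `al k₀ α g`: by `FreeGroup.induction_on` it suffices to consider letters and their inverses (preimages of clopen sets are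
clopen by `al_cont`). `inl j`: the slices for `k ≠ k₀` do not change, and the slice for `k₀` changes by the preimage under
`α (of j)`. `inr k`: the slices are permuted (`Equiv.sum_comp`). `0 < m' A`: one summand is positive, the others are
nonnegative. -/
theorem al_mea [TopologicalSpace X] [TopologicalSpace K] [DiscreteTopology K] [Finite K]
    (hα : ∀ g, Continuous (α g)) (hm : Mea α) : Mea (al k₀ α) := by
  haveI := Fintype.ofFinite K
  intro A hA hne
  obtain ⟨⟨x0, k1⟩, h0⟩ := hne
  -- the slices
  have hsl : ∀ (k : K) (B : Set (X × K)), IsClopen B → IsClopen {x | (x, k) ∈ B} := by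
    intro k B hB
    exact hB.preimage (continuous_id.prodMk continuous_const)
  obtain ⟨m, hm0, hma, hmi, hmp⟩ := hm {x | (x, k1) ∈ A} (hsl k1 A hA) ⟨x0, h0⟩
  refine ⟨fun B => ∑ k, m {x | (x, k) ∈ B}, ?_, ?_, ?_, ?_⟩
  · intro B hB
    exact Finset.sum_nonneg fun k _ => hm0 _ (hsl k B hB)
  · intro B C hB hC hBC
    rw [← Finset.sum_add_distrib]
    refine Finset.sum_congr rfl fun k _ => ?_
    refine hma _ _ (hsl k B hB) (hsl k C hC) ?_
    rw [Set.disjoint_left]
    intro x hx hx'
    exact Set.disjoint_left.1 hBC hx hx'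
  · intro g
    refine VirA_ind (P := fun g => ∀ B, IsClopen B → (∑ k, m {x | (x, k) ∈ al k₀ α g ⁻¹' B}) =
      ∑ k, m {x | (x, k) ∈ B}) ?_ ?_ ?_ ?_ ?_ g
    · intro B _
      rw [map_one]
      rfl
    · intro w B hB
      refine Finset.sum_congr rfl fun k _ => ?_
      by_cases hk : k = k₀
      · subst hk
        have h1 : {x | (x, k) ∈ al k α (FreeGroup.map Sum.inl w) ⁻¹' B} =
            α w ⁻¹' {x | (x, k) ∈ B} := by
          ext x
          rw [Set.mem_setOf_eq, Set.mem_preimage, VirA_inl, if_pos rfl]
          rfl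
        rw [h1]
        exact hmi w _ (hsl k B hB)
      · have h1 : {x | (x, k) ∈ al k₀ α (FreeGroup.map Sum.inl w) ⁻¹' B} =
            {x | (x, k) ∈ B} := by
          ext x
          rw [Set.mem_setOf_eq, Set.mem_preimage, VirA_inl, if_neg hk]
          rfl
        rw [h1]
    · intro k' B _
      rw [← Equiv.sum_comp (Equiv.swap k₀ k') (fun k => m {x | (x, k) ∈ B})]
      refine Finset.sum_congr rfl fun k _ => ?_
      congr 1
    · intro k' B _
      rw [← Equiv.sum_comp (Equiv.swap k₀ k') (fun k => m {x | (x, k) ∈ B})]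
      refine Finset.sum_congr rfl fun k _ => ?_
      rfl
    · intro g h hg hh B hB
      have h1 : al k₀ α (g * h) ⁻¹' B = al k₀ α h ⁻¹' (al k₀ α g ⁻¹' B) := by
        rw [map_mul]
        rfl
      rw [h1, hh _ (hB.preimage (al_cont k₀ α hα g)), hg B hB]
  · exact lt_of_lt_of_le hmp (Finset.single_le_sum
      (f := fun k => m {x | (x, k) ∈ A}) (fun k _ => hm0 _ (hsl k A hA)) (Finset.mem_univ k1))

end

end Pool.Agent.H13.FG
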