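import Pool.Agent.H13.FG.Inf
import Pool.Agent.H13.FG.VirM
import Pool.Agent.H13.FG.VirC
import Pool.Agent.H13.FG.VirD

/-!
# Virtually free groups
-/

set_option autoImplicit false

open Classical

namespace Pool.Agent.H13.FG

open Pool.Agent.H13.TFG in
theorem vir_good {C : (G : Type) → [Group G] → Prop} (hC : RaagClass C) (Γ : Type) [Group Γ]
    (h : VFree Γ) : Good C Γ := by
  intro X _ _ α hα hm H _ β a hcoc
  obtain ⟨J, n, k₀, ν, κ, τ, b, hν, hb⟩ := vir_data h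
  obtain ⟨β', a', h1⟩ := vir_coc hα hcoc k₀ ν hν κ τ b hb
  have hm' : Mea (α.comp ν) := by
    intro A hA hne
    obtain ⟨m, h2, h3, h4, h5⟩ := hm A hA hne
    exact ⟨m, h2, h3, fun g B hB => h4 (ν g) B hB, h5⟩
  exact inf_good hC (J ⊕ Fin n) (X × Fin n) (al k₀ (α.comp ν))
    (al_cont k₀ (α.comp ν) fun g => hα (ν g)) (al_mea k₀ (α.comp ν) (fun g => hα (ν g)) hm')
    H β' a' h1

end Pool.Agent.H13.FG
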